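import Mathlib

set_option autoImplicit false

namespace Pool.Agent.KS6_78.DG

open Set

/-- the plane -/
abbrev Pt := ℝ × ℝ

/-- the cross product of `b - a` and `c - a` -/
def D (a b c : Pt) : ℝ := (b.1 - a.1) * (c.2 - a.2) - (b.2 - a.2) * (c.1 - a.1)

theorem mem_os {a b z : Pt} : z ∈ openSegment ℝ a b ↔
    ∃ t : ℝ, 0 < t ∧ t < 1 ∧ z.1 = a.1 + t * (b.1 - a.1) ∧ z.2 = a.2 + t * (b.2 - a.2) := by
  rw [openSegment_eq_image]
  constructor
  · rintro ⟨t, ⟨h0, h1⟩, rfl⟩
    exact ⟨t, h0, h1, by simp; ring, by simp; ring⟩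
  · rintro ⟨t, h0, h1, e1, e2⟩
    refine ⟨t, ⟨h0, h1⟩, ?_⟩
    ext
    · simp; rw [e1]; ring
    · simp; rw [e2]; ring

theorem os_symm {a b z : Pt} (h : z ∈ openSegment ℝ a b) : z ∈ openSegment ℝ b a := by
  rwa [openSegment_symm]

theorem D_self₁ (a b : Pt) : D a a b = 0 := by simp [D]
theorem D_self₂ (a b : Pt) : D a b a = 0 := by simp [D]
theorem D_self₃ (a b : Pt) : D a b b = 0 := by simp [D]; ring
theorem D_swap (a b c : Pt) : D a c b = - D a b c := by simp only [D]; ring
theorem D_rot (a b c : Pt) : D b c a = D a b c := by simp only [D]; ring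
theorem D_swap' (a b c : Pt) : D b a c = - D a b c := by simp only [D]; ring

theorem D_aff {v a s u z : Pt} {t : ℝ} (e1 : z.1 = s.1 + t * (u.1 - s.1))
    (e2 : z.2 = s.2 + t * (u.2 - s.2)) : D v a z = D v a s + t * (D v a u - D v a s) := by
  simp only [D]; rw [e1, e2]; ring

theorem D_aff' {v b s u z : Pt} {t : ℝ} (e1 : z.1 = s.1 + t * (u.1 - s.1))
    (e2 : z.2 = s.2 + t * (u.2 - s.2)) : D v z b = D v s b + t * (D v u b - D v s b) := by
  simp only [D]; rw [e1, e2]; ring

/-- Cramer's rule -/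
theorem cramer1 (v a b x : Pt) :
    D v a b * (x.1 - v.1) = D v x b * (a.1 - v.1) + D v a x * (b.1 - v.1) := by
  simp only [D]; ring

theorem cramer2 (v a b x : Pt) :
    D v a b * (x.2 - v.2) = D v x b * (a.2 - v.2) + D v a x * (b.2 - v.2) := by
  simp only [D]; ring

theorem eq_of_D {v a b x : Pt} (h : D v a b ≠ 0) (h1 : D v x b = 0) (h2 : D v a x = 0) : x = v := by
  have e1 := cramer1 v a b x
  have e2 := cramer2 v a b x
  rw [h1, h2] at e1 e2
  have f1 : x.1 - v.1 = 0 := by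
    have : D v a b * (x.1 - v.1) = 0 := by linarith
    exact (mul_eq_zero.1 this).resolve_left h
  have f2 : x.2 - v.2 = 0 := by
    have : D v a b * (x.2 - v.2) = 0 := by linarith
    exact (mul_eq_zero.1 this).resolve_left h
  exact Prod.ext (by linarith) (by linarith)

/-- a point with coordinates `(α, 0)`, `0 < α < 1` -/
theorem os_of_D {v a b x : Pt} (h : 0 < D v a b) (h1 : 0 < D v x b) (h1' : D v x b < D v a b)
    (h2 : D v a x = 0) : x ∈ openSegment ℝ v a := by
  have e1 := cramer1 v a b x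
  have e2 := cramer2 v a b x
  rw [h2] at e1 e2
  refine mem_os.2 ⟨D v x b / D v a b, div_pos h1 h, (div_lt_one h).2 h1', ?_, ?_⟩
  · field_simp
    linarith
  · field_simp
    linarith

theorem exit2 {x y x' y' : ℝ} (hx : 0 < x) (hy : 0 < y) (h : ¬ (0 < x' ∧ 0 < y')) :
    ∃ s : ℝ, 0 < s ∧ s ≤ 1 ∧ 0 ≤ x + s * (x' - x) ∧ 0 ≤ y + s * (y' - y) ∧
      (x + s * (x' - x) = 0 ∨ y + s * (y' - y) = 0) := by
  have key : ∀ x y x' y' : ℝ, 0 < x → 0 < y → x' ≤ 0 →
      ∃ s : ℝ, 0 < s ∧ s ≤ 1 ∧ 0 ≤ x + s * (x' - x) ∧ 0 ≤ y + s * (y' - y) ∧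
      (x + s * (x' - x) = 0 ∨ y + s * (y' - y) = 0) := by
    intro x y x' y' hx hy hx'
    have hd : 0 < x - x' := by linarith
    have hs1 : 0 < x / (x - x') := div_pos hx hd
    have hs2 : x / (x - x') ≤ 1 := (div_le_one hd).2 (by linarith)
    have e : x + x / (x - x') * (x' - x) = 0 := by field_simp; ring
    by_cases hy1 : 0 ≤ y + x / (x - x') * (y' - y)
    · exact ⟨_, hs1, hs2, e.ge, hy1, Or.inl e⟩
    · push_neg at hy1
      have hyy : 0 < y - y' := by
        by_contra hc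
        have : 0 ≤ x / (x - x') * (y' - y) := mul_nonneg hs1.le (by linarith)
        linarith
      have hlt : y / (y - y') < x / (x - x') := by
        rw [div_lt_iff₀ hyy]
        linarith
      have e' : y + y / (y - y') * (y' - y) = 0 := by field_simp; ring
      refine ⟨y / (y - y'), div_pos hy hyy, by linarith, ?_, e'.ge, Or.inr e'⟩
      have : y / (y - y') * (x - x') ≤ x / (x - x') * (x - x') :=
        mul_le_mul_of_nonneg_right hlt.le hd.le
      linarith
  by_cases hx' : x' ≤ 0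
  · exact key x y x' y' hx hy hx'
  · have hy' : y' ≤ 0 := by
      by_contra hc
      exact h ⟨by linarith, by linarith⟩
    obtain ⟨s, h1, h2, h3, h4, h5⟩ := key y x y' x' hy hx hy'
    exact ⟨s, h1, h2, h4, h3, h5.symm⟩

/-- `T` is a maximal set of pairs of the points `p i` whose open segments contain no points `p j`
and are pairwise disjoint. -/
structure Tri {n : ℕ} (p : Fin n → Pt) (T : Fin n → Fin n → Prop) : Prop where
  inj : Function.Injective p
  symm : ∀ {a b}, T a b → T b a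
  irr : ∀ {a}, ¬ T a a
  clear : ∀ {a b c}, T a b → p c ∉ openSegment ℝ (p a) (p b)
  nc : ∀ {a b c d z}, T a b → T c d → z ∈ openSegment ℝ (p a) (p b) →
    z ∈ openSegment ℝ (p c) (p d) → (a = c ∧ b = d) ∨ (a = d ∧ b = c)
  max : ∀ {a b}, a ≠ b → (∀ c, p c ∉ openSegment ℝ (p a) (p b)) →
    (∀ c d z, T c d → z ∈ openSegment ℝ (p a) (p b) → z ∉ openSegment ℝ (p c) (p d)) → T a b

variable {n : ℕ} {p : Fin n → Pt} {T : Fin n → Fin n → Prop}

/-- points between `c` and a point of the open segment `c d` -/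
theorem os_mid {c d q r : Pt} (hq : q ∈ openSegment ℝ c d) {s : ℝ} (h0 : 0 ≤ s) (h1 : s < 1)
    (e1 : r.1 = q.1 + s * (c.1 - q.1)) (e2 : r.2 = q.2 + s * (c.2 - q.2)) :
    r ∈ openSegment ℝ c d := by
  obtain ⟨t, t0, t1, f1, f2⟩ := mem_os.1 hq
  refine mem_os.2 ⟨t * (1 - s), mul_pos t0 (by linarith), ?_, ?_, ?_⟩
  · nlinarith
  · rw [e1, f1]; ring
  · rw [e2, f2]; ring

theorem exitX (h : Tri p T) {v a b : Fin n} (hva : T v a) (hvb : T v b)
    (hδ : 0 < D (p v) (p a) (p b)) {c d : Fin n} (hcd : T c d) {q : Pt}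
    (hq : q ∈ openSegment ℝ (p c) (p d)) (hα : 0 < D (p v) q (p b)) (hβ : 0 < D (p v) (p a) q)
    (hH1 : D (p v) q (p b) + D (p v) (p a) q ≤ D (p v) (p a) (p b))
    (hH2 : D (p v) (p c) (p b) + D (p v) (p a) (p c) < D (p v) (p a) (p b))
    (hno : ¬ (0 < D (p v) (p c) (p b) ∧ 0 < D (p v) (p a) (p c))) : c = v := by
  obtain ⟨s, s0, s1, g1, g2, g3⟩ := exit2 hα hβ hno
  set r : Pt := (q.1 + s * ((p c).1 - q.1), q.2 + s * ((p c).2 - q.2)) with hr
  have r1 : D (p v) r (p b) = D (p v) q (p b) + s * (D (p v) (p c) (p b) - D (p v) q (p b)) :=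
    D_aff' rfl rfl
  have r2 : D (p v) (p a) r = D (p v) (p a) q + s * (D (p v) (p a) (p c) - D (p v) (p a) q) :=
    D_aff rfl rfl
  rw [← r1] at g1 g3
  rw [← r2] at g2 g3
  have hH : D (p v) r (p b) + D (p v) (p a) r < D (p v) (p a) (p b) := by
    rw [r1, r2]
    nlinarith
  have hs1 : s = 1 → r = p c := by
    intro hs
    rw [hr, hs]
    ext <;> simp
  have hv : r = p v → c = v := by
    intro hrv
    rcases s1.lt_or_eq with hs | hs
    · have hm : r ∈ openSegment ℝ (p c) (p d) := os_mid hq s0.le hs rfl rfl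
      rw [hrv] at hm
      exact absurd hm (h.clear hcd)
    · exact h.inj ((hs1 hs).symm.trans hrv)
  rcases g3 with g | g
  · rcases g2.lt_or_eq with g2 | g2
    · have ho : r ∈ openSegment ℝ (p v) (p b) := by
        have e1 := cramer1 (p v) (p a) (p b) r
        have e2 := cramer2 (p v) (p a) (p b) r
        rw [g] at e1 e2
        refine mem_os.2 ⟨D (p v) (p a) r / D (p v) (p a) (p b), div_pos g2 hδ,
          (div_lt_one hδ).2 (by linarith), ?_, ?_⟩
        · field_simp
          linarith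
        · field_simp
          linarith
      rcases s1.lt_or_eq with hs | hs
      · rcases h.nc hcd hvb (os_mid hq s0.le hs rfl rfl) ho with ⟨e, -⟩ | ⟨e, e'⟩
        · exact e
        · subst e; subst e'
          obtain ⟨t, t0, t1, f1, f2⟩ := mem_os.1 hq
          have := D_aff' (v := p d) (b := p c) f1 f2
          rw [D_self₃, D_self₁] at this
          rw [this] at hα
          simp at hα
      · exact absurd ((hs1 hs) ▸ ho) (h.clear hvb)
    · exact hv (eq_of_D hδ.ne' g g2.symm)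
  · rcases g1.lt_or_eq with g1 | g1
    · have ho : r ∈ openSegment ℝ (p v) (p a) := os_of_D hδ g1 (by linarith) g
      rcases s1.lt_or_eq with hs | hs
      · rcases h.nc hcd hva (os_mid hq s0.le hs rfl rfl) ho with ⟨e, -⟩ | ⟨e, e'⟩
        · exact e
        · subst e; subst e'
          obtain ⟨t, t0, t1, f1, f2⟩ := mem_os.1 hq
          have := D_aff (v := p d) (a := p c) f1 f2
          rw [D_self₃, D_self₂] at this
          rw [this] at hβ
          simp at hβ
      · exact absurd ((hs1 hs) ▸ ho) (h.clear hva)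
    · exact hv (eq_of_D hδ.ne' g1.symm g)

end Pool.Agent.KS6_78.DG
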