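import Pool.Agent.KS6_78.DG.A

set_option autoImplicit false

namespace Pool.Agent.KS6_78.DG

open Set

variable {n : ℕ} {p : Fin n → Pt} {T : Fin n → Fin n → Prop}

theorem eq_of_coords {v a b x y : Pt} (h : D v a b ≠ 0) (h1 : D v x b = D v y b)
    (h2 : D v a x = D v a y) : x = y := by
  have e1 := cramer1 v a b x
  have e2 := cramer2 v a b x
  have f1 := cramer1 v a b y
  have f2 := cramer2 v a b y
  rw [h1, h2] at e1 e2
  have g1 : x.1 = y.1 := by
    have : D v a b * (x.1 - y.1) = 0 := by linarith
    have := (mul_eq_zero.1 this).resolve_left h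
    linarith
  have g2 : x.2 = y.2 := by
    have : D v a b * (x.2 - y.2) = 0 := by linarith
    have := (mul_eq_zero.1 this).resolve_left h
    linarith
  exact Prod.ext g1 g2

theorem os_of_coords {v a b x c d : Pt} (h : D v a b ≠ 0) {t : ℝ} (t0 : 0 < t) (t1 : t < 1)
    (h1 : D v x b = D v c b + t * (D v d b - D v c b))
    (h2 : D v a x = D v a c + t * (D v a d - D v a c)) : x ∈ openSegment ℝ c d := by
  have e : x = (c.1 + t * (d.1 - c.1), c.2 + t * (d.2 - c.2)) := by
    refine eq_of_coords h ?_ ?_
    · rw [h1]; exact (D_aff' rfl rfl).symm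
    · rw [h2]; exact (D_aff rfl rfl).symm
  rw [e]
  exact mem_os.2 ⟨t, t0, t1, rfl, rfl⟩

/-- the endpoint of an edge in the sector at `v` through a point `q` of the sector -/
theorem sector_end {v a b d q : Pt} (hq : q ∈ openSegment ℝ v d) (hα : 0 < D v q b)
    (hβ : 0 < D v a q) : 0 < D v d b ∧ 0 < D v a d := by
  obtain ⟨t, t0, t1, f1, f2⟩ := mem_os.1 hq
  have g1 := D_aff (v := v) (a := a) f1 f2
  have g2 := D_aff' (v := v) (b := b) f1 f2
  rw [D_self₂] at g1
  rw [D_self₁] at g2
  rw [g2] at hα
  rw [g1] at hβ
  constructor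
  · by_contra hc
    nlinarith
  · by_contra hc
    nlinarith

theorem gap_empty (h : Tri p T) {v a b : Fin n} (hva : T v a) (hvb : T v b)
    (hδ : 0 < D (p v) (p a) (p b))
    (hno : ∀ c, T v c → ¬ (0 < D (p v) (p c) (p b) ∧ 0 < D (p v) (p a) (p c))) (c : Fin n)
    (h1 : 0 < D (p v) (p c) (p b)) (h2 : 0 < D (p v) (p a) (p c))
    (h3 : D (p v) (p c) (p b) + D (p v) (p a) (p c) ≤ D (p v) (p a) (p b)) : False := by
  classical
  set W : Finset (Fin n) := Finset.univ.filter fun c => 0 < D (p v) (p c) (p b) ∧
    0 < D (p v) (p a) (p c) ∧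
    D (p v) (p c) (p b) + D (p v) (p a) (p c) ≤ D (p v) (p a) (p b) with hW
  obtain ⟨w, hw, hmin⟩ := Finset.exists_min_image W
    (fun c => D (p v) (p c) (p b) + D (p v) (p a) (p c)) ⟨c, by simp [hW, h1, h2, h3]⟩
  have hw' : 0 < D (p v) (p w) (p b) ∧ 0 < D (p v) (p a) (p w) ∧
    D (p v) (p w) (p b) + D (p v) (p a) (p w) ≤ D (p v) (p a) (p b) := by
    simpa [hW] using hw
  obtain ⟨w1, w2, w3⟩ := hw'
  have hT : T v w := by
    refine h.max ?_ ?_ ?_
    · rintro rfl
      rw [D_self₁] at w1
      exact lt_irrefl _ w1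
    · intro c hc
      obtain ⟨t, t0, t1, f1, f2⟩ := mem_os.1 hc
      have g1 := D_aff (v := p v) (a := p a) f1 f2
      have g2 := D_aff' (v := p v) (b := p b) f1 f2
      rw [D_self₂] at g1
      rw [D_self₁] at g2
      have hc1 : 0 < D (p v) (p c) (p b) := by rw [g2]; nlinarith
      have hc2 : 0 < D (p v) (p a) (p c) := by rw [g1]; nlinarith
      have hc3 : D (p v) (p c) (p b) + D (p v) (p a) (p c) <
          D (p v) (p w) (p b) + D (p v) (p a) (p w) := by rw [g1, g2]; nlinarith
      have := hmin c (by simp only [hW, Finset.mem_filter, Finset.mem_univ, true_and]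
                         exact ⟨hc1, hc2, by linarith⟩)
      linarith
    · intro c d q hcd hq hq'
      obtain ⟨t, t0, t1, f1, f2⟩ := mem_os.1 hq
      have g1 := D_aff (v := p v) (a := p a) f1 f2
      have g2 := D_aff' (v := p v) (b := p b) f1 f2
      rw [D_self₂] at g1
      rw [D_self₁] at g2
      have hq1 : 0 < D (p v) q (p b) := by rw [g2]; nlinarith
      have hq2 : 0 < D (p v) (p a) q := by rw [g1]; nlinarith
      have hq3 : D (p v) q (p b) + D (p v) (p a) q <
          D (p v) (p w) (p b) + D (p v) (p a) (p w) := by rw [g1, g2]; nlinarith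
      have main : ∀ c d : Fin n, T c d → q ∈ openSegment ℝ (p c) (p d) →
          D (p v) (p c) (p b) + D (p v) (p a) (p c) ≤ D (p v) q (p b) + D (p v) (p a) q →
          False := by
        intro c d hcd hq' hle
        have hcv : c = v := by
          refine exitX h hva hvb hδ hcd hq' hq1 hq2 (by linarith) (by linarith) ?_
          rintro ⟨k1, k2⟩
          have := hmin c (by simp only [hW, Finset.mem_filter, Finset.mem_univ, true_and]
                             exact ⟨k1, k2, by linarith⟩)
          linarith
        subst hcv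
        exact hno d hcd (sector_end hq' hq1 hq2)
      obtain ⟨u, u0, u1, k1, k2⟩ := mem_os.1 hq'
      have l1 := D_aff (v := p v) (a := p a) k1 k2
      have l2 := D_aff' (v := p v) (b := p b) k1 k2
      by_cases hle : D (p v) (p c) (p b) + D (p v) (p a) (p c) ≤ D (p v) q (p b) + D (p v) (p a) q
      · exact main c d hcd hq' hle
      · refine main d c (h.symm hcd) (os_symm hq') ?_
        rw [l1, l2]
        rw [l1, l2] at hle
        push_neg at hle
        nlinarith
  exact hno w hT ⟨w1, w2⟩

theorem gap_edge (h : Tri p T) {v a b : Fin n} (hva : T v a) (hvb : T v b)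
    (hδ : 0 < D (p v) (p a) (p b))
    (hno : ∀ c, T v c → ¬ (0 < D (p v) (p c) (p b) ∧ 0 < D (p v) (p a) (p c))) : T a b := by
  have hE := gap_empty h hva hvb hδ hno
  by_contra hTab
  refine hTab (h.max ?_ ?_ ?_)
  · rintro rfl
    rw [D_self₃] at hδ
    exact lt_irrefl _ hδ
  · intro c hc
    obtain ⟨t, t0, t1, f1, f2⟩ := mem_os.1 hc
    have g1 := D_aff (v := p v) (a := p a) f1 f2
    have g2 := D_aff' (v := p v) (b := p b) f1 f2
    rw [D_self₃] at g1
    rw [D_self₃] at g2
    exact hE c (by rw [g2]; nlinarith) (by rw [g1]; nlinarith) (by rw [g1, g2]; nlinarith)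
  · intro c d q hcd hq hq'
    obtain ⟨t, t0, t1, f1, f2⟩ := mem_os.1 hq
    have g1 := D_aff (v := p v) (a := p a) f1 f2
    have g2 := D_aff' (v := p v) (b := p b) f1 f2
    rw [D_self₃] at g1
    rw [D_self₃] at g2
    have hq1 : 0 < D (p v) q (p b) := by rw [g2]; nlinarith
    have hq2 : 0 < D (p v) (p a) q := by rw [g1]; nlinarith
    have hq3 : D (p v) q (p b) + D (p v) (p a) q = D (p v) (p a) (p b) := by rw [g1, g2]; ring
    have main : ∀ c d : Fin n, T c d → q ∈ openSegment ℝ (p c) (p d) →
        D (p v) (p c) (p b) + D (p v) (p a) (p c) < D (p v) (p a) (p b) → False := by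
      intro c d hcd hq' hlt
      have hcv : c = v := by
        refine exitX h hva hvb hδ hcd hq' hq1 hq2 hq3.le hlt ?_
        rintro ⟨k1, k2⟩
        exact hE c k1 k2 hlt.le
      subst hcv
      exact hno d hcd (sector_end hq' hq1 hq2)
    obtain ⟨u, u0, u1, k1, k2⟩ := mem_os.1 hq'
    have l1 := D_aff (v := p v) (a := p a) k1 k2
    have l2 := D_aff' (v := p v) (b := p b) k1 k2
    by_cases hc : D (p v) (p c) (p b) + D (p v) (p a) (p c) < D (p v) (p a) (p b)
    · exact main c d hcd hq' hc
    by_cases hd : D (p v) (p d) (p b) + D (p v) (p a) (p d) < D (p v) (p a) (p b)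
    · exact main d c (h.symm hcd) (os_symm hq') hd
    push_neg at hc hd
    have hc' : D (p v) (p c) (p b) + D (p v) (p a) (p c) = D (p v) (p a) (p b) := by
      by_contra hne
      have := lt_of_le_of_ne hc (Ne.symm hne)
      nlinarith
    have hd' : D (p v) (p d) (p b) + D (p v) (p a) (p d) = D (p v) (p a) (p b) := by
      by_contra hne
      have := lt_of_le_of_ne hd (Ne.symm hne)
      nlinarith
    -- `c`, `d` are on the line through `a` and `b`
    have fin : ∀ c d : Fin n, T c d → q ∈ openSegment ℝ (p c) (p d) →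
        D (p v) (p c) (p b) + D (p v) (p a) (p c) = D (p v) (p a) (p b) →
        D (p v) (p d) (p b) + D (p v) (p a) (p d) = D (p v) (p a) (p b) →
        D (p v) (p a) (p c) ≤ 0 → D (p v) (p d) (p b) ≤ 0 → False := by
      intro c d hcd hq' hc' hd' hb ha
      have hca : c = a := by
        rcases hb.lt_or_eq with hb | hb
        · exfalso
          have hpos : 0 < D (p v) (p a) (p d) - D (p v) (p a) (p c) := by linarith
          have hadd : 0 < D (p v) (p a) (p d) := by linarith
          refine h.clear (c := a) hcd (os_of_coords hδ.ne'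
            (t := -D (p v) (p a) (p c) / (D (p v) (p a) (p d) - D (p v) (p a) (p c)))
            (div_pos (by linarith) hpos) ((div_lt_one hpos).2 (by linarith)) ?_ ?_)
          · have e1 : D (p v) (p c) (p b) = D (p v) (p a) (p b) - D (p v) (p a) (p c) := by linarith
            have e2 : D (p v) (p d) (p b) = D (p v) (p a) (p b) - D (p v) (p a) (p d) := by linarith
            rw [e1, e2]
            field_simp
            ring
          · rw [D_self₃]
            field_simp
            ring
        · refine h.inj (eq_of_coords hδ.ne' ?_ ?_)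
          · linarith
          · rw [hb, D_self₃]
      have hdb : d = b := by
        rcases ha.lt_or_eq with ha | ha
        · exfalso
          have hpos : 0 < D (p v) (p c) (p b) - D (p v) (p d) (p b) := by linarith
          refine h.clear (c := b) (h.symm hcd) (os_of_coords hδ.ne'
            (t := -D (p v) (p d) (p b) / (D (p v) (p c) (p b) - D (p v) (p d) (p b)))
            (div_pos (by linarith) hpos) ((div_lt_one hpos).2 (by linarith)) ?_ ?_)
          · rw [D_self₃]
            field_simp
            ring
          · have e1 : D (p v) (p a) (p c) = D (p v) (p a) (p b) - D (p v) (p c) (p b) := by linarith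
            have e2 : D (p v) (p a) (p d) = D (p v) (p a) (p b) - D (p v) (p d) (p b) := by linarith
            rw [e1, e2]
            field_simp
            ring
        · refine h.inj (eq_of_coords hδ.ne' ?_ ?_)
          · rw [ha, D_self₃]
          · linarith
      subst hca; subst hdb
      exact hTab hcd
    have nc : ¬ (0 < D (p v) (p c) (p b) ∧ 0 < D (p v) (p a) (p c)) := fun k => hE c k.1 k.2 hc'.le
    have nd : ¬ (0 < D (p v) (p d) (p b) ∧ 0 < D (p v) (p a) (p d)) := fun k => hE d k.1 k.2 hd'.le
    by_cases hbc : D (p v) (p a) (p c) ≤ 0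
    · by_cases had : D (p v) (p d) (p b) ≤ 0
      · exact fin c d hcd hq' hc' hd' hbc had
      · have : D (p v) (p a) (p d) ≤ 0 := by
          by_contra hcon
          exact nd ⟨by linarith, by linarith⟩
        rw [l1] at hq2
        nlinarith
    · have hac : D (p v) (p c) (p b) ≤ 0 := by
        by_contra hcon
        exact nc ⟨by linarith, by linarith⟩
      by_cases hbd : D (p v) (p a) (p d) ≤ 0
      · exact fin d c (h.symm hcd) (os_symm hq') hd' hc' hbd hac
      · have : D (p v) (p d) (p b) ≤ 0 := by
          by_contra hcon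
          exact nd ⟨by linarith, by linarith⟩
        rw [l2] at hq1
        nlinarith

end Pool.Agent.KS6_78.DG
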