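import Pool.Agent.KS6_78.DG.B

set_option autoImplicit false

namespace Pool.Agent.KS6_78.DG

open Set

variable {n : ℕ} {p : Fin n → Pt} {T : Fin n → Fin n → Prop}

/-- the linear functional `(α, β)` of `x - v` -/
def lf (α β : ℝ) (v x : Pt) : ℝ := α * (x.1 - v.1) + β * (x.2 - v.2)

theorem lf_aff {α β : ℝ} {v s u z : Pt} {t : ℝ} (e1 : z.1 = s.1 + t * (u.1 - s.1))
    (e2 : z.2 = s.2 + t * (u.2 - s.2)) : lf α β v z = lf α β v s + t * (lf α β v u - lf α β v s) := by
  simp only [lf]; rw [e1, e2]; ring

theorem lf_self (α β : ℝ) (v : Pt) : lf α β v v = 0 := by simp [lf]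

theorem line1 {α β : ℝ} {v u x : Pt} (h : D v u x = 0) :
    lf α β v u * (x.1 - v.1) = lf α β v x * (u.1 - v.1) := by
  simp only [D] at h
  simp only [lf]
  linear_combination β * (-1) * h

theorem line2 {α β : ℝ} {v u x : Pt} (h : D v u x = 0) :
    lf α β v u * (x.2 - v.2) = lf α β v x * (u.2 - v.2) := by
  simp only [D] at h
  simp only [lf]
  linear_combination α * h

theorem os_of_line {α β : ℝ} {v u x : Pt} (h : D v u x = 0) (h0 : 0 < lf α β v x)
    (h1 : lf α β v x < lf α β v u) : x ∈ openSegment ℝ v u := by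
  have hu : 0 < lf α β v u := h0.trans h1
  have e1 := line1 (α := α) (β := β) h
  have e2 := line2 (α := α) (β := β) h
  refine mem_os.2 ⟨lf α β v x / lf α β v u, div_pos h0 hu, (div_lt_one hu).2 h1, ?_, ?_⟩
  · field_simp; linarith
  · field_simp; linarith

theorem eq_of_line {α β : ℝ} {v u x y : Pt} (hu : lf α β v u ≠ 0) (h : D v u x = 0)
    (h' : D v u y = 0) (he : lf α β v x = lf α β v y) : x = y := by
  have e1 := line1 (α := α) (β := β) h
  have e2 := line2 (α := α) (β := β) h
  have f1 := line1 (α := α) (β := β) h'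
  have f2 := line2 (α := α) (β := β) h'
  rw [he] at e1 e2
  have g1 : lf α β v u * (x.1 - y.1) = 0 := by linarith
  have g2 : lf α β v u * (x.2 - y.2) = 0 := by linarith
  have g1 := (mul_eq_zero.1 g1).resolve_left hu
  have g2 := (mul_eq_zero.1 g2).resolve_left hu
  exact Prod.ext (by linarith) (by linarith)

theorem os_of_line2 {α β : ℝ} {v u x c d : Pt} (hu : lf α β v u ≠ 0) (hx : D v u x = 0)
    (hc : D v u c = 0) (hd : D v u d = 0) (h0 : lf α β v c < lf α β v x)
    (h1 : lf α β v x < lf α β v d) : x ∈ openSegment ℝ c d := by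
  have hpos : 0 < lf α β v d - lf α β v c := by linarith
  set t : ℝ := (lf α β v x - lf α β v c) / (lf α β v d - lf α β v c) with ht
  have t0 : 0 < t := div_pos (by linarith) hpos
  have t1 : t < 1 := (div_lt_one hpos).2 (by linarith)
  have e : x = (c.1 + t * (d.1 - c.1), c.2 + t * (d.2 - c.2)) := by
    refine eq_of_line hu hx ?_ ?_
    · rw [D_aff (v := v) (a := u) (s := c) (u := d) (t := t) rfl rfl, hc, hd]; ring
    · rw [lf_aff (α := α) (β := β) (v := v) (s := c) (u := d) (t := t)
        (z := (c.1 + t * (d.1 - c.1), c.2 + t * (d.2 - c.2))) rfl rfl, ht]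
      field_simp
      ring
  rw [e]
  exact mem_os.2 ⟨t, t0, t1, rfl, rfl⟩

/-- an edge which overlaps the clear segment `v u` is `v u` -/
theorem collin (h : Tri p T) {v u c d : Fin n} {α β : ℝ} (hu : 0 < lf α β (p v) (p u))
    (hcl : ∀ e, p e ∉ openSegment ℝ (p v) (p u)) (hcd : T c d) {z : Pt}
    (hz : z ∈ openSegment ℝ (p v) (p u)) (hz' : z ∈ openSegment ℝ (p c) (p d))
    (hc : D (p v) (p u) (p c) = 0) (hd : D (p v) (p u) (p d) = 0) : T v u := by
  have main : ∀ c d : Fin n, T c d → z ∈ openSegment ℝ (p c) (p d) →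
      D (p v) (p u) (p c) = 0 → D (p v) (p u) (p d) = 0 →
      lf α β (p v) (p c) ≤ lf α β (p v) z → lf α β (p v) z ≤ lf α β (p v) (p d) → T v u := by
    intro c d hcd hz' hc hd h1 h2
    obtain ⟨t, t0, t1, f1, f2⟩ := mem_os.1 hz
    have l1 := lf_aff (α := α) (β := β) (v := p v) f1 f2
    rw [lf_self] at l1
    have z0 : 0 < lf α β (p v) z := by rw [l1]; nlinarith
    have z1 : lf α β (p v) z < lf α β (p v) (p u) := by rw [l1]; nlinarith
    obtain ⟨s, s0, s1, k1, k2⟩ := mem_os.1 hz'
    have l2 := lf_aff (α := α) (β := β) (v := p v) k1 k2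
    have hcne : lf α β (p v) (p c) < lf α β (p v) (p d) := by
      rcases (h1.trans h2).lt_or_eq with hh | hh
      · exact hh
      · exact absurd (h.inj (eq_of_line hu.ne' hc hd hh)) (fun e => h.irr (e ▸ hcd))
    have c0 : lf α β (p v) (p c) ≤ 0 := by
      by_contra hcon
      push_neg at hcon
      exact hcl c (os_of_line hc hcon (lt_of_le_of_lt h1 z1))
    have d0 : lf α β (p v) (p u) ≤ lf α β (p v) (p d) := by
      by_contra hcon
      push_neg at hcon
      exact hcl d (os_of_line hd (lt_of_lt_of_le z0 h2) hcon)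
    have hcv : c = v := by
      rcases c0.lt_or_eq with c0 | c0
      · exact absurd (os_of_line2 hu.ne' (D_self₂ _ _) hc hd (by rwa [lf_self])
          (by rw [lf_self]; linarith)) (h.clear hcd)
      · exact h.inj (eq_of_line hu.ne' hc (D_self₂ _ _) (by rw [c0, lf_self]))
    have hdu : d = u := by
      rcases d0.lt_or_eq with d0 | d0
      · exact absurd (os_of_line2 hu.ne' (D_self₃ _ _) hc hd (by linarith) d0) (h.clear hcd)
      · exact h.inj (eq_of_line hu.ne' hd (D_self₃ _ _) d0.symm)
    subst hcv; subst hdu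
    exact hcd
  obtain ⟨s, s0, s1, k1, k2⟩ := mem_os.1 hz'
  have l2 := lf_aff (α := α) (β := β) (v := p v) k1 k2
  rcases le_total (lf α β (p v) (p c)) (lf α β (p v) (p d)) with hle | hle
  · exact main c d hcd hz' hc hd (by rw [l2]; nlinarith) (by rw [l2]; nlinarith)
  · exact main d c (h.symm hcd) (os_symm hz') hd hc (by rw [l2]; nlinarith) (by rw [l2]; nlinarith)

theorem cube_id (v z c w e : Pt) : D v z c ^ 3 * D v w e =
    (D v z c * D v w c) * (D v z c * D v z e) - (D v z c * D v z w) * (D v z c * D v e c) := by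
  simp only [D]; ring

/-- Every open half-plane at `v` with a point contains a neighbour of `v`. -/
theorem exists_nbr (h : Tri p T) (v : Fin n) {α β : ℝ} {u0 : Fin n}
    (hu0 : 0 < lf α β (p v) (p u0)) : ∃ w, T v w ∧ 0 < lf α β (p v) (p w) := by
  classical
  by_contra hcon
  push_neg at hcon
  -- the nearest vertex on the segment
  obtain ⟨u, hu, hcl⟩ : ∃ u, 0 < lf α β (p v) (p u) ∧ ∀ e, p e ∉ openSegment ℝ (p v) (p u) := by
    obtain ⟨u, hu, hmin⟩ := Finset.exists_min_image
      (Finset.univ.filter fun u : Fin n => 0 < lf α β (p v) (p u) ∧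
        D (p v) (p u0) (p u) = 0) (fun u => lf α β (p v) (p u)) ⟨u0, by simp [hu0, D_self₃]⟩
    have hu' : 0 < lf α β (p v) (p u) ∧ D (p v) (p u0) (p u) = 0 := by simpa using hu
    refine ⟨u, hu'.1, fun e he => ?_⟩
    obtain ⟨t, t0, t1, f1, f2⟩ := mem_os.1 he
    have l1 := lf_aff (α := α) (β := β) (v := p v) f1 f2
    have l2 := D_aff (v := p v) (a := p u0) f1 f2
    rw [lf_self] at l1
    rw [D_self₂, hu'.2] at l2
    have e0 : 0 < lf α β (p v) (p e) := by rw [l1]; nlinarith [hu'.1]
    have := hmin e (by simp only [Finset.mem_filter, Finset.mem_univ, true_and]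
                       exact ⟨e0, by rw [l2]; ring⟩)
    rw [l1] at this
    nlinarith [hu'.1]
  have hnT : ¬ T v u := fun hT => absurd (hcon u hT) (not_le.2 hu)
  have hvu : v ≠ u := by
    rintro rfl
    rw [lf_self] at hu
    exact lt_irrefl _ hu
  -- crossing edges
  have cross : ∀ {c d : Fin n} {z : Pt}, T c d → z ∈ openSegment ℝ (p v) (p u) →
      z ∈ openSegment ℝ (p c) (p d) → D (p v) (p u) (p c) ≠ D (p v) (p u) (p d) ∧
      lf α β (p v) z * (D (p v) (p u) (p d) - D (p v) (p u) (p c)) =
        lf α β (p v) (p c) * D (p v) (p u) (p d) - D (p v) (p u) (p c) * lf α β (p v) (p d) := by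
    intro c d z hcd hz hz'
    obtain ⟨t, t0, t1, f1, f2⟩ := mem_os.1 hz
    obtain ⟨s, s0, s1, k1, k2⟩ := mem_os.1 hz'
    have l1 := D_aff (v := p v) (a := p u) f1 f2
    rw [D_self₂, D_self₃] at l1
    have l2 := D_aff (v := p v) (a := p u) k1 k2
    have l3 := lf_aff (α := α) (β := β) (v := p v) k1 k2
    have hz0 : D (p v) (p u) z = 0 := by rw [l1]; ring
    rw [hz0] at l2
    refine ⟨fun he => hnT ?_, ?_⟩
    · have hc0 : D (p v) (p u) (p c) = 0 := by rw [he] at l2; rw [he]; linarith
      exact collin h hu hcl hcd hz hz' hc0 (he ▸ hc0)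
    · rw [l3]
      linear_combination (lf α β (p v) (p c) - lf α β (p v) (p d)) * l2
  obtain ⟨c, d, z, hcd, hz, hz', hminz⟩ : ∃ c d z, T c d ∧ z ∈ openSegment ℝ (p v) (p u) ∧
      z ∈ openSegment ℝ (p c) (p d) ∧ ∀ c' d' r, T c' d' → r ∈ openSegment ℝ (p v) (p u) →
      r ∈ openSegment ℝ (p c') (p d') → lf α β (p v) z ≤ lf α β (p v) r := by
    have hne : ∃ c d z, T c d ∧ z ∈ openSegment ℝ (p v) (p u) ∧ z ∈ openSegment ℝ (p c) (p d) := by
      by_contra hc
      push_neg at hc
      exact hnT (h.max hvu hcl fun c d z h1 h2 => hc c d z h1 h2)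
    obtain ⟨c0, d0, z0, g1, g2, g3⟩ := hne
    obtain ⟨⟨c, d⟩, hcd, hmin⟩ := Finset.exists_min_image
      (Finset.univ.filter fun q : Fin n × Fin n => T q.1 q.2 ∧
        ∃ z, z ∈ openSegment ℝ (p v) (p u) ∧ z ∈ openSegment ℝ (p q.1) (p q.2))
      (fun q => (lf α β (p v) (p q.1) * D (p v) (p u) (p q.2) -
        D (p v) (p u) (p q.1) * lf α β (p v) (p q.2)) /
        (D (p v) (p u) (p q.2) - D (p v) (p u) (p q.1)))
      ⟨(c0, d0), by simp only [Finset.mem_filter, Finset.mem_univ, true_and]
                    exact ⟨g1, z0, g2, g3⟩⟩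
    simp only [Finset.mem_filter, Finset.mem_univ, true_and] at hcd
    obtain ⟨hT, z, hz, hz'⟩ := hcd
    refine ⟨c, d, z, hT, hz, hz', fun c' d' r k1 k2 k3 => ?_⟩
    have := hmin (c', d') (by simp only [Finset.mem_filter, Finset.mem_univ, true_and]
                              exact ⟨k1, r, k2, k3⟩)
    simp only at this
    obtain ⟨m1, m2⟩ := cross hT hz hz'
    obtain ⟨m3, m4⟩ := cross k1 k2 k3
    rwa [← m2, ← m4, mul_div_cancel_right₀ _ (sub_ne_zero.2 m1.symm),
      mul_div_cancel_right₀ _ (sub_ne_zero.2 m3.symm)] at this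
  have zpos : 0 < lf α β (p v) z := by
    obtain ⟨t, t0, t1, f1, f2⟩ := mem_os.1 hz
    rw [lf_aff (α := α) (β := β) (v := p v) f1 f2, lf_self]
    nlinarith
  -- the main argument
  have main : ∀ c d : Fin n, T c d → z ∈ openSegment ℝ (p c) (p d) → 0 < lf α β (p v) (p c) →
      False := by
    intro c d hcd hz' hc
    obtain ⟨tz, tz0, tz1, fz1, fz2⟩ := mem_os.1 hz
    have Dz : D (p v) (p u) z = 0 := by
      rw [D_aff (v := p v) (a := p u) fz1 fz2, D_self₂, D_self₃]; ring
    -- the frame is nondegenerate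
    have hδ : D (p v) z (p c) ≠ 0 := by
      intro h0
      have e1 : D (p v) z (p c) = tz * D (p v) (p u) (p c) := by
        rw [D_aff' (v := p v) (b := p c) fz1 fz2, D_self₁]; ring
      have e2 : D (p v) (p u) (p c) = 0 := by
        rw [e1] at h0
        exact (mul_eq_zero.1 h0).resolve_left tz0.ne'
      obtain ⟨s, s0, s1, k1, k2⟩ := mem_os.1 hz'
      have l2 := D_aff (v := p v) (a := p u) k1 k2
      rw [Dz, e2] at l2
      have e3 : D (p v) (p u) (p d) = 0 := by
        have : s * D (p v) (p u) (p d) = 0 := by linarith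
        exact (mul_eq_zero.1 this).resolve_left s0.ne'
      exact (cross hcd hz hz').1 (e2.trans e3.symm)
    obtain ⟨A, hA⟩ : ∃ A : Pt → ℝ, ∀ x, A x = D (p v) z (p c) * D (p v) x (p c) := ⟨_, fun _ => rfl⟩
    obtain ⟨B, hB⟩ : ∃ B : Pt → ℝ, ∀ x, B x = D (p v) z (p c) * D (p v) z x := ⟨_, fun _ => rfl⟩
    obtain ⟨Δ, hΔ⟩ : ∃ Δ : ℝ, Δ = D (p v) z (p c) * D (p v) z (p c) := ⟨_, rfl⟩
    have Δ0 : 0 < Δ := by rw [hΔ]; exact mul_self_pos.2 hδ
    have Aaff : ∀ {s u x : Pt} {t : ℝ}, x.1 = s.1 + t * (u.1 - s.1) →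
        x.2 = s.2 + t * (u.2 - s.2) → A x = A s + t * (A u - A s) := by
      intro s u x t e1 e2
      rw [hA, hA, hA, D_aff' e1 e2]; ring
    have Baff : ∀ {s u x : Pt} {t : ℝ}, x.1 = s.1 + t * (u.1 - s.1) →
        x.2 = s.2 + t * (u.2 - s.2) → B x = B s + t * (B u - B s) := by
      intro s u x t e1 e2
      rw [hB, hB, hB, D_aff e1 e2]; ring
    have Av : A (p v) = 0 := by rw [hA, D_self₁, mul_zero]
    have Bv : B (p v) = 0 := by rw [hB, D_self₂, mul_zero]
    have Ac : A (p c) = 0 := by rw [hA, D_self₃, mul_zero]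
    have Bc : B (p c) = Δ := by rw [hB, hΔ]
    have Az : A z = Δ := by rw [hA, hΔ]
    have Bz : B z = 0 := by rw [hB, D_self₃, mul_zero]
    have cr1 : ∀ x : Pt, Δ * (x.1 - (p v).1) = A x * (z.1 - (p v).1) + B x * ((p c).1 - (p v).1) := by
      intro x
      have := cramer1 (p v) z (p c) x
      rw [hΔ, hA, hB]
      linear_combination D (p v) z (p c) * this
    have cr2 : ∀ x : Pt, Δ * (x.2 - (p v).2) = A x * (z.2 - (p v).2) + B x * ((p c).2 - (p v).2) := by
      intro x
      have := cramer2 (p v) z (p c) x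
      rw [hΔ, hA, hB]
      linear_combination D (p v) z (p c) * this
    have crL : ∀ x : Pt, Δ * lf α β (p v) x = A x * lf α β (p v) z + B x * lf α β (p v) (p c) := by
      intro x
      simp only [lf]
      linear_combination α * cr1 x + β * cr2 x
    -- the set of candidates
    set W : Finset (Fin n) := Finset.univ.filter fun w => 0 ≤ A (p w) ∧ 0 < B (p w) ∧
      A (p w) + B (p w) ≤ Δ with hW
    have memW : ∀ w, w ∈ W ↔ 0 ≤ A (p w) ∧ 0 < B (p w) ∧ A (p w) + B (p w) ≤ Δ := by
      intro w; simp [hW]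
    obtain ⟨w1, hw1, hmax1⟩ := Finset.exists_max_image W (fun w => A (p w) / B (p w))
      ⟨c, (memW c).2 ⟨Ac.ge, by rw [Bc]; exact Δ0, by rw [Ac, Bc]; linarith⟩⟩
    obtain ⟨w, hw, hmin⟩ := Finset.exists_min_image
      (W.filter fun w => A (p w) / B (p w) = A (p w1) / B (p w1)) (fun w => B (p w))
      ⟨w1, by simp [hw1]⟩
    rw [Finset.mem_filter] at hw
    obtain ⟨hwW, hwr⟩ := hw
    obtain ⟨wA, wB, wH⟩ := (memW w).1 hwW
    have hmax : ∀ u, 0 ≤ A (p u) → 0 < B (p u) → A (p u) + B (p u) ≤ Δ →
        A (p u) * B (p w) ≤ A (p w) * B (p u) := by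
      intro u u1 u2 u3
      have := hmax1 u ((memW u).2 ⟨u1, u2, u3⟩)
      simp only [← hwr] at this
      rwa [div_le_div_iff₀ u2 wB] at this
    have hminB : ∀ u, 0 ≤ A (p u) → 0 < B (p u) → A (p u) + B (p u) ≤ Δ →
        A (p u) * B (p w) = A (p w) * B (p u) → B (p w) ≤ B (p u) := by
      intro u u1 u2 u3 u4
      refine hmin u (Finset.mem_filter.2 ⟨(memW u).2 ⟨u1, u2, u3⟩, ?_⟩)
      rw [← hwr, div_eq_div_iff u2.ne' wB.ne', u4]
    have hwL : 0 < lf α β (p v) (p w) := by
      have := crL (p w)
      have : 0 < Δ * lf α β (p v) (p w) := by rw [this]; nlinarith [mul_pos wB hc, mul_nonneg wA zpos.le]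
      exact (mul_pos_iff_of_pos_left Δ0).1 this
    have hclw : ∀ e, p e ∉ openSegment ℝ (p v) (p w) := by
      intro e he
      obtain ⟨t, t0, t1, f1, f2⟩ := mem_os.1 he
      have g1 := Aaff f1 f2
      have g2 := Baff f1 f2
      rw [Av] at g1
      rw [Bv] at g2
      have := hminB e (by rw [g1]; nlinarith) (by rw [g2]; nlinarith) (by rw [g1, g2]; nlinarith)
        (by rw [g1, g2]; ring)
      rw [g2] at this
      nlinarith
    have hvw : v ≠ w := by
      rintro rfl
      rw [Bv] at wB
      exact lt_irrefl _ wB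
    by_cases hTw : T v w
    · exact absurd (hcon w hTw) (not_le.2 hwL)
    refine hTw (h.max hvw hclw ?_)
    intro e f q hef hq hq'
    obtain ⟨t, t0, t1, f1, f2⟩ := mem_os.1 hq
    have qA := Aaff f1 f2
    have qB := Baff f1 f2
    rw [Av] at qA
    rw [Bv] at qB
    have qB0 : 0 < B q := by rw [qB]; nlinarith
    have qH : A q + B q < Δ := by rw [qA, qB]; nlinarith
    have qm : B (p w) * A q - A (p w) * B q = 0 := by rw [qA, qB]; ring
    have notcd : ∀ e f : Fin n, q ∈ openSegment ℝ (p e) (p f) →
        ¬ ((e = c ∧ f = d) ∨ (e = d ∧ f = c)) := by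
      have hh : q ∉ openSegment ℝ (p c) (p d) := by
        intro hqq
        obtain ⟨s, s0, s1, k1, k2⟩ := mem_os.1 hz'
        have a1 := Aaff k1 k2
        have a2 := Baff k1 k2
        rw [Az, Ac] at a1
        rw [Bz, Bc] at a2
        obtain ⟨s', s0', s1', k1', k2'⟩ := mem_os.1 hqq
        have b1 := Aaff k1' k2'
        have b2 := Baff k1' k2'
        rw [Ac] at b1
        rw [Bc] at b2
        have hd : A (p d) + B (p d) = Δ := by
          have : s * (A (p d) + B (p d) - Δ) = 0 := by linarith
          have := (mul_eq_zero.1 this).resolve_left s0.ne'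
          linarith
        have : A q + B q = Δ := by
          rw [b1, b2]
          linear_combination s' * hd
        linarith
      rintro e f hq (⟨rfl, rfl⟩ | ⟨rfl, rfl⟩)
      · exact hh hq
      · exact hh (os_symm hq)
    have sub : ∀ e f : Fin n, T e f → q ∈ openSegment ℝ (p e) (p f) →
        0 < B (p w) * A (p e) - A (p w) * B (p e) → False := by
      intro e f hef hq' hm
      have hno : ¬ (0 < B (p e) ∧ 0 < Δ - A (p e) - B (p e)) := by
        rintro ⟨k1, k2⟩
        have hAe : 0 ≤ A (p e) := by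
          by_contra hneg
          push_neg at hneg
          nlinarith
        have := hmax e hAe k1 (by linarith)
        linarith
      obtain ⟨s, s0, s1, g1, g2, g3⟩ := exit2 qB0 (y := Δ - A q - B q) (by linarith) hno
      set r : Pt := (q.1 + s * ((p e).1 - q.1), q.2 + s * ((p e).2 - q.2)) with hr
      have rA : A r = A q + s * (A (p e) - A q) := Aaff rfl rfl
      have rB : B r = B q + s * (B (p e) - B q) := Baff rfl rfl
      have rm : 0 < B (p w) * A r - A (p w) * B r := by
        have : B (p w) * A r - A (p w) * B r = s * (B (p w) * A (p e) - A (p w) * B (p e)) := by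
          rw [rA, rB]; linear_combination (1 - s) * qm
        rw [this]; exact mul_pos s0 hm
      have g1' : 0 ≤ B r := by rw [rB]; exact g1
      have g2' : A r + B r ≤ Δ := by rw [rA, rB]; linarith
      have g3' : B r = 0 ∨ A r + B r = Δ := by
        rcases g3 with g | g
        · left; rw [rB]; exact g
        · right; rw [rA, rB]; linarith
      have rA0 : 0 < A r := by
        by_contra hneg
        push_neg at hneg
        nlinarith
      have hs1 : s = 1 → r = p e := by
        intro hs
        rw [hr, hs]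
        ext <;> simp
      have hr' : s < 1 → r ∈ openSegment ℝ (p e) (p f) := fun hs => os_mid hq' s0.le hs rfl rfl
      have hzc : A r + B r = Δ → r ∈ openSegment ℝ (p c) (p d) := by
        intro hH
        refine os_mid hz' (s := B r / Δ) (div_nonneg g1' Δ0.le) ((div_lt_one Δ0).2 (by linarith)) ?_ ?_
        · have := cr1 r
          have e2 : A r = Δ - B r := by linarith
          rw [e2] at this
          field_simp
          linarith
        · have := cr2 r
          have e2 : A r = Δ - B r := by linarith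
          rw [e2] at this
          field_simp
          linarith
      rcases g3' with g | g
      · rcases g2'.lt_or_eq with g2'' | g2''
        · -- on the open segment `v z`
          have hDr : D (p v) (p u) r = 0 := by
            have e1 : D (p v) z r = 0 := by
              have := hB r
              rw [g] at this
              exact (mul_eq_zero.1 this.symm).resolve_left hδ
            have e2 : D (p v) z r = tz * D (p v) (p u) r := by
              rw [D_aff' (v := p v) (b := r) fz1 fz2, D_self₁]; ring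
            rw [e2] at e1
            exact (mul_eq_zero.1 e1).resolve_left tz0.ne'
          have hLr := crL r
          rw [g, zero_mul, add_zero] at hLr
          have hLr0 : 0 < lf α β (p v) r := by
            have : 0 < Δ * lf α β (p v) r := by rw [hLr]; exact mul_pos rA0 zpos
            exact (mul_pos_iff_of_pos_left Δ0).1 this
          have hLr1 : lf α β (p v) r < lf α β (p v) z := by
            have : Δ * lf α β (p v) r < Δ * lf α β (p v) z := by
              rw [hLr]
              exact mul_lt_mul_of_pos_right (by linarith) zpos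
            exact lt_of_mul_lt_mul_left this Δ0.le
          have hzu : lf α β (p v) z < lf α β (p v) (p u) := by
            rw [lf_aff (α := α) (β := β) (v := p v) fz1 fz2, lf_self]
            nlinarith
          have hro : r ∈ openSegment ℝ (p v) (p u) := os_of_line hDr hLr0 (by linarith)
          rcases s1.lt_or_eq with hs | hs
          · have := hminz e f r hef hro (hr' hs)
            linarith
          · exact hcl e ((hs1 hs) ▸ hro)
        · have hmem := hzc g2''
          rcases s1.lt_or_eq with hs | hs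
          · exact notcd e f hq' (h.nc hef hcd (hr' hs) hmem)
          · exact h.clear (c := e) hcd ((hs1 hs) ▸ hmem)
      · have hmem := hzc g
        rcases s1.lt_or_eq with hs | hs
        · exact notcd e f hq' (h.nc hef hcd (hr' hs) hmem)
        · exact h.clear (c := e) hcd ((hs1 hs) ▸ hmem)
    obtain ⟨s, s0, s1, k1, k2⟩ := mem_os.1 hq'
    have a1 := Aaff k1 k2
    have a2 := Baff k1 k2
    rcases lt_trichotomy (B (p w) * A (p e) - A (p w) * B (p e)) 0 with hm | hm | hm
    · refine sub f e (h.symm hef) (os_symm hq') ?_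
      rw [a1, a2] at qm
      nlinarith
    · have hm' : B (p w) * A (p f) - A (p w) * B (p f) = 0 := by
        rw [a1, a2] at qm
        have : s * (B (p w) * A (p f) - A (p w) * B (p f)) = 0 := by
          linear_combination qm - (1 - s) * hm
        exact (mul_eq_zero.1 this).resolve_left s0.ne'
      have conv : ∀ x : Pt, B (p w) * A x - A (p w) * B x = 0 → D (p v) (p w) x = 0 := by
        intro x hx
        have := cube_id (p v) z (p c) (p w) x
        rw [← hA, ← hA, ← hB, ← hB] at this
        have h0 : D (p v) z (p c) ^ 3 * D (p v) (p w) x = 0 := by rw [this]; linarith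
        exact (mul_eq_zero.1 h0).resolve_left (pow_ne_zero 3 hδ)
      exact hTw (collin h hwL hclw hef hq hq' (conv _ hm) (conv _ hm'))
    · exact sub e f hef hq' hm
  obtain ⟨s, s0, s1, k1, k2⟩ := mem_os.1 hz'
  have l2 := lf_aff (α := α) (β := β) (v := p v) k1 k2
  by_cases hc : 0 < lf α β (p v) (p c)
  · exact main c d hcd hz' hc
  · refine main d c (h.symm hcd) (os_symm hz') ?_
    by_contra hd
    push_neg at hc hd
    rw [l2] at zpos
    nlinarith

end Pool.Agent.KS6_78.DG
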