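import Pool.Agent.KS6_78.DG.C

set_option autoImplicit false

namespace Pool.Agent.KS6_78.DG

open Set

variable {n : ℕ} {p : Fin n → Pt} {T : Fin n → Fin n → Prop}

/-- a triangle of the triangulation -/
structure TT (p : Fin n → Pt) (T : Fin n → Fin n → Prop) (v a b : Fin n) : Prop where
  t1 : T v a
  t2 : T a b
  t3 : T b v
  pos : 0 < D (p v) (p a) (p b)
  emp : ∀ c, c ≠ v → c ≠ a → c ≠ b → 0 ≤ D (p v) (p a) (p c) → 0 ≤ D (p a) (p b) (p c) →
    0 ≤ D (p b) (p v) (p c) → False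

theorem TT.rot {v a b : Fin n} (h : TT p T v a b) : TT p T a b v :=
  ⟨h.t2, h.t3, h.t1, by rw [D_rot]; exact h.pos,
    fun c h1 h2 h3 h4 h5 h6 => h.emp c h3 h1 h2 h6 h4 h5⟩

theorem gap_TT (h : Tri p T) {v a b : Fin n} (hva : T v a) (hvb : T v b)
    (hδ : 0 < D (p v) (p a) (p b))
    (hno : ∀ c, T v c → ¬ (0 < D (p v) (p c) (p b) ∧ 0 < D (p v) (p a) (p c))) :
    TT p T v a b := by
  refine ⟨hva, gap_edge h hva hvb hδ hno, h.symm hvb, hδ, ?_⟩
  intro c hcv hca hcb h1 h2 h3
  have e3 : D (p b) (p v) (p c) = D (p v) (p c) (p b) := (D_rot _ _ _).symm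
  have e2 : D (p a) (p b) (p c) = D (p v) (p a) (p b) - D (p v) (p c) (p b) - D (p v) (p a) (p c) := by
    simp only [D]; ring
  rw [e3] at h3
  rw [e2] at h2
  rcases h3.lt_or_eq with h3 | h3
  · rcases h1.lt_or_eq with h1 | h1
    · exact gap_empty h hva hvb hδ hno c h3 h1 (by linarith)
    · rcases (show D (p v) (p c) (p b) ≤ D (p v) (p a) (p b) by linarith).lt_or_eq with h4 | h4
      · exact h.clear hva (os_of_D hδ h3 h4 h1.symm)
      · exact hca (h.inj (eq_of_coords hδ.ne' h4 (by rw [D_self₃, h1])))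
  · rcases h1.lt_or_eq with h1 | h1
    · rcases (show D (p v) (p a) (p c) ≤ D (p v) (p a) (p b) by linarith).lt_or_eq with h4 | h4
      · refine h.clear (c := c) hvb (os_of_coords hδ.ne'
          (t := D (p v) (p a) (p c) / D (p v) (p a) (p b)) (div_pos h1 hδ)
          ((div_lt_one hδ).2 h4) ?_ ?_)
        · rw [D_self₁, D_self₃, ← h3]; ring
        · rw [D_self₂]; field_simp; ring
      · exact hcb (h.inj (eq_of_coords hδ.ne' (by rw [D_self₃, h3]) h4))
    · exact hcv (h.inj (eq_of_D hδ.ne' h3.symm h1.symm))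

/-- no edge from a corner into the triangle -/
theorem TT.corner (h : Tri p T) {v a b : Fin n} (ht : TT p T v a b) {u : Fin n} (hu : T v u) :
    ¬ (0 < D (p v) (p u) (p b) ∧ 0 < D (p v) (p a) (p u)) := by
  rintro ⟨h1, h2⟩
  have hδ := ht.pos
  have huv : u ≠ v := fun e => h.irr (e ▸ hu)
  have hua : u ≠ a := by
    rintro rfl
    rw [D_self₃] at h2
    exact lt_irrefl _ h2
  have hub : u ≠ b := by
    rintro rfl
    rw [D_self₃] at h1
    exact lt_irrefl _ h1
  by_cases hH : D (p v) (p u) (p b) + D (p v) (p a) (p u) ≤ D (p v) (p a) (p b)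
  · refine ht.emp u huv hua hub h2.le ?_ ?_
    · have e2 : D (p a) (p b) (p u) =
          D (p v) (p a) (p b) - D (p v) (p u) (p b) - D (p v) (p a) (p u) := by
        simp only [D]; ring
      rw [e2]; linarith
    · rw [← D_rot (p b) (p v) (p u)]; exact h1.le
  · push_neg at hH
    set H := D (p v) (p u) (p b) + D (p v) (p a) (p u) with hHdef
    have H0 : 0 < H := by linarith
    have k0 : 0 < D (p v) (p a) (p b) / H := div_pos hδ H0
    have k1 : D (p v) (p a) (p b) / H < 1 := (div_lt_one H0).2 hH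
    set r : Pt := ((p v).1 + D (p v) (p a) (p b) / H * ((p u).1 - (p v).1),
      (p v).2 + D (p v) (p a) (p b) / H * ((p u).2 - (p v).2)) with hr
    have r0 : r ∈ openSegment ℝ (p v) (p u) := mem_os.2 ⟨_, k0, k1, rfl, rfl⟩
    have r1 : D (p v) r (p b) = D (p v) (p a) (p b) / H * D (p v) (p u) (p b) := by
      rw [D_aff' (v := p v) (b := p b) (s := p v) (u := p u) (z := r) rfl rfl, D_self₁]; ring
    have r2 : D (p v) (p a) r = D (p v) (p a) (p b) / H * D (p v) (p a) (p u) := by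
      rw [D_aff (v := p v) (a := p a) (s := p v) (u := p u) (z := r) rfl rfl, D_self₂]; ring
    have r3 : r ∈ openSegment ℝ (p a) (p b) := by
      refine os_of_coords hδ.ne' (t := D (p v) (p a) (p u) / H) (div_pos h2 H0)
        ((div_lt_one H0).2 (by linarith)) ?_ ?_
      · rw [r1, D_self₃]
        field_simp
        rw [hHdef]; ring
      · rw [r2, D_self₃]
        field_simp
        ring
    rcases h.nc hu ht.t2 r0 r3 with ⟨e, -⟩ | ⟨e, -⟩
    · exact h.irr (e ▸ ht.t1)
    · exact h.irr (e ▸ ht.t3)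

/-- no edge in the interior of a triangle -/
theorem TT.inner (h : Tri p T) {v a b : Fin n} (ht : TT p T v a b) {e f : Fin n} (hef : T e f)
    {q : Pt} (hq : q ∈ openSegment ℝ (p e) (p f)) (h1 : 0 < D (p v) q (p b))
    (h2 : 0 < D (p v) (p a) q) (h3 : D (p v) q (p b) + D (p v) (p a) q < D (p v) (p a) (p b)) :
    False := by
  have hδ := ht.pos
  have main : ∀ e f : Fin n, T e f → q ∈ openSegment ℝ (p e) (p f) →
      D (p v) (p e) (p b) + D (p v) (p a) (p e) < D (p v) (p a) (p b) → False := by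
    intro e f hef hq hlt
    have hev : e = v := by
      refine exitX h ht.t1 (h.symm ht.t3) hδ hef hq h1 h2 h3.le hlt ?_
      rintro ⟨k1, k2⟩
      refine ht.emp e ?_ ?_ ?_ k2.le ?_ ?_
      · rintro rfl
        rw [D_self₁] at k1
        exact lt_irrefl _ k1
      · rintro rfl
        rw [D_self₃] at k2
        exact lt_irrefl _ k2
      · rintro rfl
        rw [D_self₃] at k1
        exact lt_irrefl _ k1
      · have e2 : D (p a) (p b) (p e) =
            D (p v) (p a) (p b) - D (p v) (p e) (p b) - D (p v) (p a) (p e) := by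
          simp only [D]; ring
        rw [e2]; linarith
      · rw [← D_rot (p b) (p v) (p e)]; exact k1.le
    subst hev
    exact ht.corner h hef (sector_end hq h1 h2)
  by_cases he : D (p v) (p e) (p b) + D (p v) (p a) (p e) < D (p v) (p a) (p b)
  · exact main e f hef hq he
  by_cases hf : D (p v) (p f) (p b) + D (p v) (p a) (p f) < D (p v) (p a) (p b)
  · exact main f e (h.symm hef) (os_symm hq) hf
  push_neg at he hf
  obtain ⟨u, u0, u1, k1, k2⟩ := mem_os.1 hq
  have l1 := D_aff (v := p v) (a := p a) k1 k2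
  have l2 := D_aff' (v := p v) (b := p b) k1 k2
  rw [l1, l2] at h3
  nlinarith

theorem apex (h : Tri p T) {c d : Fin n} (hcd : T c d) (hu : ∃ u, 0 < D (p c) (p d) (p u)) :
    ∃ a, TT p T c d a := by
  classical
  obtain ⟨u, hu⟩ := hu
  have elf : ∀ x : Pt, D (p c) (p d) x = lf (-((p d).2 - (p c).2)) ((p d).1 - (p c).1) (p c) x := by
    intro x; simp only [D, lf]; ring
  obtain ⟨w, hw, hw'⟩ := exists_nbr h c (α := -((p d).2 - (p c).2)) (β := (p d).1 - (p c).1)
    (u0 := u) (by rw [← elf]; exact hu)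
  rw [← elf] at hw'
  obtain ⟨a, ha, hmax⟩ := Finset.exists_max_image
    (Finset.univ.filter fun w : Fin n => T c w ∧ 0 < D (p c) (p d) (p w))
    (fun w => (((p d).1 - (p c).1) * ((p w).1 - (p c).1) +
      ((p d).2 - (p c).2) * ((p w).2 - (p c).2)) / D (p c) (p d) (p w)) ⟨w, by simp [hw, hw']⟩
  simp only [Finset.mem_filter, Finset.mem_univ, true_and] at ha
  obtain ⟨ha1, ha2⟩ := ha
  refine ⟨a, gap_TT h hcd ha1 ha2 ?_⟩
  rintro u hu ⟨k1, k2⟩
  have := hmax u (by simp only [Finset.mem_filter, Finset.mem_univ, true_and]; exact ⟨hu, k2⟩)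
  rw [div_le_div_iff₀ k2 ha2] at this
  have hsq : 0 < ((p d).1 - (p c).1) ^ 2 + ((p d).2 - (p c).2) ^ 2 := by
    rcases eq_or_ne ((p d).1 - (p c).1) 0 with e | e
    · rcases eq_or_ne ((p d).2 - (p c).2) 0 with e' | e'
      · simp only [D, e, e'] at ha2
        simp at ha2
      · positivity
    · positivity
  have key : (((p d).1 - (p c).1) ^ 2 + ((p d).2 - (p c).2) ^ 2) * D (p c) (p u) (p a) =
      (((p d).1 - (p c).1) * ((p u).1 - (p c).1) +
        ((p d).2 - (p c).2) * ((p u).2 - (p c).2)) * D (p c) (p d) (p a) -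
      (((p d).1 - (p c).1) * ((p a).1 - (p c).1) +
        ((p d).2 - (p c).2) * ((p a).2 - (p c).2)) * D (p c) (p d) (p u) := by
    simp only [D]; ring
  have : 0 < (((p d).1 - (p c).1) ^ 2 + ((p d).2 - (p c).2) ^ 2) * D (p c) (p u) (p a) :=
    mul_pos hsq k1
  linarith

/-- the edge `w d` is alone in an open half-plane at `w` -/
def Blk (p : Fin n → Pt) (T : Fin n → Fin n → Prop) (w d : Fin n) : Prop :=
  ∃ α β : ℝ, 0 < lf α β (p w) (p d) ∧ ∀ u, T w u → u ≠ d → lf α β (p w) (p u) ≤ 0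

theorem blk_fun (h : Tri p T) {c d a b : Fin n} (ht : TT p T c d a) (ht' : TT p T d c b)
    (hle : D (p c) (p b) (p a) ≤ 0) : ∀ u, T c u → u ≠ d → D (p c) (p b) (p u) ≤ 0 := by
  have elf : ∀ x : Pt, D (p c) (p b) x = lf (-((p b).2 - (p c).2)) ((p b).1 - (p c).1) (p c) x := by
    intro x; simp only [D, lf]; ring
  have hbd : 0 < D (p c) (p b) (p d) := by
    have := ht'.pos
    rwa [← D_rot (p d) (p c) (p b)] at this
  intro u hu hud
  by_contra hcon
  push_neg at hcon
  have hda := ht.pos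
  rcases lt_trichotomy (D (p c) (p d) (p u)) 0 with h0 | h0 | h0
  · refine ht'.rot.corner h hu ⟨?_, hcon⟩
    rw [D_swap]; linarith
  · have hd0 : lf (-((p b).2 - (p c).2)) ((p b).1 - (p c).1) (p c) (p d) ≠ 0 := by
      rw [← elf]; exact hbd.ne'
    rcases lt_trichotomy (D (p c) (p b) (p u)) (D (p c) (p b) (p d)) with k | k | k
    · rw [elf, elf] at k
      rw [elf] at hcon
      exact h.clear (ht.t1) (os_of_line h0 hcon k)
    · refine hud (h.inj (eq_of_line hd0 h0 (D_self₃ _ _) ?_))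
      rw [← elf, ← elf]; exact k
    · rw [elf, elf] at k
      rw [elf] at hbd
      refine h.clear (c := d) hu (os_of_line ?_ hbd k)
      rw [D_swap, h0, neg_zero]
  · have h1 : ¬ (0 < D (p c) (p u) (p a)) := fun k => ht.corner h hu ⟨k, h0⟩
    push_neg at h1
    have pl : D (p c) (p b) (p u) * D (p c) (p d) (p a) =
        D (p c) (p b) (p d) * D (p c) (p u) (p a) + D (p c) (p b) (p a) * D (p c) (p d) (p u) := by
      simp only [D]; ring
    nlinarith [mul_pos hcon hda]

theorem blk_of (h : Tri p T) {c d a b : Fin n} (ht : TT p T c d a) (ht' : TT p T d c b)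
    (hle : D (p c) (p b) (p a) ≤ 0) : Blk p T c d := by
  have elf : ∀ x : Pt, D (p c) (p b) x = lf (-((p b).2 - (p c).2)) ((p b).1 - (p c).1) (p c) x := by
    intro x; simp only [D, lf]; ring
  have hbd : 0 < D (p c) (p b) (p d) := by
    have := ht'.pos
    rwa [← D_rot (p d) (p c) (p b)] at this
  refine ⟨-((p b).2 - (p c).2), (p b).1 - (p c).1, by rw [← elf]; exact hbd, ?_⟩
  intro u hu hud
  rw [← elf]
  exact blk_fun h ht ht' hle u hu hud

/-- the edge `c d` lies between two triangles whose angles at `c` sum up to at least `π` -/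
def Blk' (p : Fin n → Pt) (T : Fin n → Fin n → Prop) (c d : Fin n) : Prop :=
  ∃ a b, TT p T c d a ∧ TT p T d c b ∧ D (p c) (p b) (p a) ≤ 0

theorem Blk'.blk (h : Tri p T) {c d : Fin n} (hb : Blk' p T c d) : Blk p T c d := by
  obtain ⟨a, b, h1, h2, h3⟩ := hb
  exact blk_of h h1 h2 h3

theorem flip_or (h : Tri p T) {c d : Fin n} (hcd : T c d) (hl : ∃ u, 0 < D (p c) (p d) (p u))
    (hr : ∃ u, D (p c) (p d) (p u) < 0) : Blk' p T c d ∨ Blk' p T d c ∨
    ∃ a b, a ≠ b ∧ ¬ T a b ∧ (∀ e, p e ∉ openSegment ℝ (p a) (p b)) ∧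
      (∃ x, x ∈ openSegment ℝ (p a) (p b) ∧ x ∈ openSegment ℝ (p c) (p d)) ∧
      (∀ e f x, T e f → x ∈ openSegment ℝ (p a) (p b) → x ∈ openSegment ℝ (p e) (p f) →
        (e = c ∧ f = d) ∨ (e = d ∧ f = c)) := by
  obtain ⟨a, ha⟩ := apex h hcd hl
  obtain ⟨b, hb⟩ := apex h (h.symm hcd) (by
    obtain ⟨u, hu⟩ := hr
    exact ⟨u, by rw [D_swap']; linarith⟩)
  by_cases k1 : D (p c) (p b) (p a) ≤ 0
  · exact Or.inl ⟨a, b, ha, hb, k1⟩
  by_cases k2 : D (p d) (p a) (p b) ≤ 0
  · exact Or.inr (Or.inl ⟨b, a, hb, ha, k2⟩)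
  push_neg at k1 k2
  refine Or.inr (Or.inr ?_)
  have hδ := ha.pos
  have hδ' := hb.pos
  have area : D (p c) (p d) (p a) + D (p d) (p c) (p b) =
      D (p c) (p b) (p a) + D (p d) (p a) (p b) := by simp only [D]; ring
  have hcdb : D (p c) (p d) (p b) = - D (p d) (p c) (p b) := by rw [D_swap']
  have hdca : D (p d) (p c) (p a) = - D (p c) (p d) (p a) := by rw [D_swap']
  set s := D (p c) (p d) (p a) / (D (p c) (p d) (p a) + D (p d) (p c) (p b)) with hs
  set t := D (p c) (p b) (p a) / (D (p c) (p d) (p a) + D (p d) (p c) (p b)) with ht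
  have hsum : 0 < D (p c) (p d) (p a) + D (p d) (p c) (p b) := by linarith
  have s0 : 0 < s := div_pos hδ hsum
  have s1 : s < 1 := (div_lt_one hsum).2 (by linarith)
  have t0 : 0 < t := div_pos k1 hsum
  have t1 : t < 1 := (div_lt_one hsum).2 (by linarith)
  set r : Pt := ((p a).1 + s * ((p b).1 - (p a).1), (p a).2 + s * ((p b).2 - (p a).2)) with hrdef
  have rab : r ∈ openSegment ℝ (p a) (p b) := mem_os.2 ⟨s, s0, s1, rfl, rfl⟩
  have rcd : r ∈ openSegment ℝ (p c) (p d) := by
    refine os_of_coords (v := p c) (a := p d) (b := p a) hδ.ne' t0 t1 ?_ ?_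
    · rw [D_aff' (v := p c) (b := p a) (s := p a) (u := p b) (z := r) rfl rfl, D_self₁, D_self₃,
        hs, ht]
      field_simp
      ring
    · rw [D_aff (v := p c) (a := p d) (s := p a) (u := p b) (z := r) rfl rfl, D_self₂, D_self₃,
        hcdb, hs]
      field_simp
      ring
  have two : ∀ x, x ∈ openSegment ℝ (p a) (p b) → x = r ∨
      (0 < D (p c) x (p a) ∧ 0 < D (p c) (p d) x ∧
        D (p c) x (p a) + D (p c) (p d) x < D (p c) (p d) (p a)) ∨
      (0 < D (p d) x (p b) ∧ 0 < D (p d) (p c) x ∧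
        D (p d) x (p b) + D (p d) (p c) x < D (p d) (p c) (p b)) := by
    intro x hx
    obtain ⟨σ, σ0, σ1, f1, f2⟩ := mem_os.1 hx
    have a1 := D_aff' (v := p c) (b := p a) f1 f2
    have a2 := D_aff (v := p c) (a := p d) f1 f2
    have b1 := D_aff' (v := p d) (b := p b) f1 f2
    have b2 := D_aff (v := p d) (a := p c) f1 f2
    rw [D_self₃] at a1 b1
    rw [hcdb] at a2
    rw [hdca] at b2
    rcases lt_trichotomy σ s with hσ | hσ | hσ
    · right; left
      rw [hs, lt_div_iff₀ hsum] at hσ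
      refine ⟨by rw [a1]; nlinarith, by rw [a2]; linarith, ?_⟩
      rw [a1, a2]
      nlinarith
    · left
      rw [hrdef, ← hσ]
      exact Prod.ext f1 f2
    · right; right
      rw [hs, div_lt_iff₀ hsum] at hσ
      refine ⟨by rw [b1]; nlinarith, by rw [b2]; linarith, ?_⟩
      rw [b1, b2]
      nlinarith
  have only : ∀ e f x, T e f → x ∈ openSegment ℝ (p a) (p b) → x ∈ openSegment ℝ (p e) (p f) →
      (e = c ∧ f = d) ∨ (e = d ∧ f = c) := by
    intro e f x hef hx hx'
    rcases two x hx with rfl | ⟨m1, m2, m3⟩ | ⟨m1, m2, m3⟩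
    · exact h.nc hef hcd hx' rcd
    · exact (ha.inner h hef hx' m1 m2 m3).elim
    · exact (hb.inner h hef hx' m1 m2 m3).elim
  have hnT : ¬ T a b := by
    intro hT
    rcases only a b r hT rab rab with ⟨e, -⟩ | ⟨e, -⟩
    · rw [e, D_self₂] at hδ
      exact lt_irrefl _ hδ
    · rw [e, D_self₃] at hδ
      exact lt_irrefl _ hδ
  refine ⟨a, b, ?_, hnT, ?_, ⟨r, rab, rcd⟩, only⟩
  · rintro rfl
    rw [D_self₃] at k1
    exact lt_irrefl _ k1
  · intro e he
    have inn : ∀ {v a b : Fin n}, TT p T v a b → 0 < D (p v) (p e) (p b) →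
        0 < D (p v) (p a) (p e) → D (p v) (p e) (p b) + D (p v) (p a) (p e) <
          D (p v) (p a) (p b) → False := by
      intro v a b hh m1 m2 m3
      refine hh.emp e ?_ ?_ ?_ m2.le ?_ ?_
      · rintro rfl
        rw [D_self₁] at m1
        exact lt_irrefl _ m1
      · rintro rfl
        rw [D_self₃] at m2
        exact lt_irrefl _ m2
      · rintro rfl
        rw [D_self₃] at m1
        exact lt_irrefl _ m1
      · have e2 : D (p a) (p b) (p e) =
            D (p v) (p a) (p b) - D (p v) (p e) (p b) - D (p v) (p a) (p e) := by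
          simp only [D]; ring
        rw [e2]; linarith
      · rw [← D_rot (p b) (p v) (p e)]; exact m1.le
    rcases two _ he with hr' | ⟨m1, m2, m3⟩ | ⟨m1, m2, m3⟩
    · exact h.clear (c := e) hcd (hr' ▸ rcd)
    · exact inn ha m1 m2 m3
    · exact inn hb m1 m2 m3

end Pool.Agent.KS6_78.DG
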