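import Pool.Agent.KS6_78.DG.D

set_option autoImplicit false

namespace Pool.Agent.KS6_78.DG

open Set

variable {n : ℕ} {p : Fin n → Pt} {T : Fin n → Fin n → Prop}

/-- no point lies above -/
def UH (p : Fin n → Pt) (v : Fin n) : Prop :=
  ∀ c d, (p c).1 < (p v).1 → (p v).1 < (p d).1 → 0 ≤ D (p v) (p c) (p d)

/-- no point lies below -/
def LH (p : Fin n → Pt) (v : Fin n) : Prop :=
  ∀ c d, (p c).1 < (p v).1 → (p v).1 < (p d).1 → D (p v) (p c) (p d) ≤ 0

theorem xid (v a b u : Pt) : (a.1 - v.1) * D v b u =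
    (b.1 - v.1) * D v a u + (u.1 - v.1) * D v b a := by
  simp only [D]; ring

theorem lf_x (v x : Pt) : lf 1 0 v x = x.1 - v.1 := by simp [lf]
theorem lf_x' (v x : Pt) : lf (-1) 0 v x = v.1 - x.1 := by simp [lf]

theorem lf_D (v b x : Pt) : lf (-(b.2 - v.2)) (b.1 - v.1) v x = D v b x := by
  simp only [lf, D]; ring

theorem lf_D' (v b x : Pt) : lf (b.2 - v.2) (-(b.1 - v.1)) v x = - D v b x := by
  simp only [lf, D]; ring

theorem left_nbr (h : Tri p T) {v : Fin n} (hL : ∃ c, (p c).1 < (p v).1) :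
    ∃ a, T v a ∧ (p a).1 < (p v).1 := by
  obtain ⟨c, hc⟩ := hL
  obtain ⟨w, hw, hw'⟩ := exists_nbr h v (α := -1) (β := 0) (u0 := c) (by rw [lf_x']; linarith)
  rw [lf_x'] at hw'
  exact ⟨w, hw, by linarith⟩

theorem right_nbr (h : Tri p T) {v : Fin n} (hL : ∃ c, (p v).1 < (p c).1) :
    ∃ a, T v a ∧ (p v).1 < (p a).1 := by
  obtain ⟨c, hc⟩ := hL
  obtain ⟨w, hw, hw'⟩ := exists_nbr h v (α := 1) (β := 0) (u0 := c) (by rw [lf_x]; linarith)
  rw [lf_x] at hw'
  exact ⟨w, hw, by linarith⟩

/-- extremal slopes: for a nonempty set of points on one side -/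
theorem slope_cmp {v a c : Pt} (h : 0 < (a.1 - v.1) * (c.1 - v.1))
    (hs : (a.2 - v.2) / (a.1 - v.1) ≤ (c.2 - v.2) / (c.1 - v.1)) : 0 ≤ D v a c := by
  have ha : a.1 - v.1 ≠ 0 := by rintro e; rw [e] at h; simp at h
  have hc : c.1 - v.1 ≠ 0 := by rintro e; rw [e] at h; simp at h
  have : D v a c = (a.1 - v.1) * (c.1 - v.1) *
      ((c.2 - v.2) / (c.1 - v.1) - (a.2 - v.2) / (a.1 - v.1)) := by
    simp only [D]; field_simp
  rw [this]
  exact mul_nonneg h.le (by linarith)

theorem top_left (h : Tri p T) {v : Fin n} (hL : ∃ c, (p c).1 < (p v).1) :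
    ∃ a, T v a ∧ (p a).1 < (p v).1 ∧ ∀ c, T v c → (p c).1 < (p v).1 → 0 ≤ D (p v) (p a) (p c) := by
  classical
  obtain ⟨a0, h1, h2⟩ := left_nbr h hL
  obtain ⟨a, ha, hmin⟩ := Finset.exists_min_image
    (Finset.univ.filter fun c : Fin n => T v c ∧ (p c).1 < (p v).1)
    (fun c => ((p c).2 - (p v).2) / ((p c).1 - (p v).1)) ⟨a0, by simp [h1, h2]⟩
  simp only [Finset.mem_filter, Finset.mem_univ, true_and] at ha
  refine ⟨a, ha.1, ha.2, fun c hc hc' => slope_cmp ?_ (hmin c (by simp [hc, hc']))⟩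
  nlinarith [ha.2]

theorem bot_left (h : Tri p T) {v : Fin n} (hL : ∃ c, (p c).1 < (p v).1) :
    ∃ a, T v a ∧ (p a).1 < (p v).1 ∧ ∀ c, T v c → (p c).1 < (p v).1 → 0 ≤ D (p v) (p c) (p a) := by
  classical
  obtain ⟨a0, h1, h2⟩ := left_nbr h hL
  obtain ⟨a, ha, hmax⟩ := Finset.exists_max_image
    (Finset.univ.filter fun c : Fin n => T v c ∧ (p c).1 < (p v).1)
    (fun c => ((p c).2 - (p v).2) / ((p c).1 - (p v).1)) ⟨a0, by simp [h1, h2]⟩
  simp only [Finset.mem_filter, Finset.mem_univ, true_and] at ha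
  refine ⟨a, ha.1, ha.2, fun c hc hc' => slope_cmp ?_ (hmax c (by simp [hc, hc']))⟩
  nlinarith [ha.2]

theorem top_right (h : Tri p T) {v : Fin n} (hR : ∃ c, (p v).1 < (p c).1) :
    ∃ a, T v a ∧ (p v).1 < (p a).1 ∧ ∀ c, T v c → (p v).1 < (p c).1 → 0 ≤ D (p v) (p c) (p a) := by
  classical
  obtain ⟨a0, h1, h2⟩ := right_nbr h hR
  obtain ⟨a, ha, hmax⟩ := Finset.exists_max_image
    (Finset.univ.filter fun c : Fin n => T v c ∧ (p v).1 < (p c).1)
    (fun c => ((p c).2 - (p v).2) / ((p c).1 - (p v).1)) ⟨a0, by simp [h1, h2]⟩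
  simp only [Finset.mem_filter, Finset.mem_univ, true_and] at ha
  refine ⟨a, ha.1, ha.2, fun c hc hc' => slope_cmp ?_ (hmax c (by simp [hc, hc']))⟩
  nlinarith [ha.2]

theorem bot_right (h : Tri p T) {v : Fin n} (hR : ∃ c, (p v).1 < (p c).1) :
    ∃ a, T v a ∧ (p v).1 < (p a).1 ∧ ∀ c, T v c → (p v).1 < (p c).1 → 0 ≤ D (p v) (p a) (p c) := by
  classical
  obtain ⟨a0, h1, h2⟩ := right_nbr h hR
  obtain ⟨a, ha, hmin⟩ := Finset.exists_min_image
    (Finset.univ.filter fun c : Fin n => T v c ∧ (p v).1 < (p c).1)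
    (fun c => ((p c).2 - (p v).2) / ((p c).1 - (p v).1)) ⟨a0, by simp [h1, h2]⟩
  simp only [Finset.mem_filter, Finset.mem_univ, true_and] at ha
  refine ⟨a, ha.1, ha.2, fun c hc hc' => slope_cmp ?_ (hmin c (by simp [hc, hc']))⟩
  nlinarith [ha.2]

theorem top_TT (h : Tri p T) (hX : Function.Injective fun i => (p i).1) {v : Fin n}
    (hL : ∃ c, (p c).1 < (p v).1) (hR : ∃ c, (p v).1 < (p c).1) (hU : ¬ UH p v) :
    ∃ a b, (p a).1 < (p v).1 ∧ (p v).1 < (p b).1 ∧ TT p T v b a := by
  obtain ⟨a, a1, a2, a3⟩ := top_left h hL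
  obtain ⟨b, b1, b2, b3⟩ := top_right h hR
  have side : ∀ u, T v u → (p u).1 < (p v).1 ∨ (p v).1 < (p u).1 := by
    intro u hu
    rcases lt_trichotomy (p u).1 (p v).1 with k | k | k
    · exact Or.inl k
    · exact absurd (hX k) (fun e => h.irr (e ▸ hu))
    · exact Or.inr k
  have hpos : 0 < D (p v) (p b) (p a) := by
    by_contra hneg
    push_neg at hneg
    have hall : ∀ u, T v u → D (p v) (p b) (p u) ≤ 0 := by
      intro u hu
      rcases side u hu with k | k
      · have := xid (p v) (p a) (p b) (p u)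
        have h1 := a3 u hu k
        have : 0 ≤ ((p a).1 - (p v).1) * D (p v) (p b) (p u) := by
          rw [this]; nlinarith
        nlinarith
      · have := b3 u hu k
        rw [D_swap] at this
        linarith
    have hall' : ∀ u, D (p v) (p b) (p u) ≤ 0 := by
      intro u
      by_contra hc
      push_neg at hc
      obtain ⟨w, hw, hw'⟩ := exists_nbr h v (α := -((p b).2 - (p v).2)) (β := (p b).1 - (p v).1)
        (u0 := u) (by rw [lf_D]; exact hc)
      rw [lf_D] at hw'
      linarith [hall w hw]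
    refine hU fun c d hc hd => ?_
    have := xid (p v) (p b) (p c) (p d)
    have e1 := hall' c
    have e2 := hall' d
    have e3 : D (p v) (p c) (p b) = - D (p v) (p b) (p c) := D_swap _ _ _
    have : 0 ≤ ((p b).1 - (p v).1) * D (p v) (p c) (p d) := by
      rw [this, e3]; nlinarith
    nlinarith
  refine ⟨a, b, a2, b2, gap_TT h b1 a1 hpos ?_⟩
  rintro c hc ⟨k1, k2⟩
  rcases side c hc with k | k
  · have := a3 c hc k
    rw [D_swap] at this
    linarith
  · have := b3 c hc k
    rw [D_swap] at this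
    linarith

theorem bot_TT (h : Tri p T) (hX : Function.Injective fun i => (p i).1) {v : Fin n}
    (hL : ∃ c, (p c).1 < (p v).1) (hR : ∃ c, (p v).1 < (p c).1) (hU : ¬ LH p v) :
    ∃ a b, (p a).1 < (p v).1 ∧ (p v).1 < (p b).1 ∧ TT p T v a b := by
  obtain ⟨a, a1, a2, a3⟩ := bot_left h hL
  obtain ⟨b, b1, b2, b3⟩ := bot_right h hR
  have side : ∀ u, T v u → (p u).1 < (p v).1 ∨ (p v).1 < (p u).1 := by
    intro u hu
    rcases lt_trichotomy (p u).1 (p v).1 with k | k | k
    · exact Or.inl k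
    · exact absurd (hX k) (fun e => h.irr (e ▸ hu))
    · exact Or.inr k
  have hpos : 0 < D (p v) (p a) (p b) := by
    by_contra hneg
    push_neg at hneg
    have hba : D (p v) (p b) (p a) = - D (p v) (p a) (p b) := D_swap _ _ _
    have hall : ∀ u, T v u → 0 ≤ D (p v) (p b) (p u) := by
      intro u hu
      rcases side u hu with k | k
      · have := xid (p v) (p a) (p b) (p u)
        have h1 := a3 u hu k
        rw [D_swap] at h1
        have : ((p a).1 - (p v).1) * D (p v) (p b) (p u) ≤ 0 := by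
          rw [this, hba]; nlinarith
        nlinarith
      · exact b3 u hu k
    have hall' : ∀ u, 0 ≤ D (p v) (p b) (p u) := by
      intro u
      by_contra hc
      push_neg at hc
      obtain ⟨w, hw, hw'⟩ := exists_nbr h v (α := ((p b).2 - (p v).2)) (β := -((p b).1 - (p v).1))
        (u0 := u) (by rw [lf_D']; linarith)
      rw [lf_D'] at hw'
      linarith [hall w hw]
    refine hU fun c d hc hd => ?_
    have := xid (p v) (p b) (p c) (p d)
    have e1 := hall' c
    have e2 := hall' d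
    have e3 : D (p v) (p c) (p b) = - D (p v) (p b) (p c) := D_swap _ _ _
    have : ((p b).1 - (p v).1) * D (p v) (p c) (p d) ≤ 0 := by
      rw [this, e3]; nlinarith
    nlinarith
  refine ⟨a, b, a2, b2, gap_TT h a1 b1 hpos ?_⟩
  rintro c hc ⟨k1, k2⟩
  rcases side c hc with k | k
  · have := a3 c hc k
    rw [D_swap] at this
    linarith
  · have := b3 c hc k
    rw [D_swap] at this
    linarith

/-- neighbours in the same direction are equal -/
theorem same_dir (h : Tri p T) {b v w : Fin n} {α β : ℝ} (hv : T b v) (hw : T b w)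
    (h0 : D (p b) (p v) (p w) = 0) (h1 : 0 < lf α β (p b) (p v)) (h2 : 0 < lf α β (p b) (p w)) :
    v = w := by
  rcases lt_trichotomy (lf α β (p b) (p v)) (lf α β (p b) (p w)) with k | k | k
  · exact absurd (os_of_line (by rw [D_swap, h0, neg_zero]) h1 k) (h.clear hw)
  · exact h.inj (eq_of_line h1.ne' (D_self₃ _ _) h0 k)
  · exact absurd (os_of_line h0 h2 k) (h.clear hv)

/-- `v` is the left neighbour of `b` next below `a` -/
def Next (p : Fin n → Pt) (T : Fin n → Fin n → Prop) (b a v : Fin n) : Prop :=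
  T b v ∧ (p v).1 < (p b).1 ∧ 0 < D (p b) (p a) (p v) ∧
    ∀ c, T b c → (p c).1 < (p b).1 → 0 < D (p b) (p a) (p c) → 0 ≤ D (p b) (p v) (p c)

theorem Next.uniq (h : Tri p T) {b a v w : Fin n} (h1 : Next p T b a v) (h2 : Next p T b a w) :
    v = w := by
  obtain ⟨a1, a2, a3, a4⟩ := h1
  obtain ⟨b1, b2, b3, b4⟩ := h2
  have k1 := a4 w b1 b2 b3
  have k2 := b4 v a1 a2 a3
  rw [D_swap] at k2
  exact same_dir h (α := -1) (β := 0) a1 b1 (by linarith) (by rw [lf_x']; linarith)
    (by rw [lf_x']; linarith)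

theorem TT.next (h : Tri p T) {b a v : Fin n} (ht : TT p T b a v) (hx : (p v).1 < (p b).1) :
    Next p T b a v := by
  refine ⟨h.symm ht.t3, hx, ht.pos, fun c hc hcx hc' => ?_⟩
  by_contra hneg
  push_neg at hneg
  refine ht.corner h hc ⟨?_, hc'⟩
  rw [D_swap]; linarith

open Classical in
/-- the edges, directed from left to right -/
noncomputable def Ed (p : Fin n → Pt) (T : Fin n → Fin n → Prop) : Finset (Fin n × Fin n) :=
  Finset.univ.filter fun q => T q.1 q.2 ∧ (p q.1).1 < (p q.2).1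

open Classical in
/-- the points between the leftmost and the rightmost one -/
noncomputable def Mid (p : Fin n → Pt) : Finset (Fin n) :=
  Finset.univ.filter fun v => (∃ c, (p c).1 < (p v).1) ∧ ∃ c, (p v).1 < (p c).1

open Classical in
noncomputable def UHs (p : Fin n → Pt) : Finset (Fin n) := (Mid p).filter fun v => UH p v

open Classical in
noncomputable def LHs (p : Fin n → Pt) : Finset (Fin n) := (Mid p).filter fun v => LH p v

theorem card_mid (hX : Function.Injective fun i => (p i).1) (hn : 2 ≤ n) :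
    (Mid p).card + 2 = n := by
  classical
  have : Nonempty (Fin n) := ⟨⟨0, by omega⟩⟩
  obtain ⟨l, hl⟩ := Finite.exists_min fun i => (p i).1
  obtain ⟨r, hr⟩ := Finite.exists_max fun i => (p i).1
  have hlr : l ≠ r := by
    intro e
    have h01 : (⟨0, by omega⟩ : Fin n) = ⟨1, by omega⟩ := by
      apply hX
      have h0 := hl ⟨0, by omega⟩
      have h0' := hr ⟨0, by omega⟩
      have h1 := hl ⟨1, by omega⟩
      have h1' := hr ⟨1, by omega⟩
      rw [← e] at h0' h1'
      simp only
      linarith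
    simp at h01
  have : Mid p = Finset.univ \ {l, r} := by
    ext v
    simp only [Mid, Finset.mem_filter, Finset.mem_univ, true_and, Finset.mem_sdiff,
      Finset.mem_insert, Finset.mem_singleton, not_or]
    constructor
    · rintro ⟨⟨c, hc⟩, d, hd⟩
      constructor
      · rintro rfl
        linarith [hl c]
      · rintro rfl
        linarith [hr d]
    · rintro ⟨h1, h2⟩
      exact ⟨⟨l, lt_of_le_of_ne (hl v) (fun e => h1 (hX e).symm)⟩,
        ⟨r, lt_of_le_of_ne (hr v) (fun e => h2 (hX e))⟩⟩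
  rw [this, Finset.card_sdiff_of_subset (Finset.subset_univ _), Finset.card_pair hlr,
    Finset.card_univ, Fintype.card_fin]
  omega

theorem card_Ed (h : Tri p T) (hX : Function.Injective fun i => (p i).1) (hn : 2 ≤ n) :
    3 * n ≤ (Ed p T).card + 5 + (UHs p).card + (LHs p).card := by
  classical
  set C : Finset (Fin n × Fin n) := (Ed p T).filter fun q =>
    ∃ c, T q.2 c ∧ (p c).1 < (p q.2).1 ∧ 0 < D (p q.2) (p q.1) (p c) with hC
  -- (1) the lowest left edges
  have h1 : n ≤ ((Ed p T) \ C).card + 1 := by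
    have : Nonempty (Fin n) := ⟨⟨0, by omega⟩⟩
    obtain ⟨l, hl⟩ := Finite.exists_min fun i => (p i).1
    have hex : ∀ b : Fin n, b ≠ l → ∃ a, (a, b) ∈ (Ed p T) \ C := by
      intro b hb
      have hL : ∃ c, (p c).1 < (p b).1 := ⟨l, lt_of_le_of_ne (hl b) fun e => hb (hX e).symm⟩
      obtain ⟨a, a1, a2, a3⟩ := bot_left h hL
      refine ⟨a, Finset.mem_sdiff.2 ⟨?_, ?_⟩⟩
      · simp only [Ed, Finset.mem_filter, Finset.mem_univ, true_and]
        exact ⟨h.symm a1, a2⟩
      · simp only [hC, Finset.mem_filter, not_and, not_exists]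
        intro _ c hc hc' hc''
        have := a3 c hc hc'
        rw [D_swap] at this
        linarith
    choose! f hf using hex
    have : (Finset.univ.erase l).card ≤ ((Ed p T) \ C).card := by
      refine Finset.card_le_card_of_injOn (fun b => (f b, b)) ?_ ?_
      · intro b hb
        exact hf b (by simpa using hb)
      · intro b _ b' _ e
        exact (Prod.ext_iff.1 e).2
    rw [Finset.card_erase_of_mem (Finset.mem_univ _), Finset.card_univ, Fintype.card_fin] at this
    omega
  -- (2) the corners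
  have htop : ∀ v : Fin n, v ∈ Mid p \ UHs p →
      ∃ q : Fin n × Fin n, q ∈ C ∧ Next p T q.2 q.1 v ∧ (p q.1).1 < (p v).1 := by
    intro v hv
    simp only [UHs, Finset.mem_sdiff, Finset.mem_filter, not_and] at hv
    obtain ⟨hv1, hv2⟩ := hv
    have hv1' := hv1
    simp only [Mid, Finset.mem_filter, Finset.mem_univ, true_and] at hv1'
    obtain ⟨a, b, ha, hb, ht⟩ := top_TT h hX hv1'.1 hv1'.2 (hv2 hv1)
    have hN := ht.rot.next h hb
    refine ⟨(a, b), ?_, hN, ha⟩
    simp only [hC, Ed, Finset.mem_filter, Finset.mem_univ, true_and]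
    exact ⟨⟨h.symm ht.t2, by linarith⟩, v, hN.1, hN.2.1, hN.2.2.1⟩
  have hbot : ∀ v : Fin n, v ∈ Mid p \ LHs p →
      ∃ q : Fin n × Fin n, q ∈ C ∧ q.1 = v ∧ ∃ a, Next p T q.2 v a ∧ (p a).1 < (p v).1 := by
    intro v hv
    simp only [LHs, Finset.mem_sdiff, Finset.mem_filter, not_and] at hv
    obtain ⟨hv1, hv2⟩ := hv
    have hv1' := hv1
    simp only [Mid, Finset.mem_filter, Finset.mem_univ, true_and] at hv1'
    obtain ⟨a, b, ha, hb, ht⟩ := bot_TT h hX hv1'.1 hv1'.2 (hv2 hv1)
    have hN := ht.rot.rot.next h (show (p a).1 < (p b).1 by linarith)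
    refine ⟨(v, b), ?_, rfl, a, hN, ha⟩
    simp only [hC, Ed, Finset.mem_filter, Finset.mem_univ, true_and]
    exact ⟨⟨h.symm ht.t3, hb⟩, a, hN.1, hN.2.1, hN.2.2.1⟩
  choose! f hf1 hf2 hf3 using htop
  choose! g hg1 hg2 hg3 using hbot
  have h2 : (Mid p \ UHs p).card + (Mid p \ LHs p).card ≤ C.card := by
    have e1 : ((Mid p \ UHs p).image f).card = (Mid p \ UHs p).card := by
      refine Finset.card_image_of_injOn ?_
      intro v hv w hw e
      have k1 := hf2 v hv
      have k2 := hf2 w hw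
      rw [e] at k1
      exact k1.uniq h k2
    have e2 : ((Mid p \ LHs p).image g).card = (Mid p \ LHs p).card := by
      refine Finset.card_image_of_injOn ?_
      intro v hv w hw e
      rw [← hg2 v hv, ← hg2 w hw, e]
    rw [← e1, ← e2, ← Finset.card_union_of_disjoint]
    · refine Finset.card_le_card ?_
      intro q hq
      rcases Finset.mem_union.1 hq with hq | hq
      · obtain ⟨v, hv, rfl⟩ := Finset.mem_image.1 hq
        exact hf1 v hv
      · obtain ⟨v, hv, rfl⟩ := Finset.mem_image.1 hq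
        exact hg1 v hv
    · rw [Finset.disjoint_left]
      intro q hq hq'
      obtain ⟨v, hv, rfl⟩ := Finset.mem_image.1 hq
      obtain ⟨w, hw, e⟩ := Finset.mem_image.1 hq'
      obtain ⟨a, ha, ha'⟩ := hg3 w hw
      have k1 := hf2 v hv
      have k3 := hf3 v hv
      rw [← e] at k1 k3
      rw [hg2 w hw] at k1 k3
      have := k1.uniq h ha
      rw [this] at k3
      linarith
  have h3 : C.card + ((Ed p T) \ C).card = (Ed p T).card := by
    rw [add_comm]
    exact Finset.card_sdiff_add_card_eq_card (Finset.filter_subset _ _)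
  have h4 := card_mid hX hn
  have h5 : (Mid p \ UHs p).card + (UHs p).card = (Mid p).card :=
    Finset.card_sdiff_add_card_eq_card (Finset.filter_subset _ _)
  have h6 : (Mid p \ LHs p).card + (LHs p).card = (Mid p).card :=
    Finset.card_sdiff_add_card_eq_card (Finset.filter_subset _ _)
  omega

end Pool.Agent.KS6_78.DG
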