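import Pool.Agent.KS6_78.DG.E

set_option autoImplicit false

namespace Pool.Agent.KS6_78.DG

open Set

variable {n : ℕ} {p : Fin n → Pt} {T : Fin n → Fin n → Prop}

/-- Cramer's rule for a functional -/
theorem lfid (α β : ℝ) (w a b x : Pt) : lf α β w x * D w a b =
    lf α β w a * D w x b + lf α β w b * D w a x := by
  simp only [lf, D]; ring

theorem core3 {w d1 d2 d3 e : Pt} {f1 f2 f3 : Pt → ℝ}
    (id1 : ∀ a b x, f1 x * D w a b = f1 a * D w x b + f1 b * D w a x)
    (id2 : ∀ a b x, f2 x * D w a b = f2 a * D w x b + f2 b * D w a x)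
    (id3 : ∀ a b x, f3 x * D w a b = f3 a * D w x b + f3 b * D w a x)
    (h11 : 0 < f1 d1) (h12 : f1 d2 ≤ 0) (h13 : f1 d3 ≤ 0) (h1e : f1 e ≤ 0)
    (h22 : 0 < f2 d2) (h21 : f2 d1 ≤ 0) (h23 : f2 d3 ≤ 0) (h2e : f2 e ≤ 0)
    (h33 : 0 < f3 d3) (h31 : f3 d1 ≤ 0) (h32 : f3 d2 ≤ 0) (h3e : f3 e ≤ 0)
    (o12 : 0 ≤ D w d1 d2) (o23 : 0 ≤ D w d2 d3) (o31 : 0 ≤ D w d3 d1) :
    D w d1 e = 0 ∨ D w d2 e = 0 ∨ D w d3 e = 0 := by
  have stepA : ∀ {a b : Pt} {g k : Pt → ℝ}
      (idg : ∀ a b x, g x * D w a b = g a * D w x b + g b * D w a x)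
      (idk : ∀ a b x, k x * D w a b = k a * D w x b + k b * D w a x),
      0 < g a → g b ≤ 0 → g e ≤ 0 → 0 < k b → k a ≤ 0 → k e ≤ 0 → 0 ≤ D w a b →
      (D w a e ≤ 0 → 0 ≤ D w b e) ∧ (0 ≤ D w b e → D w a e ≤ 0) := by
    intro a b g k idg idk ga gb ge kb ka ke o
    constructor
    · intro hx
      have := idg a b e
      rw [D_swap w b e] at this
      by_contra hc
      push_neg at hc
      nlinarith [mul_nonneg_of_nonpos_of_nonpos gb hx, mul_nonneg (neg_nonneg.2 ge) o, mul_pos ga (neg_pos.2 hc)]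
    · intro hx
      have := idk a b e
      rw [D_swap w b e] at this
      by_contra hc
      push_neg at hc
      nlinarith [mul_nonneg (neg_nonneg.2 ka) hx, mul_nonneg (neg_nonneg.2 ke) o, mul_pos kb hc]
  obtain ⟨a1, a2⟩ := stepA id1 id2 h11 h12 h1e h22 h21 h2e o12
  obtain ⟨b1, b2⟩ := stepA id2 id3 h22 h23 h2e h33 h32 h3e o23
  obtain ⟨c1, c2⟩ := stepA id3 id1 h33 h31 h3e h11 h13 h1e o31
  by_contra hcon
  push_neg at hcon
  obtain ⟨n1, n2, n3⟩ := hcon
  rcases lt_or_gt_of_ne n1 with k1 | k1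
  · have k2 : 0 ≤ D w d2 e := a1 k1.le
    have k2' : 0 < D w d2 e := lt_of_le_of_ne k2 (Ne.symm n2)
    have k3 : D w d3 e < 0 := by
      by_contra hc
      push_neg at hc
      linarith [b2 hc]
    linarith [c1 k3.le]
  · have k3 : D w d3 e ≤ 0 := c2 k1.le
    have k2 : D w d2 e < 0 := by
      by_contra hc
      push_neg at hc
      linarith [a2 hc]
    have k3' := b1 k2.le
    exact n3 (le_antisymm k3 k3')

theorem core3' {w d1 d2 d3 e : Pt} {f1 f2 f3 : Pt → ℝ}
    (id1 : ∀ a b x, f1 x * D w a b = f1 a * D w x b + f1 b * D w a x)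
    (id2 : ∀ a b x, f2 x * D w a b = f2 a * D w x b + f2 b * D w a x)
    (id3 : ∀ a b x, f3 x * D w a b = f3 a * D w x b + f3 b * D w a x)
    (h11 : 0 < f1 d1) (h12 : f1 d2 ≤ 0) (h13 : f1 d3 ≤ 0) (h1e : f1 e ≤ 0)
    (h22 : 0 < f2 d2) (h21 : f2 d1 ≤ 0) (h23 : f2 d3 ≤ 0) (h2e : f2 e ≤ 0)
    (h33 : 0 < f3 d3) (h31 : f3 d1 ≤ 0) (h32 : f3 d2 ≤ 0) (h3e : f3 e ≤ 0) :
    D w d1 e = 0 ∨ D w d2 e = 0 ∨ D w d3 e = 0 := by
  have e1 := id1 d2 d3 d1
  have e2 := id2 d1 d3 d2
  have e3 := id3 d1 d2 d3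
  have s1 : D w d2 d1 = - D w d1 d2 := D_swap _ _ _
  have s2 : D w d3 d1 = - D w d1 d3 := D_swap _ _ _
  have s3 : D w d3 d2 = - D w d2 d3 := D_swap _ _ _
  -- e1 : f1 d1 * D23 = f1 d2 * D13 + f1 d3 * D21
  have key : (0 ≤ D w d1 d2 ∧ 0 ≤ D w d2 d3 ∧ 0 ≤ D w d3 d1) ∨
      (0 ≤ D w d1 d3 ∧ 0 ≤ D w d3 d2 ∧ 0 ≤ D w d2 d1) := by
    rcases le_total 0 (D w d1 d2) with a | a
    · rcases le_total 0 (D w d2 d3) with b | b
      · left
        refine ⟨a, b, ?_⟩
        by_contra hc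
        push_neg at hc
        -- e2 : f2 d2 * D13 = f2 d1 * D23 + f2 d3 * D12
        nlinarith [mul_pos h22 (show 0 < D w d1 d3 by linarith),
          mul_nonneg (neg_nonneg.2 h21) b, mul_nonneg (neg_nonneg.2 h23) a]
      · rcases le_total 0 (D w d3 d1) with c | c
        · left
          refine ⟨a, ?_, c⟩
          by_contra hc
          push_neg at hc
          rw [s1] at e1
          nlinarith [mul_pos h11 (neg_pos.2 hc), mul_nonneg (neg_nonneg.2 h12) c,
            mul_nonneg (neg_nonneg.2 h13) a]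
        · right
          refine ⟨by linarith, by linarith, ?_⟩
          by_contra hc
          push_neg at hc
          -- e3 : f3 d3 * D12 = f3 d1 * D32 + f3 d2 * D13
          rw [s3] at e3
          nlinarith [mul_pos h33 (show 0 < D w d1 d2 by linarith),
            mul_nonneg (neg_nonneg.2 h31) (show 0 ≤ - D w d2 d3 by linarith),
            mul_nonneg (neg_nonneg.2 h32) (show 0 ≤ D w d1 d3 by linarith)]
    · rcases le_total 0 (D w d2 d3) with b | b
      · rcases le_total 0 (D w d3 d1) with c | c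
        · left
          refine ⟨?_, b, c⟩
          by_contra hc
          push_neg at hc
          rw [s3] at e3
          nlinarith [mul_pos h33 (neg_pos.2 hc),
            mul_nonneg (neg_nonneg.2 h31) b,
            mul_nonneg (neg_nonneg.2 h32) c]
        · right
          refine ⟨by linarith, ?_, by linarith⟩
          by_contra hc
          push_neg at hc
          rw [s1] at e1
          nlinarith [mul_pos h11 (show 0 < D w d2 d3 by linarith),
            mul_nonneg (neg_nonneg.2 h12) (show 0 ≤ D w d1 d3 by linarith),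
            mul_nonneg (neg_nonneg.2 h13) (show 0 ≤ - D w d1 d2 by linarith)]
      · right
        refine ⟨?_, by linarith, by linarith⟩
        by_contra hc
        push_neg at hc
        nlinarith [mul_pos h22 (neg_pos.2 hc),
          mul_nonneg (neg_nonneg.2 h21) (show 0 ≤ - D w d2 d3 by linarith),
          mul_nonneg (neg_nonneg.2 h23) (show 0 ≤ - D w d1 d2 by linarith)]
  rcases key with ⟨a, b, c⟩ | ⟨a, b, c⟩
  · exact core3 id1 id2 id3 h11 h12 h13 h1e h22 h21 h23 h2e h33 h31 h32 h3e a b c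
  · have := core3 id1 id3 id2 h11 h13 h12 h1e h33 h31 h32 h3e h22 h21 h23 h2e a b c
    tauto

/-- at most two neighbours are blocked at a vertex with two further neighbours -/
theorem three_blk (h : Tri p T) {w d1 d2 d3 e1 e2 : Fin n} (hd1 : T w d1) (hd2 : T w d2)
    (hd3 : T w d3) (he1 : T w e1) (he2 : T w e2) (he : e1 ≠ e2)
    (n12 : d1 ≠ d2) (n13 : d1 ≠ d3) (n23 : d2 ≠ d3)
    (m11 : e1 ≠ d1) (m12 : e1 ≠ d2) (m13 : e1 ≠ d3) (m21 : e2 ≠ d1) (m22 : e2 ≠ d2)
    (m23 : e2 ≠ d3) (b1 : Blk p T w d1) (b2 : Blk p T w d2) (b3 : Blk p T w d3) : False := by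
  obtain ⟨α1, β1, f11, f1⟩ := b1
  obtain ⟨α2, β2, f22, f2⟩ := b2
  obtain ⟨α3, β3, f33, f3⟩ := b3
  have key : ∀ e, T w e → e ≠ d1 → e ≠ d2 → e ≠ d3 →
      D (p w) (p d1) (p e) = 0 ∨ D (p w) (p d2) (p e) = 0 ∨ D (p w) (p d3) (p e) = 0 := by
    intro e he h1 h2 h3
    exact core3' (lfid α1 β1 (p w)) (lfid α2 β2 (p w)) (lfid α3 β3 (p w))
      f11 (f1 d2 hd2 n12.symm) (f1 d3 hd3 n13.symm) (f1 e he h1)
      f22 (f2 d1 hd1 n12) (f2 d3 hd3 n23.symm) (f2 e he h2)
      f33 (f3 d1 hd1 n13) (f3 d2 hd2 n23) (f3 e he h3)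
  -- same
  have same : ∀ {d : Fin n} {α β : ℝ}, 0 < lf α β (p w) (p d) →
      lf α β (p w) (p e1) ≤ 0 → lf α β (p w) (p e2) ≤ 0 → D (p w) (p d) (p e1) = 0 →
      D (p w) (p d) (p e2) = 0 → False := by
    intro d α β hd h1 h2 h3 h4
    have hlt : ∀ e, T w e → lf α β (p w) (p e) ≤ 0 → D (p w) (p d) (p e) = 0 →
        lf α β (p w) (p e) < 0 := by
      intro e he h1 h3
      rcases h1.lt_or_eq with h1 | h1
      · exact h1
      · have : p e = p w := eq_of_line hd.ne' h3 (D_self₂ _ _) (by rw [h1, lf_self])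
        exact absurd (h.inj this) (fun e' => h.irr (e' ▸ he))
    have g1 := hlt e1 he1 h1 h3
    have g2 := hlt e2 he2 h2 h4
    have hD : D (p w) (p e1) (p e2) = 0 := by
      have := lfid α β (p w) (p e1) (p e2) (p d)
      rw [h4, D_swap (p w) (p d) (p e1), h3] at this
      have : lf α β (p w) (p d) * D (p w) (p e1) (p e2) = 0 := by rw [this]; ring
      exact (mul_eq_zero.1 this).resolve_left hd.ne'
    have hneg : ∀ x, lf (-α) (-β) (p w) x = - lf α β (p w) x := by
      intro x; simp only [lf]; ring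
    exact he (same_dir h (α := -α) (β := -β) he1 he2 hD (by rw [hneg]; linarith)
      (by rw [hneg]; linarith))
  -- different
  have diff : ∀ {k l j x y : Fin n} {α β α' β' α'' β'' : ℝ}, T w k → T w l → T w x → T w y →
      0 < lf α β (p w) (p k) → lf α β (p w) (p l) ≤ 0 → lf α β (p w) (p x) ≤ 0 →
      lf α β (p w) (p y) ≤ 0 →
      0 < lf α' β' (p w) (p l) → lf α' β' (p w) (p k) ≤ 0 → lf α' β' (p w) (p x) ≤ 0 →
      lf α' β' (p w) (p y) ≤ 0 →
      0 < lf α'' β'' (p w) (p j) → lf α'' β'' (p w) (p k) ≤ 0 → lf α'' β'' (p w) (p l) ≤ 0 →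
      lf α'' β'' (p w) (p x) ≤ 0 → lf α'' β'' (p w) (p y) ≤ 0 →
      D (p w) (p k) (p x) = 0 → D (p w) (p l) (p y) = 0 → False := by
    intro k l j x y α β α' β' α'' β'' hk hl hx hy a1 a2 a3 a4 b1 b2 b3 b4 c1 c2 c3 c4 c5 hkx hly
    have gx : lf α β (p w) (p x) < 0 := by
      rcases a3.lt_or_eq with h1 | h1
      · exact h1
      · have : p x = p w := eq_of_line a1.ne' hkx (D_self₂ _ _) (by rw [h1, lf_self])
        exact absurd (h.inj this) (fun e' => h.irr (e' ▸ hx))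
    have gy : lf α' β' (p w) (p y) < 0 := by
      rcases b4.lt_or_eq with h1 | h1
      · exact h1
      · have : p y = p w := eq_of_line b1.ne' hly (D_self₂ _ _) (by rw [h1, lf_self])
        exact absurd (h.inj this) (fun e' => h.irr (e' ▸ hy))
    -- proportionality
    have prop : ∀ {α β α' β' : ℝ} {u v w : Pt}, D w u v = 0 →
        lf α β w u * lf α' β' w v = lf α β w v * lf α' β' w u := by
      intro α β α' β' u v w h0
      have e1 := line1 (α := α) (β := β) h0
      have e2 := line2 (α := α) (β := β) h0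
      simp only [lf] at *
      linear_combination α' * e1 + β' * e2
    have hjk : lf α'' β'' (p w) (p k) = 0 := by
      have := prop (α := α) (β := β) (α' := α'') (β' := β'') hkx
      rcases c2.lt_or_eq with h1 | h1
      · nlinarith [mul_pos_of_neg_of_neg gx h1, mul_nonneg a1.le (neg_nonneg.2 c4)]
      · exact h1
    have hjl : lf α'' β'' (p w) (p l) = 0 := by
      have := prop (α := α') (β := β') (α' := α'') (β' := β'') hly
      rcases c3.lt_or_eq with h1 | h1
      · nlinarith [mul_pos_of_neg_of_neg gy h1, mul_nonneg b1.le (neg_nonneg.2 c5)]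
      · exact h1
    have hkl : lf α β (p w) (p l) = 0 := by
      have := prop (α := α') (β := β') (α' := α) (β' := β) hly
      rcases a2.lt_or_eq with h1 | h1
      · nlinarith [mul_pos_of_neg_of_neg gy h1, mul_nonneg b1.le (neg_nonneg.2 a4)]
      · exact h1
    have hD : D (p w) (p k) (p l) = 0 := by
      have := lfid α'' β'' (p w) (p k) (p l) (p j)
      rw [hjk, hjl] at this
      have : lf α'' β'' (p w) (p j) * D (p w) (p k) (p l) = 0 := by rw [this]; ring
      exact (mul_eq_zero.1 this).resolve_left c1.ne'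
    have : p l = p w := eq_of_line a1.ne' hD (D_self₂ _ _) (by rw [hkl, lf_self])
    exact absurd (h.inj this) (fun e' => h.irr (e' ▸ hl))
  have F12 := f1 d2 hd2 n12.symm
  have F13 := f1 d3 hd3 n13.symm
  have F1a := f1 e1 he1 m11
  have F1b := f1 e2 he2 m21
  have F21 := f2 d1 hd1 n12
  have F23 := f2 d3 hd3 n23.symm
  have F2a := f2 e1 he1 m12
  have F2b := f2 e2 he2 m22
  have F31 := f3 d1 hd1 n13
  have F32 := f3 d2 hd2 n23
  have F3a := f3 e1 he1 m13
  have F3b := f3 e2 he2 m23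
  rcases key e1 he1 m11 m12 m13 with k | k | k <;>
    rcases key e2 he2 m21 m22 m23 with l | l | l
  · exact same f11 F1a F1b k l
  · exact diff hd1 hd2 he1 he2 f11 F12 F1a F1b f22 F21 F2a F2b f33 F31 F32 F3a F3b k l
  · exact diff hd1 hd3 he1 he2 f11 F13 F1a F1b f33 F31 F3a F3b f22 F21 F23 F2a F2b k l
  · exact diff hd2 hd1 he1 he2 f22 F21 F2a F2b f11 F12 F1a F1b f33 F32 F31 F3a F3b k l
  · exact same f22 F2a F2b k l
  · exact diff hd2 hd3 he1 he2 f22 F23 F2a F2b f33 F32 F3a F3b f11 F12 F13 F1a F1b k l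
  · exact diff hd3 hd1 he1 he2 f33 F31 F3a F3b f11 F13 F1a F1b f22 F23 F21 F2a F2b k l
  · exact diff hd3 hd2 he1 he2 f33 F32 F3a F3b f22 F23 F2a F2b f11 F13 F12 F1a F1b k l
  · exact same f33 F3a F3b k l

/-- no edge is blocked at a vertex of the hull -/
theorem hull_blk (h : Tri p T) {w d e1 e2 u : Fin n} {α β : ℝ}
    (hs : ∀ u, lf α β (p w) (p u) ≤ 0) (hu : lf α β (p w) (p u) < 0)
    (he1 : T w e1) (he2 : T w e2) (m1 : e1 ≠ d) (m2 : e2 ≠ d) (hb : Blk' p T w d) :
    D (p w) (p e1) (p e2) = 0 := by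
  obtain ⟨a, b, ha, hbt, hle⟩ := hb
  have hfun := blk_fun h ha hbt hle
  have hwda := ha.pos
  have hwbd : 0 < D (p w) (p b) (p d) := by
    have := hbt.pos
    rwa [← D_rot (p d) (p w) (p b)] at this
  have h0 : ∀ x, T w x → x ≠ d → lf α β (p w) (p x) = 0 := by
    intro x hx hxd
    have i1 := lfid α β (p w) (p b) (p a) (p d)
    have i2 := lfid α β (p w) (p b) (p d) (p x)
    have hbl : lf α β (p w) (p b) = 0 := by
      rcases (hs b).lt_or_eq with k | k
      · nlinarith [mul_nonneg_of_nonpos_of_nonpos (hs d) hle, mul_pos (neg_pos.2 k) hwda,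
          mul_nonneg (neg_nonneg.2 (hs a)) hwbd.le]
      · exact k
    rw [hbl] at i2
    have := hfun x hx hxd
    rcases (hs x).lt_or_eq with k | k
    · nlinarith [mul_nonneg_of_nonpos_of_nonpos (hs d) this, mul_pos (neg_pos.2 k) hwbd]
    · exact k
  have := lfid α β (p w) (p e1) (p e2) (p u)
  rw [h0 e1 he1 m1, h0 e2 he2 m2] at this
  have : lf α β (p w) (p u) * D (p w) (p e1) (p e2) = 0 := by rw [this]; ring
  exact (mul_eq_zero.1 this).resolve_left hu.ne

end Pool.Agent.KS6_78.DG
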