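import Pool.Agent.KS6_78.DG.F

set_option autoImplicit false

namespace Pool.Agent.KS6_78.DG

open Set

variable {n : ℕ} {p : Fin n → Pt} {T : Fin n → Fin n → Prop}

/-- not all points are on a line -/
def NonCol (p : Fin n → Pt) : Prop := ∀ v d, v ≠ d → ∃ u, D (p v) (p d) (p u) ≠ 0

/-- there is a supporting line at `v` -/
def Sup (p : Fin n → Pt) (v : Fin n) : Prop :=
  ∃ α β : ℝ, (∀ u, lf α β (p v) (p u) ≤ 0) ∧ ∃ u, lf α β (p v) (p u) < 0

open Classical in
noncomputable def NH (p : Fin n → Pt) : Finset (Fin n) := Mid p \ (UHs p ∪ LHs p)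

theorem ext_right (v : Fin n) (hR : ∃ c, (p v).1 < (p c).1) :
    ∃ a, (p v).1 < (p a).1 ∧ ∀ c, (p v).1 < (p c).1 → 0 ≤ D (p v) (p c) (p a) := by
  classical
  obtain ⟨a0, h2⟩ := hR
  obtain ⟨a, ha, hmax⟩ := Finset.exists_max_image
    (Finset.univ.filter fun c : Fin n => (p v).1 < (p c).1)
    (fun c => ((p c).2 - (p v).2) / ((p c).1 - (p v).1)) ⟨a0, by simp [h2]⟩
  simp only [Finset.mem_filter, Finset.mem_univ, true_and] at ha
  refine ⟨a, ha, fun c hc' => slope_cmp ?_ (hmax c (by simp [hc']))⟩
  nlinarith [ha]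

theorem ext_right' (v : Fin n) (hR : ∃ c, (p v).1 < (p c).1) :
    ∃ a, (p v).1 < (p a).1 ∧ ∀ c, (p v).1 < (p c).1 → 0 ≤ D (p v) (p a) (p c) := by
  classical
  obtain ⟨a0, h2⟩ := hR
  obtain ⟨a, ha, hmax⟩ := Finset.exists_min_image
    (Finset.univ.filter fun c : Fin n => (p v).1 < (p c).1)
    (fun c => ((p c).2 - (p v).2) / ((p c).1 - (p v).1)) ⟨a0, by simp [h2]⟩
  simp only [Finset.mem_filter, Finset.mem_univ, true_and] at ha
  refine ⟨a, ha, fun c hc' => slope_cmp ?_ (hmax c (by simp [hc']))⟩
  nlinarith [ha]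

theorem sup_of (hX : Function.Injective fun i => (p i).1) (hnc : NonCol p) (hn : 2 ≤ n)
    {v : Fin n} (hv : v ∉ NH p) : Sup p v := by
  classical
  obtain ⟨u0, hu0⟩ : ∃ u : Fin n, u ≠ v := by
    by_contra hc
    push_neg at hc
    have := (hc ⟨0, by omega⟩).trans (hc ⟨1, by omega⟩).symm
    simp at this
  have hx0 : (p u0).1 ≠ (p v).1 := fun e => hu0 (hX e)
  by_cases hL : ∃ c, (p c).1 < (p v).1
  · by_cases hR : ∃ c, (p v).1 < (p c).1
    · have hm : v ∈ Mid p := by
        simp only [Mid, Finset.mem_filter, Finset.mem_univ, true_and]; exact ⟨hL, hR⟩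
      have hor : UH p v ∨ LH p v := by
        by_contra hc
        push_neg at hc
        apply hv
        simp only [NH, Finset.mem_sdiff, Finset.mem_union, UHs, LHs, Finset.mem_filter]
        exact ⟨hm, by tauto⟩
      rcases hor with hU | hU
      · obtain ⟨d, hd, hd'⟩ := ext_right v hR
        have hall : ∀ u, D (p v) (p d) (p u) ≤ 0 := by
          intro u
          rcases lt_trichotomy (p u).1 (p v).1 with k | k | k
          · have := hU u d k hd
            rw [D_swap] at this
            linarith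
          · rw [hX k, D_self₂]
          · have := hd' u k
            rw [D_swap] at this
            linarith
        refine ⟨-((p d).2 - (p v).2), (p d).1 - (p v).1, fun u => by rw [lf_D]; exact hall u, ?_⟩
        obtain ⟨u, hu⟩ := hnc v d (by rintro rfl; exact lt_irrefl _ hd)
        exact ⟨u, by rw [lf_D]; exact lt_of_le_of_ne (hall u) hu⟩
      · obtain ⟨d, hd, hd'⟩ := ext_right' v hR
        have hall : ∀ u, 0 ≤ D (p v) (p d) (p u) := by
          intro u
          rcases lt_trichotomy (p u).1 (p v).1 with k | k | k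
          · have := hU u d k hd
            rw [D_swap] at this
            linarith
          · rw [hX k, D_self₂]
          · exact hd' u k
        refine ⟨(p d).2 - (p v).2, -((p d).1 - (p v).1),
          fun u => by rw [lf_D']; linarith [hall u], ?_⟩
        obtain ⟨u, hu⟩ := hnc v d (by rintro rfl; exact lt_irrefl _ hd)
        have := lt_of_le_of_ne (hall u) (Ne.symm hu)
        exact ⟨u, by rw [lf_D']; linarith⟩
    · push_neg at hR
      refine ⟨1, 0, fun u => by rw [lf_x]; linarith [hR u], u0, ?_⟩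
      rw [lf_x]
      have := lt_of_le_of_ne (hR u0) hx0
      linarith
  · push_neg at hL
    refine ⟨-1, 0, fun u => by rw [lf_x']; linarith [hL u], u0, ?_⟩
    rw [lf_x']
    have := lt_of_le_of_ne (hL u0) hx0.symm
    linarith

theorem disj_hulls (hX : Function.Injective fun i => (p i).1) (hnc : NonCol p) :
    Disjoint (UHs p) (LHs p) := by
  classical
  rw [Finset.disjoint_left]
  intro v h1 h2
  simp only [UHs, LHs, Mid, Finset.mem_filter, Finset.mem_univ, true_and] at h1 h2
  obtain ⟨⟨⟨c, hc⟩, d, hd⟩, hU⟩ := h1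
  have hL := h2.2
  have h0 : ∀ c d, (p c).1 < (p v).1 → (p v).1 < (p d).1 → D (p v) (p c) (p d) = 0 :=
    fun c d k1 k2 => le_antisymm (hL c d k1 k2) (hU c d k1 k2)
  obtain ⟨u, hu⟩ := hnc v d (by rintro rfl; exact lt_irrefl _ hd)
  apply hu
  rcases lt_trichotomy (p u).1 (p v).1 with k | k | k
  · rw [D_swap, h0 u d k hd, neg_zero]
  · rw [hX k, D_self₂]
  · have := xid (p v) (p c) (p d) (p u)
    rw [h0 c u hc k, D_swap (p v) (p c) (p d), h0 c d hc hd] at this
    have : ((p c).1 - (p v).1) * D (p v) (p d) (p u) = 0 := by rw [this]; ring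
    rcases mul_eq_zero.1 this with e | e
    · linarith
    · exact e

/-- all points are on one side of the line -/
def OS (p : Fin n → Pt) (a b : Fin n) : Prop :=
  (∀ u, D (p a) (p b) (p u) ≤ 0) ∨ ∀ u, 0 ≤ D (p a) (p b) (p u)

theorem OS.symm {a b : Fin n} (h : OS p a b) : OS p b a := by
  rcases h with h | h
  · right
    intro u
    rw [D_swap']
    linarith [h u]
  · left
    intro u
    rw [D_swap']
    linarith [h u]

open Classical in
theorem card_OS (h : Tri p T) (hX : Function.Injective fun i => (p i).1) (hn : 2 ≤ n) :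
    ((Ed p T).filter fun q => OS p q.1 q.2).card ≤ (UHs p).card + (LHs p).card + 2 := by
  have : Nonempty (Fin n) := ⟨⟨0, by omega⟩⟩
  obtain ⟨r, hr⟩ := Finite.exists_max fun i => (p i).1
  have hmid : ∀ a b : Fin n, (p a).1 < (p b).1 → b ≠ r → b ∈ Mid p := by
    intro a b hab hbr
    simp only [Mid, Finset.mem_filter, Finset.mem_univ, true_and]
    exact ⟨⟨a, hab⟩, r, lt_of_le_of_ne (hr b) (fun e => hbr (hX e))⟩
  have hU : ((Ed p T).filter fun q => ∀ u, D (p q.1) (p q.2) (p u) ≤ 0).card ≤
      (UHs p).card + 1 := by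
    refine le_trans ?_ (Finset.card_insert_le r (UHs p))
    refine Finset.card_le_card_of_injOn (fun q => q.2) ?_ ?_
    · rintro ⟨a, b⟩ hq
      simp only [Ed, Finset.coe_filter, Finset.mem_filter, Finset.mem_univ, true_and,
        Set.mem_setOf_eq] at hq
      obtain ⟨⟨hT, hab⟩, hall⟩ := hq
      simp only [Finset.coe_insert, Set.mem_insert_iff, Finset.mem_coe]
      by_cases hb : b = r
      · exact Or.inl hb
      · right
        simp only [UHs, Finset.mem_filter]
        refine ⟨hmid a b hab hb, fun c d hc hd => ?_⟩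
        have e1 := xid (p b) (p a) (p c) (p d)
        have e2 : D (p b) (p a) (p d) = - D (p a) (p b) (p d) := D_swap' _ _ _
        have e3 : D (p b) (p c) (p a) = D (p a) (p b) (p c) := D_rot _ _ _
        rw [e2, e3] at e1
        have k1 := hall c
        have k2 := hall d
        by_contra hneg
        push_neg at hneg
        nlinarith [mul_pos_of_neg_of_neg (show (p a).1 - (p b).1 < 0 by linarith) hneg,
          mul_nonneg (show 0 ≤ (p b).1 - (p c).1 by linarith) (neg_nonneg.2 k2),
          mul_nonneg (show 0 ≤ (p d).1 - (p b).1 by linarith) (neg_nonneg.2 k1)]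
    · rintro ⟨a, b⟩ hq ⟨a', b'⟩ hq' e
      simp only at e
      subst e
      simp only [Ed, Finset.coe_filter, Finset.mem_filter, Finset.mem_univ, true_and,
        Set.mem_setOf_eq] at hq hq'
      obtain ⟨⟨hT, hab⟩, hall⟩ := hq
      obtain ⟨⟨hT', hab'⟩, hall'⟩ := hq'
      have k1 := hall a'
      have k2 := hall' a
      have e1 : D (p a') (p b) (p a) = - D (p a) (p b) (p a') := by simp only [D]; ring
      rw [e1] at k2
      have e2 : D (p b) (p a) (p a') = - D (p a) (p b) (p a') := D_swap' _ _ _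
      have : a = a' := same_dir h (α := -1) (β := 0) (h.symm hT) (h.symm hT')
        (by rw [e2]; linarith) (by rw [lf_x']; linarith) (by rw [lf_x']; linarith)
      rw [this]
  have hL : ((Ed p T).filter fun q => ∀ u, 0 ≤ D (p q.1) (p q.2) (p u)).card ≤
      (LHs p).card + 1 := by
    refine le_trans ?_ (Finset.card_insert_le r (LHs p))
    refine Finset.card_le_card_of_injOn (fun q => q.2) ?_ ?_
    · rintro ⟨a, b⟩ hq
      simp only [Ed, Finset.coe_filter, Finset.mem_filter, Finset.mem_univ, true_and,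
        Set.mem_setOf_eq] at hq
      obtain ⟨⟨hT, hab⟩, hall⟩ := hq
      simp only [Finset.coe_insert, Set.mem_insert_iff, Finset.mem_coe]
      by_cases hb : b = r
      · exact Or.inl hb
      · right
        simp only [LHs, Finset.mem_filter]
        refine ⟨hmid a b hab hb, fun c d hc hd => ?_⟩
        have e1 := xid (p b) (p a) (p c) (p d)
        have e2 : D (p b) (p a) (p d) = - D (p a) (p b) (p d) := D_swap' _ _ _
        have e3 : D (p b) (p c) (p a) = D (p a) (p b) (p c) := D_rot _ _ _
        rw [e2, e3] at e1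
        have k1 := hall c
        have k2 := hall d
        by_contra hneg
        push_neg at hneg
        nlinarith [mul_pos (show 0 < (p b).1 - (p a).1 by linarith) hneg,
          mul_nonneg (show 0 ≤ (p b).1 - (p c).1 by linarith) k2,
          mul_nonneg (show 0 ≤ (p d).1 - (p b).1 by linarith) k1]
    · rintro ⟨a, b⟩ hq ⟨a', b'⟩ hq' e
      simp only at e
      subst e
      simp only [Ed, Finset.coe_filter, Finset.mem_filter, Finset.mem_univ, true_and,
        Set.mem_setOf_eq] at hq hq'
      obtain ⟨⟨hT, hab⟩, hall⟩ := hq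
      obtain ⟨⟨hT', hab'⟩, hall'⟩ := hq'
      have k1 := hall a'
      have k2 := hall' a
      have e1 : D (p a') (p b) (p a) = - D (p a) (p b) (p a') := by simp only [D]; ring
      rw [e1] at k2
      have e2 : D (p b) (p a) (p a') = - D (p a) (p b) (p a') := D_swap' _ _ _
      have : a = a' := same_dir h (α := -1) (β := 0) (h.symm hT) (h.symm hT')
        (by rw [e2]; linarith) (by rw [lf_x']; linarith) (by rw [lf_x']; linarith)
      rw [this]
  have hsub : ((Ed p T).filter fun q => OS p q.1 q.2) ⊆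
      ((Ed p T).filter fun q => ∀ u, D (p q.1) (p q.2) (p u) ≤ 0) ∪
      ((Ed p T).filter fun q => ∀ u, 0 ≤ D (p q.1) (p q.2) (p u)) := by
    intro q hq
    rw [Finset.mem_filter] at hq
    rw [Finset.mem_union, Finset.mem_filter, Finset.mem_filter]
    rcases hq.2 with k | k
    · exact Or.inl ⟨hq.1, k⟩
    · exact Or.inr ⟨hq.1, k⟩
  have := (Finset.card_le_card hsub).trans (Finset.card_union_le _ _)
  omega

theorem lf_neg (α β : ℝ) (w x : Pt) : lf (-α) (-β) w x = - lf α β w x := by
  simp only [lf]; ring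

theorem OS_of {c d u0 : Fin n} {α β : ℝ} (hs : ∀ u, lf α β (p c) (p u) ≤ 0)
    (hu0 : lf α β (p c) (p u0) < 0) (hd : lf α β (p c) (p d) = 0) : OS p c d := by
  have key : ∀ u, lf α β (p c) (p u0) * D (p c) (p d) (p u) =
      lf α β (p c) (p u) * D (p c) (p d) (p u0) := by
    intro u
    have := lfid α β (p c) (p d) (p u) (p u0)
    rw [hd] at this
    linarith
  rcases le_total (D (p c) (p d) (p u0)) 0 with k | k
  · left
    intro u
    have := key u
    have h1 := hs u
    by_contra hc
    push_neg at hc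
    nlinarith [mul_pos (neg_pos.2 hu0) hc, mul_nonneg (neg_nonneg.2 h1) (neg_nonneg.2 k)]
  · right
    intro u
    have := key u
    have h1 := hs u
    by_contra hc
    push_neg at hc
    nlinarith [mul_pos (neg_pos.2 hu0) (neg_pos.2 hc), mul_nonneg (neg_nonneg.2 h1) k]

theorem modne {n a k : ℕ} (ha : a < n) (h1 : 1 ≤ k) (h2 : k < n) : (a + k) % n ≠ a := by
  rcases lt_or_ge (a + k) n with h | h
  · rw [Nat.mod_eq_of_lt h]; omega
  · rw [Nat.mod_eq_sub_mod h, Nat.mod_eq_of_lt (by omega)]; omega

theorem one_sided [NeZero n] (h : Tri p T) (hn : 3 ≤ n) (hP : ∀ i, T i (i + 1)) {c : Fin n}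
    (h1 : Sup p c) (h2 : Sup p (c + 1)) : OS p c (c + 1) := by
  obtain ⟨d, hd⟩ : ∃ d, d = c + 1 := ⟨_, rfl⟩
  rw [← hd] at h2 ⊢
  obtain ⟨α, β, s1, u1, t1⟩ := h1
  obtain ⟨α', β', s2, u2, t2⟩ := h2
  rcases (s1 d).lt_or_eq with g1 | g1
  swap
  · exact OS_of s1 t1 g1
  rcases (s2 c).lt_or_eq with g2 | g2
  swap
  · exact (OS_of s2 t2 g2).symm
  have hcd : T c d := hd ▸ hP c
  -- points of the line
  have line : ∀ r : Pt, D (p c) (p d) r = 0 → lf α β (p c) r ≤ 0 → lf α' β' (p d) r ≤ 0 →
      r = p c ∨ r = p d ∨ r ∈ openSegment ℝ (p c) (p d) := by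
    intro r hr k1 k2
    have p1 : 0 < lf (-α) (-β) (p c) (p d) := by rw [lf_neg]; linarith
    have p2 : 0 ≤ lf (-α) (-β) (p c) r := by rw [lf_neg]; linarith
    rcases p2.lt_or_eq with p2 | p2
    · rcases lt_trichotomy (lf (-α) (-β) (p c) r) (lf (-α) (-β) (p c) (p d)) with q | q | q
      · exact Or.inr (Or.inr (os_of_line hr p2 q))
      · exact Or.inr (Or.inl (eq_of_line p1.ne' hr (D_self₃ _ _) q))
      · exfalso
        have hm : p d ∈ openSegment ℝ (p c) r := os_of_line (by rw [D_swap, hr, neg_zero]) p1 q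
        obtain ⟨t, t0, t1, f1, f2⟩ := mem_os.1 hm
        have := lf_aff (α := α') (β := β') (v := p d) f1 f2
        rw [lf_self] at this
        nlinarith
    · exact Or.inl (eq_of_line p1.ne' hr (D_self₂ _ _) (by rw [← p2, lf_self]))
  -- the walk
  have hw : ∃ w : ℕ → Fin n, ∀ k, (w k).val = (d.val + k) % n :=
    ⟨fun k => ⟨(d.val + k) % n, Nat.mod_lt _ (by omega)⟩, fun k => rfl⟩
  obtain ⟨w, hw⟩ := hw
  have hw0 : w 0 = d := Fin.ext (by rw [hw, add_zero, Nat.mod_eq_of_lt d.2])
  have hws : ∀ k, w k + 1 = w (k + 1) := by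
    intro k
    apply Fin.ext
    rw [Fin.val_add, hw, hw, Fin.val_one', ← Nat.add_mod, add_assoc]
  have hwd : ∀ k, 1 ≤ k → k ≤ n - 1 → w k ≠ d := by
    intro k k1 k2 e
    have := congrArg Fin.val e
    rw [hw] at this
    exact modne d.2 k1 (by omega) this
  have hwc : ∀ k, 1 ≤ k → k ≤ n - 2 → w k ≠ c := by
    intro k k1 k2 e
    have := hws k
    rw [e, ← hd] at this
    exact hwd (k + 1) (by omega) (by omega) this.symm
  have hne : ∀ k, 1 ≤ k → k ≤ n - 2 → D (p c) (p d) (p (w k)) ≠ 0 := by
    intro k k1 k2 e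
    rcases line _ e (s1 _) (s2 _) with q | q | q
    · exact hwc k k1 k2 (h.inj q)
    · exact hwd k k1 (by omega) (h.inj q)
    · exact h.clear hcd q
  have step : ∀ k, 1 ≤ k → k ≤ n - 2 → 0 < D (p c) (p d) (p (w k)) * D (p c) (p d) (p (w 1)) := by
    intro k k1
    induction k, k1 using Nat.le_induction with
    | base =>
      intro k2
      exact mul_self_pos.2 (hne 1 le_rfl k2)
    | succ k k1 ih =>
      intro k2
      have ih := ih (by omega)
      by_contra hcon
      have hlt : D (p c) (p d) (p (w (k + 1))) * D (p c) (p d) (p (w 1)) < 0 :=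
        lt_of_le_of_ne (not_lt.1 hcon)
          (mul_ne_zero (hne (k + 1) (by omega) k2) (hne 1 le_rfl (by omega)))
      obtain ⟨x, hx⟩ : ∃ x, x = D (p c) (p d) (p (w k)) := ⟨_, rfl⟩
      obtain ⟨y, hy⟩ : ∃ y, y = D (p c) (p d) (p (w (k + 1))) := ⟨_, rfl⟩
      obtain ⟨z, hz⟩ : ∃ z, z = D (p c) (p d) (p (w 1)) := ⟨_, rfl⟩
      rw [← hx, ← hz] at ih
      rw [← hy, ← hz] at hlt
      have hxy : (0 < x ∧ y < 0) ∨ (x < 0 ∧ 0 < y) := by
        rcases pos_and_pos_or_neg_and_neg_of_mul_pos ih with ⟨a, b⟩ | ⟨a, b⟩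
        · left; exact ⟨a, by by_contra hc; push_neg at hc; nlinarith [mul_nonneg hc b.le]⟩
        · right; exact ⟨a, by
            by_contra hc; push_neg at hc
            nlinarith [mul_nonneg_of_nonpos_of_nonpos hc b.le]⟩
      obtain ⟨t, ht0, ht1, ht⟩ : ∃ t : ℝ, 0 < t ∧ t < 1 ∧ x + t * (y - x) = 0 := by
        rcases hxy with ⟨a, b⟩ | ⟨a, b⟩
        · have : 0 < x - y := by linarith
          refine ⟨x / (x - y), div_pos a this, (div_lt_one this).2 (by linarith), ?_⟩
          field_simp
          ring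
        · have : 0 < y - x := by linarith
          refine ⟨(-x) / (y - x), div_pos (by linarith) this, (div_lt_one this).2 (by linarith), ?_⟩
          field_simp
          ring
      set r : Pt := ((p (w k)).1 + t * ((p (w (k + 1))).1 - (p (w k)).1),
        (p (w k)).2 + t * ((p (w (k + 1))).2 - (p (w k)).2)) with hr
      have hrm : r ∈ openSegment ℝ (p (w k)) (p (w (k + 1))) := mem_os.2 ⟨t, ht0, ht1, rfl, rfl⟩
      have hT : T (w k) (w (k + 1)) := by
        have := hP (w k)
        rwa [hws] at this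
      have hD : D (p c) (p d) r = 0 := by
        rw [D_aff (v := p c) (a := p d) (s := p (w k)) (u := p (w (k + 1))) (z := r) rfl rfl,
          ← hx, ← hy]
        exact ht
      have hl1 : lf α β (p c) r ≤ 0 := by
        rw [lf_aff (α := α) (β := β) (v := p c) (s := p (w k)) (u := p (w (k + 1))) (z := r)
          rfl rfl]
        nlinarith [s1 (w k), s1 (w (k + 1))]
      have hl2 : lf α' β' (p d) r ≤ 0 := by
        rw [lf_aff (α := α') (β := β') (v := p d) (s := p (w k)) (u := p (w (k + 1))) (z := r)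
          rfl rfl]
        nlinarith [s2 (w k), s2 (w (k + 1))]
      rcases line r hD hl1 hl2 with q | q | q
      · exact h.clear hT (q ▸ hrm)
      · exact h.clear hT (q ▸ hrm)
      · rcases h.nc hT hcd hrm q with ⟨e, -⟩ | ⟨e, -⟩
        · exact hwc k k1 (by omega) e
        · exact hwd k k1 (by omega) e
  have all : ∀ u, u ≠ c → u ≠ d → 0 < D (p c) (p d) (p u) * D (p c) (p d) (p (w 1)) := by
    intro u hc hd'
    obtain ⟨k, k1, k2, rfl⟩ : ∃ k, 1 ≤ k ∧ k ≤ n - 2 ∧ w k = u := by
      have hdn := d.2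
      have hun := u.2
      have hdu : d.val ≠ u.val := fun e => hd' (Fin.ext e.symm)
      have aux : ∀ k, 1 ≤ k → k ≤ n - 1 → w k = u → 1 ≤ k ∧ k ≤ n - 2 ∧ w k = u := by
        intro k k1 k2 e
        refine ⟨k1, ?_, e⟩
        rcases Nat.lt_or_ge k (n - 1) with k3 | k3
        · omega
        · exfalso
          have k4 : k = n - 1 := by omega
          have := hws k
          have hn' : w (k + 1) = d := by
            apply Fin.ext
            rw [hw, k4, show d.val + (n - 1 + 1) = d.val + n by omega, Nat.add_mod_right,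
              Nat.mod_eq_of_lt d.2]
          rw [hn', e, hd] at this
          exact hc (add_right_cancel this)
      rcases Nat.lt_or_ge d.val u.val with q | q
      · refine ⟨u.val - d.val, aux _ (by omega) (by omega) ?_⟩
        apply Fin.ext
        rw [hw, show d.val + (u.val - d.val) = u.val by omega, Nat.mod_eq_of_lt u.2]
      · refine ⟨u.val + n - d.val, aux _ (by omega) (by omega) ?_⟩
        apply Fin.ext
        rw [hw, show d.val + (u.val + n - d.val) = u.val + n by omega, Nat.add_mod_right,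
          Nat.mod_eq_of_lt u.2]
    exact step k k1 k2
  have one : ∀ u, D (p c) (p d) (p u) = 0 ∨ 0 < D (p c) (p d) (p u) * D (p c) (p d) (p (w 1)) := by
    intro u
    by_cases e1 : u = c
    · left; rw [e1, D_self₂]
    by_cases e2 : u = d
    · left; rw [e2, D_self₃]
    exact Or.inr (all u e1 e2)
  rcases le_total (D (p c) (p d) (p (w 1))) 0 with k | k
  · left
    intro u
    rcases one u with e | e
    · exact e.le
    · by_contra hc
      push_neg at hc
      nlinarith [mul_nonneg hc.le (neg_nonneg.2 k)]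
  · right
    intro u
    rcases one u with e | e
    · exact e.ge
    · by_contra hc
      push_neg at hc
      nlinarith [mul_nonneg (neg_nonneg.2 hc.le) k]

end Pool.Agent.KS6_78.DG
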