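import Mathlib

set_option autoImplicit false

namespace Pool.Agent.KS6_78.DG

/-- No three vertices are collinear. -/
def GenPos (n : ℕ) (v : ℕ → ℝ × ℝ) : Prop :=
  ∀ i j k, i < n → j < n → k < n → i ≠ j → j ≠ k → i ≠ k → ¬ Collinear ℝ {v i, v j, v k}

end Pool.Agent.KS6_78.DG
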