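import Pool.Agent.KS6_78.DG.G

set_option autoImplicit false

namespace Pool.Agent.KS6_78.DG

open Set

variable {n : ℕ} {p : Fin n → Pt} {T : Fin n → Fin n → Prop}

def Adj [NeZero n] (a b : Fin n) : Prop := b = a + 1 ∨ a = b + 1

open Classical in
/-- the visible pairs -/
noncomputable def Vis [NeZero n] (p : Fin n → Pt) : Finset (Fin n × Fin n) :=
  Finset.univ.filter fun q => (p q.1).1 < (p q.2).1 ∧ ¬ Adj q.1 q.2 ∧
    (∀ c, p c ∉ openSegment ℝ (p q.1) (p q.2)) ∧
    ∀ i z, z ∈ openSegment ℝ (p q.1) (p q.2) → z ∉ openSegment ℝ (p i) (p (i + 1))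

theorem add1_ne [NeZero n] (hn : 3 ≤ n) (l : Fin n) : l + 1 ≠ l := by
  intro e
  have := congrArg Fin.val e
  rw [Fin.val_add, Fin.val_one', Nat.mod_eq_of_lt (show 1 < n by omega)] at this
  exact modne l.2 le_rfl (by omega) this

theorem add2_ne [NeZero n] (hn : 3 ≤ n) (l : Fin n) : l + 1 + 1 ≠ l := by
  intro e
  have := congrArg Fin.val e
  rw [Fin.val_add, Fin.val_add, Fin.val_one', Nat.mod_eq_of_lt (show 1 < n by omega),
    Nat.mod_add_mod, add_assoc] at this
  exact modne l.2 (by omega) (by omega) this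

theorem nonCol [NeZero n] (h : Tri p T) (hX : Function.Injective fun i => (p i).1) (hn : 3 ≤ n)
    (hP : ∀ i, T i (i + 1)) : NonCol p := by
  intro v d hvd
  by_contra hc
  push_neg at hc
  obtain ⟨l, hl⟩ := Finite.exists_min fun i => (p i).1
  have hpm : T l (l - 1) := by
    have := hP (l - 1)
    rw [sub_add_cancel] at this
    exact h.symm this
  have hx : (p d).1 - (p v).1 ≠ 0 := fun e => hvd (hX (by simp only; linarith))
  have hD : D (p l) (p (l + 1)) (p (l - 1)) = 0 := by
    have : ((p d).1 - (p v).1) * D (p l) (p (l + 1)) (p (l - 1)) =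
        ((p (l + 1)).1 - (p l).1) * (D (p v) (p d) (p (l - 1)) - D (p v) (p d) (p l)) -
        ((p (l - 1)).1 - (p l).1) * (D (p v) (p d) (p (l + 1)) - D (p v) (p d) (p l)) := by
      simp only [D]; ring
    rw [hc, hc, hc] at this
    have : ((p d).1 - (p v).1) * D (p l) (p (l + 1)) (p (l - 1)) = 0 := by rw [this]; ring
    exact (mul_eq_zero.1 this).resolve_left hx
  have hlt : ∀ u, u ≠ l → 0 < lf 1 0 (p l) (p u) := by
    intro u hu
    rw [lf_x]
    have := lt_of_le_of_ne (hl u) (fun e => hu (hX e.symm))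
    linarith
  have h1 := add1_ne hn l
  have h2 : l - 1 ≠ l := by
    intro e
    apply add1_ne hn l
    rw [sub_eq_iff_eq_add] at e
    exact e.symm
  have := same_dir h (hP l) hpm hD (hlt _ h1) (hlt _ h2)
  apply add2_ne hn l
  rw [this, sub_add_cancel]

theorem vis_bound [NeZero n] (h : Tri p T) (hX : Function.Injective fun i => (p i).1)
    (hn : 3 ≤ n) (hP : ∀ i, T i (i + 1)) :
    n ≤ (Vis p).card + 3 ∧
    ((∀ i, D (p i) (p (i + 1)) (p (i - 1)) ≠ 0) → 3 * n ≤ 2 * (Vis p).card + 9) := by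
  classical
  have hnc := nonCol h hX hn hP
  have hEd := card_Ed h hX (by omega)
  have hMid := card_mid hX (show 2 ≤ n by omega)
  have hdisj := disj_hulls hX hnc
  have hNH : (NH p).card + ((UHs p).card + (LHs p).card) = (Mid p).card := by
    rw [← Finset.card_union_of_disjoint hdisj]
    exact Finset.card_sdiff_add_card_eq_card
      (Finset.union_subset (Finset.filter_subset _ _) (Finset.filter_subset _ _))
  -- the sides
  set s : Fin n → Fin n × Fin n := fun i => if (p i).1 < (p (i + 1)).1 then (i, i + 1)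
    else (i + 1, i) with hs
  have hsE : ∀ i, s i ∈ Ed p T ∧ Adj (s i).1 (s i).2 := by
    intro i
    by_cases hi : (p i).1 < (p (i + 1)).1
    · rw [hs]
      simp only [if_pos hi]
      simp only [Ed, Finset.mem_filter, Finset.mem_univ, true_and]
      exact ⟨⟨hP i, hi⟩, Or.inl rfl⟩
    · rw [hs]
      simp only [if_neg hi]
      simp only [Ed, Finset.mem_filter, Finset.mem_univ, true_and]
      refine ⟨⟨h.symm (hP i), ?_⟩, Or.inr rfl⟩
      rcases lt_trichotomy (p i).1 (p (i + 1)).1 with k | k | k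
      · exact absurd k hi
      · exact absurd (hX k).symm (add1_ne hn i)
      · exact k
  have hsinj : Function.Injective s := by
    intro i j hij
    rw [hs] at hij
    simp only at hij
    split_ifs at hij with h1 h2 h2
    · exact (Prod.ext_iff.1 hij).1
    · have e1 := (Prod.ext_iff.1 hij).1
      have e2 := (Prod.ext_iff.1 hij).2
      simp only at e1 e2
      exfalso
      rw [e1] at e2
      exact add2_ne hn j e2
    · have e1 := (Prod.ext_iff.1 hij).1
      have e2 := (Prod.ext_iff.1 hij).2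
      simp only at e1 e2
      exfalso
      rw [e2] at e1
      exact add2_ne hn j e1
    · exact (Prod.ext_iff.1 hij).2
  set Pe : Finset (Fin n × Fin n) := (Ed p T).filter fun q => Adj q.1 q.2 with hPe
  have cPe : Pe.card ≤ n := by
    have : Pe ⊆ Finset.univ.image s := by
      rintro ⟨a, b⟩ hq
      simp only [hPe, Ed, Finset.mem_filter, Finset.mem_univ, true_and] at hq
      obtain ⟨⟨hT, hab⟩, hA⟩ := hq
      rw [Finset.mem_image]
      rcases hA with rfl | rfl
      · exact ⟨a, Finset.mem_univ _, by rw [hs]; simp only [if_pos hab]⟩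
      · exact ⟨b, Finset.mem_univ _, by rw [hs]; simp only [if_neg (not_lt.2 hab.le)]⟩
    refine (Finset.card_le_card this).trans (Finset.card_image_le.trans ?_)
    rw [Finset.card_univ, Fintype.card_fin]
  set Fr : Finset (Fin n × Fin n) := (Ed p T) \ Pe with hFr
  have cFr : Fr.card + Pe.card = (Ed p T).card :=
    Finset.card_sdiff_add_card_eq_card (Finset.filter_subset _ _)
  have mFr : ∀ q, q ∈ Fr ↔ T q.1 q.2 ∧ (p q.1).1 < (p q.2).1 ∧ ¬ Adj q.1 q.2 := by
    intro q
    simp only [hFr, hPe, Ed, Finset.mem_sdiff, Finset.mem_filter, Finset.mem_univ, true_and]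
    tauto
  have hFV : Fr ⊆ Vis p := by
    intro q hq
    obtain ⟨hT, hx, hA⟩ := (mFr q).1 hq
    simp only [Vis, Finset.mem_filter, Finset.mem_univ, true_and]
    refine ⟨hx, hA, fun c => h.clear hT, fun i z hz hz' => hA ?_⟩
    rcases h.nc hT (hP i) hz hz' with ⟨e1, e2⟩ | ⟨e1, e2⟩
    · left; rw [e1, e2]
    · right; rw [e1, e2]
  have c1 := Finset.card_le_card hFV
  refine ⟨by omega, fun hns => ?_⟩
  -- one-sided edges
  set OSs : Finset (Fin n × Fin n) := (Ed p T).filter fun q => OS p q.1 q.2 with hOSs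
  have cOS : OSs.card ≤ (UHs p).card + (LHs p).card + 2 := card_OS h hX (by omega)
  set S1 : Finset (Fin n) := Finset.univ.filter fun i => i ∉ NH p ∧ i + 1 ∉ NH p with hS1
  have cS1 : n ≤ S1.card + 2 * (NH p).card := by
    have hsub : (Finset.univ : Finset (Fin n)) ⊆
        (S1 ∪ NH p) ∪ Finset.univ.filter (fun i => i + 1 ∈ NH p) := by
      intro i _
      simp only [hS1, Finset.mem_union, Finset.mem_filter, Finset.mem_univ, true_and]
      tauto
    have h3 : (Finset.univ.filter (fun i => i + 1 ∈ NH p)).card ≤ (NH p).card := by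
      refine Finset.card_le_card_of_injOn (fun i => i + 1) ?_ ?_
      · intro i hi
        simpa using hi
      · intro i _ j _ e
        exact add_right_cancel e
    have h4 := Finset.card_le_card hsub
    rw [Finset.card_univ, Fintype.card_fin] at h4
    have h5 := Finset.card_union_le (S1 ∪ NH p) (Finset.univ.filter (fun i => i + 1 ∈ NH p))
    have h6 := Finset.card_union_le S1 (NH p)
    omega
  have cS2 : S1.card ≤ (OSs ∩ Pe).card := by
    refine Finset.card_le_card_of_injOn s ?_ (hsinj.injOn)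
    intro i hi
    simp only [hS1, Finset.coe_filter, Finset.mem_univ, true_and, Set.mem_setOf_eq] at hi
    have hos := one_sided h hn hP (sup_of hX hnc (by omega) hi.1) (sup_of hX hnc (by omega) hi.2)
    obtain ⟨k1, k2⟩ := hsE i
    simp only [Finset.coe_inter, Set.mem_inter_iff, Finset.mem_coe, hOSs, hPe, Finset.mem_filter]
    refine ⟨⟨k1, ?_⟩, k1, k2⟩
    rw [hs]
    simp only
    split_ifs
    · exact hos
    · exact hos.symm
  have cFO : (OSs \ Pe).card + (OSs ∩ Pe).card = OSs.card := Finset.card_sdiff_add_card_inter _ _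
  -- blocked edges
  set BP : Finset (Fin n × Fin n) := Finset.univ.filter fun q =>
    T q.1 q.2 ∧ ¬ Adj q.1 q.2 ∧ Blk' p T q.1 q.2 with hBP
  have hpm : ∀ w, T w (w - 1) := by
    intro w
    have := hP (w - 1)
    rw [sub_add_cancel] at this
    exact h.symm this
  have hpm' : ∀ w : Fin n, w + 1 ≠ w - 1 := by
    intro w e
    apply add2_ne hn w
    rw [e, sub_add_cancel]
  have nadj : ∀ {w d : Fin n}, ¬ Adj w d → w + 1 ≠ d ∧ w - 1 ≠ d := by
    intro w d hA
    constructor
    · intro e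
      exact hA (Or.inl e.symm)
    · intro e
      exact hA (Or.inr (by rw [← e, sub_add_cancel]))
  have cBP : BP.card ≤ 2 * (NH p).card := by
    refine Finset.card_le_mul_card_image_of_maps_to (f := fun q : Fin n × Fin n => q.1) ?_ 2 ?_
    · rintro ⟨w, d⟩ hq
      simp only [hBP, Finset.mem_filter, Finset.mem_univ, true_and] at hq
      obtain ⟨hT, hA, hB⟩ := hq
      simp only
      by_contra hw
      obtain ⟨α, β, s1, u, s2⟩ := sup_of hX hnc (by omega) hw
      exact hns w (hull_blk h s1 s2 (hP w) (hpm w) (nadj hA).1 (nadj hA).2 hB)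
    · intro w _
      by_contra hcon
      push_neg at hcon
      rw [Finset.two_lt_card_iff] at hcon
      obtain ⟨⟨w1, d1⟩, ⟨w2, d2⟩, ⟨w3, d3⟩, m1, m2, m3, n1, n2, n3⟩ := hcon
      simp only [hBP, Finset.mem_filter, Finset.mem_univ, true_and] at m1 m2 m3
      obtain ⟨⟨t1, a1, b1⟩, rfl⟩ := m1
      obtain ⟨⟨t2, a2, b2⟩, rfl⟩ := m2
      obtain ⟨⟨t3, a3, b3⟩, rfl⟩ := m3
      exact three_blk h t1 t2 t3 (hP _) (hpm _) (hpm' _)
        (fun e => n1 (by rw [e])) (fun e => n2 (by rw [e])) (fun e => n3 (by rw [e]))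
        (nadj a1).1 (nadj a2).1 (nadj a3).1 (nadj a1).2 (nadj a2).2 (nadj a3).2
        (b1.blk h) (b2.blk h) (b3.blk h)
  set FB : Finset (Fin n × Fin n) := Fr.filter fun q => Blk' p T q.1 q.2 ∨ Blk' p T q.2 q.1
    with hFB
  have cFB : FB.card ≤ BP.card := by
    refine Finset.card_le_card_of_injOn
      (fun q => if Blk' p T q.1 q.2 then q else (q.2, q.1)) ?_ ?_
    · rintro q hq
      simp only [hFB, Finset.coe_filter, Set.mem_setOf_eq] at hq
      obtain ⟨hq, hb⟩ := hq
      obtain ⟨hT, hx, hA⟩ := (mFr q).1 hq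
      simp only [hBP, Finset.coe_filter, Finset.mem_univ, true_and, Set.mem_setOf_eq]
      by_cases hb' : Blk' p T q.1 q.2
      · simp only [if_pos hb']
        exact ⟨hT, hA, hb'⟩
      · simp only [if_neg hb']
        exact ⟨h.symm hT, fun k => hA k.symm, hb.resolve_left hb'⟩
    · rintro ⟨a, b⟩ hq ⟨a', b'⟩ hq' e
      simp only [hFB, Finset.coe_filter, Set.mem_setOf_eq] at hq hq'
      have x1 := ((mFr _).1 hq.1).2.1
      have x2 := ((mFr _).1 hq'.1).2.1
      simp only at x1 x2 e
      split_ifs at e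
      · exact e
      · obtain ⟨e1, e2⟩ := Prod.ext_iff.1 e
        simp only at e1 e2
        rw [e1, e2] at x1
        linarith
      · obtain ⟨e1, e2⟩ := Prod.ext_iff.1 e
        simp only at e1 e2
        rw [e1, e2] at x1
        linarith
      · obtain ⟨e1, e2⟩ := Prod.ext_iff.1 e
        simp only at e1 e2
        rw [e1, e2]
  -- flips
  set FG : Finset (Fin n × Fin n) := Fr \ ((OSs \ Pe) ∪ FB) with hFG
  have cFG : Fr.card ≤ FG.card + ((OSs \ Pe).card + FB.card) := by
    have hsub : Fr ⊆ FG ∪ ((OSs \ Pe) ∪ FB) := by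
      intro q hq
      rw [hFG, Finset.mem_union, Finset.mem_sdiff]
      tauto
    have h4 := Finset.card_le_card hsub
    have h5 := Finset.card_union_le FG ((OSs \ Pe) ∪ FB)
    have h6 := Finset.card_union_le (OSs \ Pe) FB
    omega
  have hflip : ∀ q ∈ FG, ∃ r : Fin n × Fin n, (p r.1).1 < (p r.2).1 ∧ ¬ T r.1 r.2 ∧
      (∀ e, p e ∉ openSegment ℝ (p r.1) (p r.2)) ∧
      (∃ x, x ∈ openSegment ℝ (p r.1) (p r.2) ∧ x ∈ openSegment ℝ (p q.1) (p q.2)) ∧
      (∀ e f x, T e f → x ∈ openSegment ℝ (p r.1) (p r.2) → x ∈ openSegment ℝ (p e) (p f) →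
        (e = q.1 ∧ f = q.2) ∨ (e = q.2 ∧ f = q.1)) := by
    intro q hq
    rw [hFG, Finset.mem_sdiff, Finset.mem_union, not_or] at hq
    obtain ⟨hq1, hq2, hq3⟩ := hq
    have hqFr := hq1
    obtain ⟨hT, hx, hA⟩ := (mFr q).1 hq1
    have hOS : ¬ OS p q.1 q.2 := by
      intro hos
      apply hq2
      rw [Finset.mem_sdiff]
      rw [hFr, Finset.mem_sdiff] at hq1
      exact ⟨by rw [hOSs, Finset.mem_filter]; exact ⟨hq1.1, hos⟩, hq1.2⟩
    have hB : ¬ (Blk' p T q.1 q.2 ∨ Blk' p T q.2 q.1) := by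
      intro hb
      apply hq3
      rw [hFB, Finset.mem_filter]
      exact ⟨hqFr, hb⟩
    rw [OS, not_or] at hOS
    obtain ⟨o1, o2⟩ := hOS
    push_neg at o1 o2
    rcases flip_or h hT o1 o2 with k | k | ⟨a, b, hab, hnT, hcl, ⟨x, x1, x2⟩, hon⟩
    · exact absurd (Or.inl k) hB
    · exact absurd (Or.inr k) hB
    · rcases lt_trichotomy (p a).1 (p b).1 with k | k | k
      · exact ⟨(a, b), k, hnT, hcl, ⟨x, x1, x2⟩, hon⟩
      · exact absurd (hX k) hab
      · exact ⟨(b, a), k, fun hT' => hnT (h.symm hT'), fun e he => hcl e (os_symm he),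
          ⟨x, os_symm x1, x2⟩, fun e f x hT' hx hx' => hon e f x hT' (os_symm hx) hx'⟩
  choose! g g1 g2 g3 g4 g5 using hflip
  have mFG : ∀ q ∈ FG, T q.1 q.2 ∧ (p q.1).1 < (p q.2).1 ∧ ¬ Adj q.1 q.2 := by
    intro q hq
    rw [hFG, Finset.mem_sdiff] at hq
    exact (mFr q).1 hq.1
  have cimg : (FG.image g).card = FG.card := by
    refine Finset.card_image_of_injOn ?_
    intro q hq q' hq' e
    obtain ⟨x, x1, x2⟩ := g4 q' hq'
    rw [← e] at x1
    have m' := mFG q' hq'
    have m := mFG q hq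
    rcases g5 q hq q'.1 q'.2 x m'.1 x1 x2 with ⟨e1, e2⟩ | ⟨e1, e2⟩
    · exact Prod.ext e1.symm e2.symm
    · exfalso
      have := m'.2.1
      rw [e1, e2] at this
      linarith [m.2.1]
  have himg : FG.image g ⊆ Vis p := by
    intro r hr
    obtain ⟨q, hq, rfl⟩ := Finset.mem_image.1 hr
    simp only [Vis, Finset.mem_filter, Finset.mem_univ, true_and]
    have m := mFG q hq
    refine ⟨g1 q hq, ?_, g3 q hq, ?_⟩
    · rintro (e | e)
      · apply g2 q hq
        rw [e]
        exact hP _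
      · apply g2 q hq
        rw [e]
        exact h.symm (hP _)
    · intro i z hz hz'
      apply m.2.2
      rcases g5 q hq i (i + 1) z (hP i) hz hz' with ⟨e1, e2⟩ | ⟨e1, e2⟩
      · left; rw [← e1, ← e2]
      · right; rw [← e1, ← e2]
  have hdis : Disjoint Fr (FG.image g) := by
    rw [Finset.disjoint_left]
    intro r hr hr'
    obtain ⟨q, hq, rfl⟩ := Finset.mem_image.1 hr'
    exact g2 q hq ((mFr _).1 hr).1
  have cV : Fr.card + FG.card ≤ (Vis p).card := by
    rw [← cimg, ← Finset.card_union_of_disjoint hdis]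
    exact Finset.card_le_card (Finset.union_subset hFV himg)
  omega

end Pool.Agent.KS6_78.DG
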