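import Pool.Agent.KS6_78.DG.H

set_option autoImplicit false

namespace Pool.Agent.KS6_78.DG

open Set

variable {n : ℕ} {p : Fin n → Pt}

theorem exists_T [NeZero n] (hn : 3 ≤ n) (hinj : Function.Injective p)
    (hcl : ∀ i c, p c ∉ openSegment ℝ (p i) (p (i + 1)))
    (hdj : ∀ i j z, i ≠ j → z ∈ openSegment ℝ (p i) (p (i + 1)) →
      z ∉ openSegment ℝ (p j) (p (j + 1))) :
    ∃ T : Fin n → Fin n → Prop, Tri p T ∧ ∀ i, T i (i + 1) := by
  classical
  obtain ⟨good, hgood⟩ : ∃ good : Finset (Fin n × Fin n) → Prop, ∀ S, good S ↔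
      ((∀ i, (i, i + 1) ∈ S) ∧ (∀ q ∈ S, q.1 ≠ q.2 ∧ ∀ c, p c ∉ openSegment ℝ (p q.1) (p q.2)) ∧
      ∀ q ∈ S, ∀ r ∈ S, ∀ z, z ∈ openSegment ℝ (p q.1) (p q.2) →
        z ∈ openSegment ℝ (p r.1) (p r.2) → q = r ∨ q = (r.2, r.1)) := ⟨_, fun S => Iff.rfl⟩
  have h0 : good (Finset.univ.image fun i => (i, i + 1)) := by
    rw [hgood]
    refine ⟨fun i => Finset.mem_image.2 ⟨i, Finset.mem_univ _, rfl⟩, ?_, ?_⟩
    · intro q hq
      obtain ⟨i, -, rfl⟩ := Finset.mem_image.1 hq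
      exact ⟨(add1_ne hn i).symm, hcl i⟩
    · intro q hq r hr z hz hz'
      obtain ⟨i, -, rfl⟩ := Finset.mem_image.1 hq
      obtain ⟨j, -, rfl⟩ := Finset.mem_image.1 hr
      left
      by_contra hne
      exact hdj i j z (fun e => hne (by rw [e])) hz hz'
  obtain ⟨S, hS, hmax⟩ := Finset.exists_max_image (Finset.univ.filter good) Finset.card
    ⟨_, by rw [Finset.mem_filter]; exact ⟨Finset.mem_univ _, h0⟩⟩
  have hS' : good S := (Finset.mem_filter.1 hS).2
  obtain ⟨g1, g2, g3⟩ := (hgood S).1 hS'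
  refine ⟨fun a b => (a, b) ∈ S ∨ (b, a) ∈ S, ⟨hinj, ?_, ?_, ?_, ?_, ?_⟩, fun i => Or.inl (g1 i)⟩
  · intro a b hab
    exact hab.symm
  · intro a haa
    rcases haa with k | k <;> exact (g2 _ k).1 rfl
  · intro a b c hab
    rcases hab with k | k
    · exact (g2 _ k).2 c
    · intro hc
      exact (g2 _ k).2 c (os_symm hc)
  · intro a b c d z hab hcd hz hz'
    rcases hab with k | k <;> rcases hcd with l | l
    · rcases g3 _ k _ l z hz hz' with e | e
      · obtain ⟨e1, e2⟩ := Prod.ext_iff.1 e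
        exact Or.inl ⟨e1, e2⟩
      · obtain ⟨e1, e2⟩ := Prod.ext_iff.1 e
        exact Or.inr ⟨e1, e2⟩
    · rcases g3 _ k _ l z hz (os_symm hz') with e | e
      · obtain ⟨e1, e2⟩ := Prod.ext_iff.1 e
        exact Or.inr ⟨e1, e2⟩
      · obtain ⟨e1, e2⟩ := Prod.ext_iff.1 e
        exact Or.inl ⟨e1, e2⟩
    · rcases g3 _ k _ l z (os_symm hz) hz' with e | e
      · obtain ⟨e1, e2⟩ := Prod.ext_iff.1 e
        exact Or.inr ⟨e2, e1⟩
      · obtain ⟨e1, e2⟩ := Prod.ext_iff.1 e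
        exact Or.inl ⟨e2, e1⟩
    · rcases g3 _ k _ l z (os_symm hz) (os_symm hz') with e | e
      · obtain ⟨e1, e2⟩ := Prod.ext_iff.1 e
        exact Or.inl ⟨e2, e1⟩
      · obtain ⟨e1, e2⟩ := Prod.ext_iff.1 e
        exact Or.inr ⟨e2, e1⟩
  · intro a b hab hc hd
    by_contra hT
    rw [not_or] at hT
    have hno : ∀ q ∈ S, ∀ z, z ∈ openSegment ℝ (p a) (p b) → z ∉ openSegment ℝ (p q.1) (p q.2) :=
      fun q hq z hz => hd q.1 q.2 z (Or.inl hq) hz
    have hg : good (insert (a, b) S) := by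
      rw [hgood]
      refine ⟨fun i => Finset.mem_insert_of_mem (g1 i), ?_, ?_⟩
      · intro q hq
        rcases Finset.mem_insert.1 hq with rfl | hq
        · exact ⟨hab, hc⟩
        · exact g2 q hq
      · intro q hq r hr z hz hz'
        rcases Finset.mem_insert.1 hq with rfl | hq <;> rcases Finset.mem_insert.1 hr with rfl | hr
        · exact Or.inl rfl
        · exact absurd hz' (hno r hr z hz)
        · exact absurd hz (hno q hq z hz')
        · exact g3 q hq r hr z hz hz'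
    have := hmax _ (by rw [Finset.mem_filter]; exact ⟨Finset.mem_univ _, hg⟩)
    rw [Finset.card_insert_of_notMem hT.1] at this
    omega

/-- a shear -/
def sh (ε : ℝ) (x : Pt) : Pt := (x.1 + ε * x.2, x.2)

theorem sh_sh (ε : ℝ) (x : Pt) : sh (-ε) (sh ε x) = x := by
  unfold sh
  ext
  · simp only; ring
  · rfl

theorem sh_os {ε : ℝ} {a b z : Pt} (h : z ∈ openSegment ℝ a b) :
    sh ε z ∈ openSegment ℝ (sh ε a) (sh ε b) := by
  obtain ⟨t, t0, t1, e1, e2⟩ := mem_os.1 h
  refine mem_os.2 ⟨t, t0, t1, ?_, ?_⟩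
  · simp only [sh]; rw [e1, e2]; ring
  · simp only [sh]; rw [e2]

theorem sh_os' {ε : ℝ} {a b z : Pt} (h : z ∈ openSegment ℝ (sh ε a) (sh ε b)) :
    sh (-ε) z ∈ openSegment ℝ a b := by
  have := sh_os (ε := -ε) h
  rwa [sh_sh, sh_sh] at this

theorem sh_os'' {ε : ℝ} {a b z : Pt} (h : sh ε z ∈ openSegment ℝ (sh ε a) (sh ε b)) :
    z ∈ openSegment ℝ a b := by
  have := sh_os' h
  rwa [sh_sh] at this

theorem sh_D (ε : ℝ) (a b c : Pt) : D (sh ε a) (sh ε b) (sh ε c) = D a b c := by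
  simp only [D, sh]; ring

theorem exists_sh (hinj : Function.Injective p) :
    ∃ ε : ℝ, Function.Injective fun i => (sh ε (p i)).1 := by
  classical
  obtain ⟨ε, hε⟩ := Infinite.exists_notMem_finset
    ((Finset.univ : Finset (Fin n × Fin n)).image fun q =>
      ((p q.1).1 - (p q.2).1) / ((p q.2).2 - (p q.1).2))
  refine ⟨ε, fun i j hij => ?_⟩
  simp only [sh] at hij
  by_contra hne
  by_cases hy : (p j).2 - (p i).2 = 0
  · apply hne
    apply hinj
    have e2 : (p i).2 = (p j).2 := by linarith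
    exact Prod.ext (by rw [e2] at hij; linarith) e2
  · apply hε
    rw [Finset.mem_image]
    refine ⟨(i, j), Finset.mem_univ _, ?_⟩
    simp only
    rw [div_eq_iff hy]
    linarith

open Classical in
/-- the visible pairs -/
noncomputable def VisP [NeZero n] (p : Fin n → Pt) : Finset (Fin n × Fin n) :=
  Finset.univ.filter fun q => q.1 < q.2 ∧ ¬ Adj q.1 q.2 ∧
    (∀ c, p c ∉ openSegment ℝ (p q.1) (p q.2)) ∧
    ∀ i z, z ∈ openSegment ℝ (p q.1) (p q.2) → z ∉ openSegment ℝ (p i) (p (i + 1))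

theorem visP_bound [NeZero n] (hn : 3 ≤ n) (hinj : Function.Injective p)
    (hcl : ∀ i c, p c ∉ openSegment ℝ (p i) (p (i + 1)))
    (hdj : ∀ i j z, i ≠ j → z ∈ openSegment ℝ (p i) (p (i + 1)) →
      z ∉ openSegment ℝ (p j) (p (j + 1))) :
    n ≤ (VisP p).card + 3 ∧
    ((∀ i, D (p i) (p (i + 1)) (p (i - 1)) ≠ 0) → 3 * n ≤ 2 * (VisP p).card + 9) := by
  classical
  obtain ⟨ε, hε⟩ := exists_sh hinj
  obtain ⟨p', hp'⟩ : ∃ p' : Fin n → Pt, ∀ i, p' i = sh ε (p i) := ⟨_, fun i => rfl⟩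
  have hX : Function.Injective fun i => (p' i).1 := by
    intro i j hij
    simp only [hp'] at hij
    exact hε hij
  have hinj' : Function.Injective p' := fun i j hij => hX (by simp only; rw [hij])
  have hcl' : ∀ i c, p' c ∉ openSegment ℝ (p' i) (p' (i + 1)) := by
    intro i c hc
    rw [hp', hp', hp'] at hc
    exact hcl i c (sh_os'' hc)
  have hdj' : ∀ i j z, i ≠ j → z ∈ openSegment ℝ (p' i) (p' (i + 1)) →
      z ∉ openSegment ℝ (p' j) (p' (j + 1)) := by
    intro i j z hij h1 h2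
    rw [hp', hp'] at h1 h2
    exact hdj i j _ hij (sh_os' h1) (sh_os' h2)
  obtain ⟨T, hT, hP⟩ := exists_T hn hinj' hcl' hdj'
  obtain ⟨b1, b2⟩ := vis_bound hT hX hn hP
  have hcard : (Vis p').card ≤ (VisP p).card := by
    refine Finset.card_le_card_of_injOn (fun q => if q.1 < q.2 then q else (q.2, q.1)) ?_ ?_
    · rintro q hq
      simp only [Vis, Finset.coe_filter, Finset.mem_univ, true_and, Set.mem_setOf_eq, hp'] at hq
      obtain ⟨x, hA, hc, hd⟩ := hq
      have hne : q.1 ≠ q.2 := by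
        intro e
        rw [e] at x
        exact lt_irrefl _ x
      simp only [VisP, Finset.coe_filter, Finset.mem_univ, true_and, Set.mem_setOf_eq]
      by_cases hlt : q.1 < q.2
      · simp only [if_pos hlt]
        refine ⟨hlt, hA, fun c h1 => hc c (sh_os h1), fun i z h1 h2 => hd i _ (sh_os h1) (sh_os h2)⟩
      · simp only [if_neg hlt]
        refine ⟨lt_of_le_of_ne (not_lt.1 hlt) hne.symm, fun k => hA k.symm,
          fun c h1 => hc c (sh_os (os_symm h1)),
          fun i z h1 h2 => hd i _ (sh_os (os_symm h1)) (sh_os h2)⟩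
    · rintro ⟨a, b⟩ hq ⟨a', b'⟩ hq' e
      simp only [Vis, Finset.coe_filter, Finset.mem_univ, true_and, Set.mem_setOf_eq] at hq hq'
      have x1 := hq.1
      have x2 := hq'.1
      simp only at e
      split_ifs at e
      · exact e
      · obtain ⟨e1, e2⟩ := Prod.ext_iff.1 e
        simp only at e1 e2
        rw [e1, e2] at x1
        linarith
      · obtain ⟨e1, e2⟩ := Prod.ext_iff.1 e
        simp only at e1 e2
        rw [e1, e2] at x1
        linarith
      · obtain ⟨e1, e2⟩ := Prod.ext_iff.1 e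
        simp only at e1 e2
        rw [e1, e2]
  refine ⟨by omega, fun hns => ?_⟩
  have := b2 (fun i => by rw [hp', hp', hp', sh_D]; exact hns i)
  omega

end Pool.Agent.KS6_78.DG
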