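import Pool.Graph.R_seed8.Results.MP_773b78_co.ManyMixed
import Pool.Agent.KS6_78.DG.I

set_option autoImplicit false

namespace Pool.Agent.KS6_78.DG

open Set Pool.Agent.Results.MP_773b78_co.ManyMixed

variable {n : ℕ} {v : ℕ → ℝ × ℝ}

theorem succ_mod_ne {n i : ℕ} (hn : 3 ≤ n) (hi : i < n) : (i + 1) % n ≠ i :=
  modne hi le_rfl (by omega)

theorem end_os {a b : Pt} (hab : a ≠ b) : a ∉ openSegment ℝ a b := by
  rintro h
  obtain ⟨t, t0, t1, e1, e2⟩ := mem_os.1 h
  apply hab
  have h1 : t * (b.1 - a.1) = 0 := by linarith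
  have h2 : t * (b.2 - a.2) = 0 := by linarith
  have h1 := (mul_eq_zero.1 h1).resolve_left t0.ne'
  have h2 := (mul_eq_zero.1 h2).resolve_left t0.ne'
  exact Prod.ext (by linarith) (by linarith)

theorem edge_os {i : ℕ} {z : Pt} (h : z ∈ openSegment ℝ (v i) (v ((i + 1) % n))) :
    z ∈ edge n v i := openSegment_subset_segment ℝ _ _ h

theorem simple_ne (hn : 3 ≤ n) (hv : IsSimple n v) {i : ℕ} (hi : i < n) :
    v i ≠ v ((i + 1) % n) := fun e =>
  succ_mod_ne hn hi (hv.inj i hi _ (Nat.mod_lt _ (by omega)) e).symm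

theorem simple_cl (hn : 3 ≤ n) (hv : IsSimple n v) {i c : ℕ} (hi : i < n) (hc : c < n) :
    v c ∉ openSegment ℝ (v i) (v ((i + 1) % n)) := by
  intro hm
  have hne := simple_ne hn hv hi
  by_cases h1 : c = i
  · rw [h1] at hm
    exact end_os hne hm
  by_cases h2 : c = (i + 1) % n
  · rw [h2] at hm
    exact end_os hne.symm (os_symm hm)
  by_cases h3 : i = (c + 1) % n
  · have h4 : v c ∈ edge n v c ∩ edge n v ((c + 1) % n) := by
      refine ⟨left_mem_segment ℝ _ _, ?_⟩
      rw [← h3]
      exact edge_os hm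
    rw [hv.adj c hc, ← h3] at h4
    exact h1 (hv.inj c hc i hi h4)
  · have h4 := hv.disj i hi c hc (Ne.symm h1) h2 h3
    exact Set.disjoint_left.1 h4 (edge_os hm) (left_mem_segment ℝ _ _)

theorem simple_dj (hn : 3 ≤ n) (hv : IsSimple n v) {i j : ℕ} (hi : i < n) (hj : j < n)
    (hij : i ≠ j) {z : Pt} (h1 : z ∈ openSegment ℝ (v i) (v ((i + 1) % n))) :
    z ∉ openSegment ℝ (v j) (v ((j + 1) % n)) := by
  intro h2
  by_cases k1 : j = (i + 1) % n
  · have h4 : z ∈ edge n v i ∩ edge n v ((i + 1) % n) := by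
      refine ⟨edge_os h1, ?_⟩
      rw [← k1]
      exact edge_os h2
    rw [hv.adj i hi, ← k1, Set.mem_singleton_iff] at h4
    rw [h4] at h2
    exact end_os (simple_ne hn hv hj) h2
  by_cases k2 : i = (j + 1) % n
  · have h4 : z ∈ edge n v j ∩ edge n v ((j + 1) % n) := by
      refine ⟨edge_os h2, ?_⟩
      rw [← k2]
      exact edge_os h1
    rw [hv.adj j hj, ← k2, Set.mem_singleton_iff] at h4
    rw [h4] at h1
    exact end_os (simple_ne hn hv hi) h1
  · exact Set.disjoint_left.1 (hv.disj i hi j hj hij k1 k2) (edge_os h1) (edge_os h2)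

theorem collinear_of_D {a b c : Pt} (hab : a ≠ b) (h : D a b c = 0) : Collinear ℝ {c, a, b} := by
  rw [collinear_iff_of_mem (p₀ := a) (by simp)]
  refine ⟨b - a, ?_⟩
  intro q hq
  simp only [Set.mem_insert_iff, Set.mem_singleton_iff] at hq
  rcases hq with rfl | rfl | rfl
  · by_cases hx : b.1 - a.1 = 0
    · have hy : b.2 - a.2 ≠ 0 := by
        intro hy
        exact hab (Prod.ext (by linarith) (by linarith))
      refine ⟨(q.2 - a.2) / (b.2 - a.2), ?_⟩
      simp only [D, hx] at h
      have h' : (b.2 - a.2) * (q.1 - a.1) = 0 := by linarith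
      have h'' := (mul_eq_zero.1 h').resolve_left hy
      ext
      · simp only [vadd_eq_add, Prod.fst_add, Prod.smul_fst, Prod.fst_sub, smul_eq_mul, hx]
        linarith
      · simp only [vadd_eq_add, Prod.snd_add, Prod.smul_snd, Prod.snd_sub, smul_eq_mul]
        field_simp
        ring
    · refine ⟨(q.1 - a.1) / (b.1 - a.1), ?_⟩
      simp only [D] at h
      ext
      · simp only [vadd_eq_add, Prod.fst_add, Prod.smul_fst, Prod.fst_sub, smul_eq_mul]
        field_simp
        ring
      · simp only [vadd_eq_add, Prod.snd_add, Prod.smul_snd, Prod.snd_sub, smul_eq_mul]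
        field_simp
        linarith
  · exact ⟨0, by simp⟩
  · exact ⟨1, by simp⟩

/-- a segment which avoids the curve is inside or outside -/
theorem not_mixed {j k : ℕ} (h : ∀ z ∈ openSegment ℝ (v j) (v k), z ∉ bdry n v) :
    ¬ Mixed n v j k := by
  rintro ⟨h1, h2⟩
  obtain ⟨x, hx⟩ : (openSegment ℝ (v j) (v k)).Nonempty :=
    ⟨(1 / 2 : ℝ) • v j + (1 / 2 : ℝ) • v k, 1 / 2, 1 / 2, by norm_num, by norm_num,
      by norm_num, rfl⟩
  have hsub : openSegment ℝ (v j) (v k) ⊆ (bdry n v)ᶜ := fun z hz => h z hz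
  have hpre : IsPreconnected (openSegment ℝ (v j) (v k)) :=
    (convex_openSegment (v j) (v k)).isPreconnected
  have hin := hpre.subset_connectedComponentIn hx hsub
  have heq : ∀ y ∈ openSegment ℝ (v j) (v k),
      connectedComponentIn (bdry n v)ᶜ y = connectedComponentIn (bdry n v)ᶜ x :=
    fun y hy => (connectedComponentIn_eq (hin hy)).symm
  by_cases hb : Bornology.IsBounded (connectedComponentIn (bdry n v)ᶜ x)
  · exact h1 fun y hy => ⟨h y hy, by rw [heq y hy]; exact hb⟩
  · exact h2 fun y hy => ⟨h y hy, by rw [heq y hy]; exact hb⟩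

/-- the diagonals -/
def Diags (n : ℕ) : Finset (ℕ × ℕ) :=
  (Finset.range n ×ˢ Finset.range n).filter fun q =>
    q.1 + 1 < q.2 ∧ q.2 < n ∧ ¬ (q.1 = 0 ∧ q.2 = n - 1)

theorem mem_Diags {n : ℕ} {q : ℕ × ℕ} : q ∈ Diags n ↔ IsDiagonal n q.1 q.2 := by
  unfold Diags IsDiagonal
  rw [Finset.mem_filter, Finset.mem_product, Finset.mem_range, Finset.mem_range]
  constructor
  · rintro ⟨-, h⟩
    exact h
  · intro h
    exact ⟨⟨by omega, by omega⟩, h⟩

theorem sum_pred (n : ℕ) : 2 * ∑ k ∈ Finset.range (n + 1), (k - 1) = n * (n - 1) := by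
  induction n with
  | zero => simp
  | succ n ih =>
    rw [Finset.sum_range_succ, mul_add, ih]
    rcases n with _ | n
    · simp
    · simp only [Nat.add_sub_cancel]
      ring

theorem card_Diags {n : ℕ} (hn : 3 ≤ n) : 2 * (Diags n).card + 2 ≤ (n - 1) * (n - 2) := by
  classical
  have h1 : (Diags n).card + 1 ≤ ((Finset.range n).sigma fun k => Finset.range (k - 1)).card := by
    have h2 : (insert (0, n - 1) (Diags n)).card ≤
        ((Finset.range n).sigma fun k => Finset.range (k - 1)).card := by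
      refine Finset.card_le_card_of_injOn (fun q => (⟨q.2, q.1⟩ : Σ _ : ℕ, ℕ)) ?_ ?_
      · rintro ⟨a, b⟩ hq
        rw [Finset.mem_coe, Finset.mem_insert, mem_Diags] at hq
        rw [Finset.mem_coe, Finset.mem_sigma, Finset.mem_range, Finset.mem_range]
        unfold IsDiagonal at hq
        rcases hq with hq | hq
        · obtain ⟨rfl, rfl⟩ := Prod.ext_iff.1 hq
          simp only
          omega
        · simp only at hq ⊢
          omega
      · rintro ⟨a, b⟩ _ ⟨a', b'⟩ _ e
        simp only [Sigma.mk.injEq, heq_eq_eq] at e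
        rw [e.1, e.2]
    rwa [Finset.card_insert_of_notMem] at h2
    rw [mem_Diags]
    unfold IsDiagonal
    simp
  rw [Finset.card_sigma] at h1
  simp only [Finset.card_range] at h1
  have h3 := sum_pred (n - 1)
  rw [show n - 1 + 1 = n by omega, show n - 1 - 1 = n - 2 by omega] at h3
  omega

theorem bounds (hn : 3 ≤ n) (hv : IsSimple n v) : 2 * numMixed n v ≤ (n - 2) * (n - 3) ∧
    (NoStraight n v → 2 * numMixed n v ≤ (n - 3) ^ 2) := by
  classical
  haveI : NeZero n := ⟨by omega⟩
  have hval : ∀ i : Fin n, (i + 1).val = (i.val + 1) % n := by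
    intro i
    rw [Fin.val_add, Fin.val_one', Nat.mod_eq_of_lt (show 1 < n by omega)]
  obtain ⟨p, hp⟩ : ∃ p : Fin n → Pt, ∀ i, p i = v i.val := ⟨_, fun _ => rfl⟩
  have hinj : Function.Injective p := by
    intro i j hij
    rw [hp, hp] at hij
    exact Fin.ext (hv.inj i i.2 j j.2 hij)
  obtain ⟨b1, b2⟩ := visP_bound hn hinj
    (fun i c => by rw [hp, hp, hp, hval]; exact simple_cl hn hv i.2 c.2)
    (fun i j z hij h1 => by
      rw [hp, hp, hval] at h1 ⊢
      exact simple_dj hn hv i.2 j.2 (fun e => hij (Fin.ext e)) h1)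
  -- the visible diagonals are not mixed
  have hfin : Set.Finite {q : ℕ × ℕ | IsDiagonal n q.1 q.2 ∧ Mixed n v q.1 q.2} := by
    refine Set.Finite.subset (Finset.finite_toSet (Diags n)) ?_
    intro q hq
    exact Finset.mem_coe.2 (mem_Diags.2 hq.1)
  have hsum : numMixed n v + (VisP p).card ≤ (Diags n).card := by
    set I : Finset (ℕ × ℕ) := (VisP p).image fun q => (q.1.val, q.2.val) with hI
    have hIc : I.card = (VisP p).card := by
      refine Finset.card_image_of_injective _ ?_
      rintro ⟨a, b⟩ ⟨a', b'⟩ e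
      simp only [Prod.mk.injEq] at e
      rw [Fin.ext e.1, Fin.ext e.2]
    have hIm : ∀ q ∈ I, q ∈ Diags n ∧ ¬ Mixed n v q.1 q.2 := by
      intro q hq
      obtain ⟨⟨a, b⟩, hab, rfl⟩ := Finset.mem_image.1 hq
      simp only [VisP, Finset.mem_filter, Finset.mem_univ, true_and] at hab
      obtain ⟨hlt, hA, hc, hd⟩ := hab
      have hlt' : a.val < b.val := hlt
      constructor
      · rw [mem_Diags]
        unfold IsDiagonal
        simp only
        refine ⟨?_, b.2, ?_⟩
        · by_contra hcon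
          apply hA
          left
          apply Fin.ext
          rw [hval, Nat.mod_eq_of_lt (by have := b.2; omega)]
          omega
        · rintro ⟨h0, h1⟩
          apply hA
          right
          apply Fin.ext
          rw [hval, h0, h1, show n - 1 + 1 = n by omega, Nat.mod_self]
      · refine not_mixed fun z hz hzb => ?_
        simp only at hz
        obtain ⟨i, hi, hzi⟩ := hzb
        unfold edge at hzi
        rw [← insert_endpoints_openSegment] at hzi
        have hz' : z ∈ openSegment ℝ (p a) (p b) := by rw [hp, hp]; exact hz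
        rcases hzi with rfl | rfl | hzi
        · exact hc ⟨i, hi⟩ (by rw [hp ⟨i, hi⟩]; exact hz')
        · exact hc ⟨(i + 1) % n, Nat.mod_lt _ (by omega)⟩
            (by rw [hp ⟨(i + 1) % n, Nat.mod_lt _ (by omega)⟩]; exact hz')
        · refine hd ⟨i, hi⟩ z hz' ?_
          rw [hp, hp, hval]
          exact hzi
    have h1 : {q : ℕ × ℕ | IsDiagonal n q.1 q.2 ∧ Mixed n v q.1 q.2} ⊆
        ((Diags n \ I : Finset (ℕ × ℕ)) : Set (ℕ × ℕ)) := by
      intro q hq
      rw [Finset.mem_coe, Finset.mem_sdiff]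
      exact ⟨mem_Diags.2 hq.1, fun hqI => (hIm q hqI).2 hq.2⟩
    have h2 : numMixed n v ≤ (Diags n \ I).card := by
      unfold numMixed
      rw [← Set.ncard_coe_finset]
      exact Set.ncard_le_ncard h1 (Finset.finite_toSet _)
    have h3 : (Diags n \ I).card + I.card = (Diags n).card :=
      Finset.card_sdiff_add_card_eq_card fun q hq => (hIm q hq).1
    omega
  have hD := card_Diags hn
  obtain ⟨m, rfl⟩ := Nat.exists_eq_add_of_le hn
  have e1 : 3 + m - 1 = m + 2 := by omega
  have e2 : 3 + m - 2 = m + 1 := by omega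
  have e3 : 3 + m - 3 = m := by omega
  rw [e1, e2] at hD
  rw [e2, e3]
  refine ⟨by nlinarith, fun hns => ?_⟩
  have := b2 (fun i h0 => by
    have hi := (i - 1).2
    apply hns (i - 1).val hi
    have v1 : ((i - 1).val + 1) % (3 + m) = i.val := by
      rw [← hval, sub_add_cancel]
    have v2 : ((i - 1).val + 2) % (3 + m) = (i + 1).val := by
      rw [hval, ← v1, Nat.mod_add_mod]
    rw [v1, v2]
    have hne : p i ≠ p (i + 1) := fun e => add1_ne hn i (hinj e).symm
    have := collinear_of_D hne h0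
    rw [hp, hp, hp] at this
    exact this)
  nlinarith

end Pool.Agent.KS6_78.DG
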