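import Pool.Agent.KS6_78.DG.J
import Pool.Agent.KS6_78.DG.GP

set_option autoImplicit false

namespace Pool.Agent.KS6_78.DG

open Set Pool.Agent.Results.MP_773b78_co.ManyMixed

/-! ### A polygon in general position with many mixed diagonals -/

theorem Spos {a b c δ ya yc : ℝ} (ha : 0 ≤ a) (hab : a < b) (hbc : b < c) (hδ : 0 < δ)
    (hc : δ * c ^ 2 ≤ 1 / 100) (hya : ya = 1 - δ * a ^ 2 ∨ ya = δ * a ^ 2)
    (hyc : yc = 1 - δ * c ^ 2 ∨ yc = δ * c ^ 2) :
    0 < (c - a) * ((1 - δ * b ^ 2) - ya) - (yc - ya) * (b - a) := by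
  have h0 : 0 ≤ δ * a ^ 2 := by positivity
  have h1 : δ * a ^ 2 ≤ δ * b ^ 2 := mul_le_mul_of_nonneg_left (by nlinarith) hδ.le
  have h2 : δ * b ^ 2 ≤ δ * c ^ 2 := mul_le_mul_of_nonneg_left (by nlinarith) hδ.le
  have h3 : δ * ((c - a) * (a + b)) ≤ 2 * (δ * c ^ 2) := by
    have : (c - a) * (a + b) ≤ 2 * c ^ 2 := by nlinarith
    nlinarith [mul_le_mul_of_nonneg_left this hδ.le]
  have p1 : 0 < c - a := by linarith
  have p2 : 0 < b - a := by linarith
  have p3 : 0 < c - b := by linarith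
  rcases hya with rfl | rfl <;> rcases hyc with rfl | rfl
  · have : (c - a) * ((1 - δ * b ^ 2) - (1 - δ * a ^ 2)) -
        ((1 - δ * c ^ 2) - (1 - δ * a ^ 2)) * (b - a) = δ * ((c - a) * (b - a) * (c - b)) := by ring
    rw [this]
    positivity
  · have : (c - a) * ((1 - δ * b ^ 2) - (1 - δ * a ^ 2)) -
        (δ * c ^ 2 - (1 - δ * a ^ 2)) * (b - a) =
        (b - a) * ((1 - δ * c ^ 2 - δ * a ^ 2) - δ * ((c - a) * (a + b))) := by ring
    rw [this]
    exact mul_pos p2 (by linarith)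
  · have : (c - a) * ((1 - δ * b ^ 2) - δ * a ^ 2) -
        ((1 - δ * c ^ 2) - δ * a ^ 2) * (b - a) =
        (c - b) * (1 - δ * c ^ 2 - δ * a ^ 2) + (c - a) * (δ * c ^ 2 - δ * b ^ 2) := by ring
    rw [this]
    have q1 : 0 < (c - b) * (1 - δ * c ^ 2 - δ * a ^ 2) := mul_pos p3 (by linarith)
    have q2 : 0 ≤ (c - a) * (δ * c ^ 2 - δ * b ^ 2) := mul_nonneg p1.le (by linarith)
    linarith
  · have : (c - a) * ((1 - δ * b ^ 2) - δ * a ^ 2) - (δ * c ^ 2 - δ * a ^ 2) * (b - a) =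
        (c - b) * (1 - δ * b ^ 2 - δ * a ^ 2) + (b - a) * (1 - δ * b ^ 2 - δ * c ^ 2) := by ring
    rw [this]
    have q1 : 0 < (c - b) * (1 - δ * b ^ 2 - δ * a ^ 2) := mul_pos p3 (by linarith)
    have q2 : 0 < (b - a) * (1 - δ * b ^ 2 - δ * c ^ 2) := mul_pos p2 (by linarith)
    linarith

theorem Apos {a b M δ : ℝ} (ha : 0 ≤ a) (hab : a < b) (hb : b ≤ M) (hδ : 0 < δ)
    (hM : δ * (M + 1) ^ 2 = 1 / 100) :
    0 < (4 * M + 4 - a) * ((1 - δ * b ^ 2) - δ * a ^ 2) - (2 - δ * a ^ 2) * (b - a) := by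
  have h0 : 0 ≤ δ * a ^ 2 := by positivity
  have h1 : δ * a ^ 2 ≤ δ * b ^ 2 := mul_le_mul_of_nonneg_left (by nlinarith) hδ.le
  have h2 : δ * b ^ 2 ≤ δ * (M + 1) ^ 2 := mul_le_mul_of_nonneg_left (by nlinarith) hδ.le
  have q1 : (4 * M + 4 - a) * (98 / 100) ≤ (4 * M + 4 - a) * ((1 - δ * b ^ 2) - δ * a ^ 2) :=
    mul_le_mul_of_nonneg_left (by linarith) (by linarith)
  have q2 : (2 - δ * a ^ 2) * (b - a) ≤ 2 * (b - a) :=
    mul_le_mul_of_nonneg_right (by linarith) (by linarith)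
  linarith

theorem Aneg {a b M δ ya yb : ℝ} (ha : 0 ≤ a) (hab : a < b) (hb : b ≤ M) (hδ : 0 < δ)
    (hM : δ * (M + 1) ^ 2 = 1 / 100)
    (hy : (ya = 1 - δ * a ^ 2 ∧ yb = 1 - δ * b ^ 2) ∨ (ya = 1 - δ * a ^ 2 ∧ yb = δ * b ^ 2) ∨
      (ya = δ * a ^ 2 ∧ yb = δ * b ^ 2)) :
    (4 * M + 4 - a) * (yb - ya) - (2 - ya) * (b - a) < 0 := by
  have h0 : 0 ≤ δ * a ^ 2 := by positivity
  have h1 : δ * a ^ 2 ≤ δ * b ^ 2 := mul_le_mul_of_nonneg_left (by nlinarith) hδ.le
  have h2 : δ * b ^ 2 ≤ δ * (M + 1) ^ 2 := mul_le_mul_of_nonneg_left (by nlinarith) hδ.le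
  have p0 : 0 < 4 * M + 4 - a := by linarith
  have p2 : 0 < b - a := by linarith
  rcases hy with ⟨rfl, rfl⟩ | ⟨rfl, rfl⟩ | ⟨rfl, rfl⟩
  · have q1 : (4 * M + 4 - a) * ((1 - δ * b ^ 2) - (1 - δ * a ^ 2)) ≤ 0 :=
      mul_nonpos_of_nonneg_of_nonpos p0.le (by linarith)
    have q2 : 0 < (2 - (1 - δ * a ^ 2)) * (b - a) := mul_pos (by linarith) p2
    linarith
  · have q1 : (4 * M + 4 - a) * (δ * b ^ 2 - (1 - δ * a ^ 2)) ≤ 0 :=
      mul_nonpos_of_nonneg_of_nonpos p0.le (by linarith)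
    have q2 : 0 < (2 - (1 - δ * a ^ 2)) * (b - a) := mul_pos (by linarith) p2
    linarith
  · have e : (4 * M + 4 - a) * (δ * b ^ 2 - δ * a ^ 2) - (2 - δ * a ^ 2) * (b - a) =
        (b - a) * (δ * ((4 * M + 4 - a) * (a + b)) - (2 - δ * a ^ 2)) := by ring
    rw [e]
    have q3 : (4 * M + 4 - a) * (a + b) ≤ 8 * (M + 1) ^ 2 := by nlinarith
    have q4 := mul_le_mul_of_nonneg_left q3 hδ.le
    exact mul_neg_of_pos_of_neg p2 (by linarith)

/-- the perturbation -/
noncomputable def dl (m : ℕ) : ℝ := 1 / (100 * ((m : ℝ) + 1) ^ 2)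

noncomputable def yy (m i : ℕ) : ℝ := if Even i then 1 - dl m * (i : ℝ) ^ 2 else dl m * (i : ℝ) ^ 2

/-- the polygon -/
noncomputable def G (m i : ℕ) : ℝ × ℝ := if i ≤ m then ((i : ℝ), yy m i) else (4 * (m : ℝ) + 4, 2)

theorem dl_pos (m : ℕ) : 0 < dl m := by unfold dl; positivity
theorem dl_eq (m : ℕ) : dl m * ((m : ℝ) + 1) ^ 2 = 1 / 100 := by unfold dl; field_simp

theorem dl_le {m i : ℕ} (hi : i ≤ m) : dl m * (i : ℝ) ^ 2 ≤ 1 / 100 := by
  rw [← dl_eq m]
  have : (i : ℝ) ≤ m := by exact_mod_cast hi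
  have h0 : (0 : ℝ) ≤ i := Nat.cast_nonneg i
  exact mul_le_mul_of_nonneg_left (by nlinarith) (dl_pos m).le

theorem yy_even {m i : ℕ} (hi : Even i) : yy m i = 1 - dl m * (i : ℝ) ^ 2 := if_pos hi
theorem yy_odd {m i : ℕ} (hi : ¬ Even i) : yy m i = dl m * (i : ℝ) ^ 2 := if_neg hi
theorem yy_or (m i : ℕ) : yy m i = 1 - dl m * (i : ℝ) ^ 2 ∨ yy m i = dl m * (i : ℝ) ^ 2 := by
  by_cases h : Even i
  · exact Or.inl (yy_even h)
  · exact Or.inr (yy_odd h)
theorem yy_le {m i : ℕ} (hi : i ≤ m) : yy m i ≤ 1 := by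
  have h1 := dl_le hi
  have h0 : 0 ≤ dl m * (i : ℝ) ^ 2 := mul_nonneg (dl_pos m).le (by positivity)
  rcases yy_or m i with e | e <;> rw [e] <;> linarith
theorem G_le {m i : ℕ} (hi : i ≤ m) : G m i = ((i : ℝ), yy m i) := if_pos hi
theorem G_apex (m : ℕ) : G m (m + 1) = (4 * (m : ℝ) + 4, 2) := if_neg (by omega)

theorem D_chain {m i j k : ℕ} (hij : i < j) (hjk : j < k) (hk : k ≤ m) :
    (Even j → 0 < D (G m i) (G m k) (G m j)) ∧ (¬ Even j → D (G m i) (G m k) (G m j) < 0) := by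
  have hij' : (i : ℝ) < j := by exact_mod_cast hij
  have hjk' : (j : ℝ) < k := by exact_mod_cast hjk
  rw [G_le (by omega), G_le (by omega), G_le (by omega)]
  simp only [D]
  constructor
  · intro hj
    rw [yy_even hj]
    exact Spos (Nat.cast_nonneg i) hij' hjk' (dl_pos m) (dl_le hk) (yy_or m i) (yy_or m k)
  · intro hj
    rw [yy_odd hj]
    have := Spos (ya := 1 - yy m i) (yc := 1 - yy m k) (Nat.cast_nonneg i) hij' hjk' (dl_pos m)
      (dl_le hk) (by rcases yy_or m i with e | e <;> rw [e] <;> simp)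
      (by rcases yy_or m k with e | e <;> rw [e] <;> simp)
    linarith

theorem D_apex {m i j : ℕ} (hij : i < j) (hj : j ≤ m) :
    (¬ Even i → Even j → 0 < D (G m i) (G m (m + 1)) (G m j)) ∧
    ((Even i ∨ ¬ Even j) → D (G m i) (G m (m + 1)) (G m j) < 0) := by
  have hij' : (i : ℝ) < j := by exact_mod_cast hij
  have hj' : (j : ℝ) ≤ m := by exact_mod_cast hj
  rw [G_le (i := i) (by omega), G_le (i := j) (by omega), G_apex]
  simp only [D]
  constructor
  · intro h1 h2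
    rw [yy_odd h1, yy_even h2]
    exact Apos (Nat.cast_nonneg i) hij' hj' (dl_pos m) (dl_eq m)
  · intro h
    refine Aneg (Nat.cast_nonneg i) hij' hj' (dl_pos m) (dl_eq m) ?_
    by_cases h1 : Even i <;> by_cases h2 : Even j
    · exact Or.inl ⟨yy_even h1, yy_even h2⟩
    · exact Or.inr (Or.inl ⟨yy_even h1, yy_odd h2⟩)
    · exact absurd h (by tauto)
    · exact Or.inr (Or.inr ⟨yy_odd h1, yy_odd h2⟩)

theorem GenPos.noStraight {n : ℕ} {v : ℕ → ℝ × ℝ} (hn : 3 ≤ n) (h : GenPos n v) :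
    NoStraight n v := by
  intro i hi
  refine h i _ _ hi (Nat.mod_lt _ (by omega)) (Nat.mod_lt _ (by omega))
    (modne hi le_rfl (by omega)).symm ?_ (modne hi (by omega) (by omega)).symm
  have h1 : (i + 2) % n = ((i + 1) % n + 1) % n := by rw [Nat.mod_add_mod]
  rw [h1]
  exact (modne (Nat.mod_lt _ (by omega)) le_rfl (by omega)).symm

theorem genPos_of {n : ℕ} {v : ℕ → ℝ × ℝ}
    (h : ∀ i j k, i < j → j < k → k < n → D (v i) (v k) (v j) ≠ 0) : GenPos n v := by
  intro i j k hi hj hk hij hjk hik hc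
  have h0 : D (v i) (v j) (v k) = 0 := cross_zero hc
  rcases lt_or_gt_of_ne hij with a | a <;> rcases lt_or_gt_of_ne hjk with b | b <;>
    rcases lt_or_gt_of_ne hik with c | c
  · exact h i j k a b hk (by rw [D_swap, h0, neg_zero])
  · omega
  · exact h i k j c b hj h0
  · exact h k i j c a hj (by rw [D_swap, D_rot (v j) (v k) (v i), D_rot (v i) (v j) (v k), h0,
      neg_zero])
  · exact h j i k a c hk (by rw [D_rot, h0])
  · exact h j k i b c hi (by rw [D_swap', h0, neg_zero])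
  · omega
  · exact h k j i b a hi (by rw [D_rot (v j) (v k) (v i), D_rot (v i) (v j) (v k), h0])

theorem G_genPos (m : ℕ) : GenPos (m + 2) (G m) := by
  refine genPos_of fun i j k hij hjk hk => ?_
  rcases Nat.lt_or_ge m k with h | h
  · have hk' : k = m + 1 := by omega
    subst hk'
    obtain ⟨h1, h2⟩ := D_apex (m := m) hij (by omega)
    by_cases a : Even i
    · exact (h2 (Or.inl a)).ne
    · by_cases b : Even j
      · exact (h1 a b).ne'
      · exact (h2 (Or.inr b)).ne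
  · obtain ⟨h1, h2⟩ := D_chain (m := m) hij hjk h
    by_cases b : Even j
    · exact (h1 b).ne'
    · exact (h2 b).ne

/-! edges -/

theorem gedge_chain {m i : ℕ} (hi : i < m) {z : ℝ × ℝ} (hz : z ∈ edge (m + 2) (G m) i) :
    ∃ t : ℝ, 0 ≤ t ∧ t ≤ 1 ∧ z.1 = i + t ∧ z.2 = (1 - t) * yy m i + t * yy m (i + 1) := by
  unfold edge at hz
  rw [mod1 hi.le, G_le hi.le, G_le (by omega : i + 1 ≤ m), mem_seg] at hz
  obtain ⟨t, h0, h1, e1, e2⟩ := hz
  refine ⟨t, h0, h1, ?_, e2⟩
  rw [e1]; push_cast; ring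

theorem gedge_right {m : ℕ} {z : ℝ × ℝ} (hz : z ∈ edge (m + 2) (G m) m) :
    ∃ t : ℝ, 0 ≤ t ∧ t ≤ 1 ∧ z.1 = m + (3 * m + 4) * t ∧ z.2 = (1 - t) * yy m m + 2 * t := by
  unfold edge at hz
  rw [mod1 le_rfl, G_le le_rfl, G_apex, mem_seg] at hz
  obtain ⟨t, h0, h1, e1, e2⟩ := hz
  refine ⟨t, h0, h1, ?_, ?_⟩
  · rw [e1]; ring
  · rw [e2]; ring

theorem yy_zero (m : ℕ) : yy m 0 = 1 := by
  rw [yy_even (by decide)]; simp

theorem gedge_top {m : ℕ} {z : ℝ × ℝ} (hz : z ∈ edge (m + 2) (G m) (m + 1)) :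
    ∃ t : ℝ, 0 ≤ t ∧ t ≤ 1 ∧ z.1 = (4 * m + 4) * t ∧ z.2 = 1 + t := by
  unfold edge at hz
  rw [mod2, G_apex, G_le (Nat.zero_le m), mem_seg, yy_zero] at hz
  obtain ⟨t, h0, h1, e1, e2⟩ := hz
  refine ⟨1 - t, by linarith, by linarith, ?_, ?_⟩
  · rw [e1]; push_cast; ring
  · rw [e2]; ring

theorem gchain_x {m i : ℕ} (hi : i < m) {z : ℝ × ℝ} (hz : z ∈ edge (m + 2) (G m) i) :
    (i : ℝ) ≤ z.1 ∧ z.1 ≤ i + 1 ∧ z.2 ≤ 1 := by
  obtain ⟨t, h0, h1, e1, e2⟩ := gedge_chain hi hz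
  refine ⟨by rw [e1]; linarith, by rw [e1]; linarith, ?_⟩
  rw [e2]
  have a := yy_le (m := m) (i := i) hi.le
  have b := yy_le (m := m) (i := i + 1) hi
  nlinarith

theorem gchain_end {m i : ℕ} (hi : i < m) {z : ℝ × ℝ} (hz : z ∈ edge (m + 2) (G m) i)
    (hx : (i : ℝ) + 1 ≤ z.1) : z = G m (i + 1) := by
  obtain ⟨t, h0, h1, e1, e2⟩ := gedge_chain hi hz
  have ht : t = 1 := by linarith
  rw [G_le (by omega)]
  ext
  · rw [e1, ht]; push_cast; ring
  · rw [e2, ht]; ring

theorem gright_x {m : ℕ} {z : ℝ × ℝ} (hz : z ∈ edge (m + 2) (G m) m) : (m : ℝ) ≤ z.1 := by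
  obtain ⟨t, h0, h1, e1, e2⟩ := gedge_right hz
  rw [e1]
  have : (0 : ℝ) ≤ m := Nat.cast_nonneg m
  nlinarith

theorem gtop_le {m : ℕ} {z : ℝ × ℝ} (hz : z ∈ edge (m + 2) (G m) (m + 1)) (hy : z.2 ≤ 1) :
    z = G m 0 ∧ z.1 = 0 := by
  obtain ⟨t, h0, h1, e1, e2⟩ := gedge_top hz
  have ht : t = 0 := by linarith
  rw [G_le (Nat.zero_le m), yy_zero]
  refine ⟨?_, by rw [e1, ht]; ring⟩
  ext
  · rw [e1, ht]; push_cast; ring
  · rw [e2, ht]; ring

theorem gright_top {m : ℕ} (hm : 1 ≤ m) {z : ℝ × ℝ} (hz : z ∈ edge (m + 2) (G m) m)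
    (hz' : z ∈ edge (m + 2) (G m) (m + 1)) : z = G m (m + 1) := by
  obtain ⟨t, h0, h1, e1, e2⟩ := gedge_right hz
  obtain ⟨s, s0, s1, f1, f2⟩ := gedge_top hz'
  have hm' : (1 : ℝ) ≤ m := by exact_mod_cast hm
  have hh := yy_le (m := m) (i := m) le_rfl
  have ht : t = 1 := by
    by_contra hne
    have hlt : 0 < 1 - t := by
      rcases lt_or_eq_of_le h1 with h | h
      · linarith
      · exact absurd h hne
    have k1 : (m : ℝ) + (3 * m + 4) * t = (4 * m + 4) * s := by rw [← e1, f1]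
    have k2 : (1 - t) * yy m m + 2 * t = 1 + s := by rw [← e2, f2]
    have k3 : (4 * (m : ℝ) + 4) * (1 - s) = (3 * m + 4) * (1 - t) := by linarith
    have k4 : 1 - s = (2 - yy m m) * (1 - t) := by linarith
    rw [k4] at k3
    have k5 : (4 * (m : ℝ) + 4) * (2 - yy m m) = 3 * m + 4 := by
      have : ((4 * (m : ℝ) + 4) * (2 - yy m m) - (3 * m + 4)) * (1 - t) = 0 := by linarith
      rcases mul_eq_zero.1 this with h | h
      · linarith
      · linarith
    nlinarith
  rw [G_apex]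
  ext
  · rw [e1, ht]; ring
  · rw [e2, ht]; ring

theorem gdisj_lt {m i j : ℕ} (hij : i < j) (hj : j < m + 2)
    (h1 : j ≠ (i + 1) % (m + 2)) (h2 : i ≠ (j + 1) % (m + 2)) :
    Disjoint (edge (m + 2) (G m) i) (edge (m + 2) (G m) j) := by
  rw [mod1 (by omega)] at h1
  rw [Set.disjoint_left]
  intro z hz hz'
  rcases lt_trichotomy j m with hjm | hjm | hjm
  · have a1 := (gchain_x (by omega : i < m) hz).2.1
    have a2 := (gchain_x hjm hz').1
    have : ((i : ℝ) + 1) + 1 ≤ j := by exact_mod_cast (by omega : i + 1 + 1 ≤ j)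
    linarith
  · subst hjm
    have a1 := (gchain_x (by omega : i < j) hz).2.1
    have a2 := gright_x hz'
    have : ((i : ℝ) + 1) + 1 ≤ j := by exact_mod_cast (by omega : i + 1 + 1 ≤ j)
    linarith
  · have hjm' : j = m + 1 := by omega
    subst hjm'
    rw [mod2] at h2
    have a1 := gchain_x (by omega : i < m) hz
    have a2 := gtop_le hz' a1.2.2
    have : (1 : ℝ) ≤ i := by exact_mod_cast (by omega : 1 ≤ i)
    linarith [a1.1, a2.2]

theorem g_isSimple {m : ℕ} (hm : 1 ≤ m) : IsSimple (m + 2) (G m) where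
  inj := by
    intro i hi j hj he
    have hm0 : (0 : ℝ) ≤ m := Nat.cast_nonneg m
    rcases Nat.lt_or_ge m i with him | him
    · rcases Nat.lt_or_ge m j with hjm | hjm
      · omega
      · have hi' : i = m + 1 := by omega
        subst hi'
        rw [G_apex, G_le hjm] at he
        have := congrArg Prod.fst he
        simp only at this
        have hj' : (j : ℝ) ≤ m := by exact_mod_cast hjm
        linarith
    · rcases Nat.lt_or_ge m j with hjm | hjm
      · have hj' : j = m + 1 := by omega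
        subst hj'
        rw [G_apex, G_le him] at he
        have := congrArg Prod.fst he
        simp only at this
        have hj' : (i : ℝ) ≤ m := by exact_mod_cast him
        linarith
      · rw [G_le him, G_le hjm] at he
        have := congrArg Prod.fst he
        simp only at this
        exact_mod_cast this
  adj := by
    intro i hi
    apply Set.Subset.antisymm
    · rintro z ⟨hz, hz'⟩
      rw [Set.mem_singleton_iff]
      rcases lt_trichotomy i m with him | him | him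
      · rw [mod1 him.le] at hz' ⊢
        apply gchain_end him hz
        rcases Nat.lt_or_ge (i + 1) m with h1 | h1
        · have := (gchain_x h1 hz').1
          push_cast at this
          exact this
        · have h2 : i + 1 = m := by omega
          rw [h2] at hz'
          have := gright_x hz'
          rw [← h2] at this
          push_cast at this
          exact this
      · subst him
        rw [mod1 le_rfl] at hz' ⊢
        exact gright_top hm hz hz'
      · have him' : i = m + 1 := by omega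
        subst him'
        rw [mod2] at hz' ⊢
        exact (gtop_le hz (gchain_x (by omega) hz').2.2).1
    · rintro z rfl
      exact ⟨right_mem _ _ _, left_mem _ _ _⟩
  disj := by
    intro i hi j hj hij h1 h2
    rcases lt_or_gt_of_ne hij with h | h
    · exact gdisj_lt h hj h1 h2
    · exact (gdisj_lt h hi h2 h1).symm

/-- a chord which separates the ends of an edge below it is mixed -/
theorem cross_mixed {n : ℕ} {v : ℕ → ℝ × ℝ} {j k i : ℕ} (hi : i < n)
    (hx1 : (v j).1 < (v i).1) (hx2 : (v i).1 < (v ((i + 1) % n)).1)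
    (hx3 : (v ((i + 1) % n)).1 < (v k).1)
    (hD : (0 < D (v j) (v k) (v i) ∧ D (v j) (v k) (v ((i + 1) % n)) < 0) ∨
      (D (v j) (v k) (v i) < 0 ∧ 0 < D (v j) (v k) (v ((i + 1) % n)))) : Mixed n v j k := by
  obtain ⟨w, hw⟩ : ∃ w, w = v ((i + 1) % n) := ⟨_, rfl⟩
  rw [← hw] at hx2 hx3 hD
  obtain ⟨t, ht0, ht1, ht⟩ : ∃ t : ℝ, 0 < t ∧ t < 1 ∧
      D (v j) (v k) (v i) + t * (D (v j) (v k) w - D (v j) (v k) (v i)) = 0 := by
    rcases hD with ⟨a, b⟩ | ⟨a, b⟩
    · have : 0 < D (v j) (v k) (v i) - D (v j) (v k) w := by linarith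
      refine ⟨D (v j) (v k) (v i) / (D (v j) (v k) (v i) - D (v j) (v k) w), div_pos a this,
        (div_lt_one this).2 (by linarith), ?_⟩
      field_simp
      ring
    · have : 0 < D (v j) (v k) w - D (v j) (v k) (v i) := by linarith
      refine ⟨(-D (v j) (v k) (v i)) / (D (v j) (v k) w - D (v j) (v k) (v i)),
        div_pos (by linarith) this, (div_lt_one this).2 (by linarith), ?_⟩
      field_simp
      ring
  set r : Pt := ((v i).1 + t * (w.1 - (v i).1), (v i).2 + t * (w.2 - (v i).2)) with hr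
  have hr1 : r ∈ openSegment ℝ (v i) w := mem_os.2 ⟨t, ht0, ht1, rfl, rfl⟩
  have hr2 : D (v j) (v k) r = 0 := by
    rw [D_aff (v := v j) (a := v k) (s := v i) (u := w) (z := r) rfl rfl]
    exact ht
  have hrx : r.1 = (v i).1 + t * (w.1 - (v i).1) := rfl
  have hr3 : r ∈ openSegment ℝ (v j) (v k) := by
    refine os_of_line (α := 1) (β := 0) hr2 ?_ ?_
    · rw [lf_x, hrx]; nlinarith
    · rw [lf_x, lf_x, hrx]; nlinarith
  refine mixed_of_meet hr3 ⟨i, hi, ?_⟩
  rw [hw] at hr1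
  exact openSegment_subset_segment ℝ _ _ hr1

theorem gmixed_chain {m i j : ℕ} (hij : i + 3 ≤ j) (hj : j ≤ m) : Mixed (m + 2) (G m) i j := by
  have e : (i + 1 + 1) % (m + 2) = i + 2 := mod1 (by omega)
  refine cross_mixed (i := i + 1) (by omega) ?_ ?_ ?_ ?_
  · rw [G_le (by omega), G_le (by omega)]; push_cast; linarith
  · rw [e, G_le (by omega), G_le (by omega)]; push_cast; linarith
  · rw [e, G_le (by omega), G_le (by omega)]
    have : ((i : ℝ) + 3) ≤ j := by exact_mod_cast hij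
    push_cast; linarith
  · rw [e]
    obtain ⟨a1, a2⟩ := D_chain (m := m) (i := i) (j := i + 1) (k := j) (by omega) (by omega) hj
    obtain ⟨b1, b2⟩ := D_chain (m := m) (i := i) (j := i + 2) (k := j) (by omega) (by omega) hj
    by_cases hp : Even (i + 1)
    · exact Or.inl ⟨a1 hp, b2 (by rw [show i + 2 = (i + 1) + 1 from rfl, Nat.even_add_one]; simpa using hp)⟩
    · exact Or.inr ⟨a2 hp, b1 (by rw [show i + 2 = (i + 1) + 1 from rfl, Nat.even_add_one]; exact hp)⟩

theorem gmixed_apex {m i : ℕ} (hi : ¬ Even i) (him : i + 2 ≤ m) :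
    Mixed (m + 2) (G m) i (m + 1) := by
  have e : (i + 1 + 1) % (m + 2) = i + 2 := mod1 (by omega)
  have hm0 : (0 : ℝ) ≤ m := Nat.cast_nonneg m
  refine cross_mixed (i := i + 1) (by omega) ?_ ?_ ?_ ?_
  · rw [G_le (by omega), G_le (by omega)]; push_cast; linarith
  · rw [e, G_le (by omega), G_le (by omega)]; push_cast; linarith
  · rw [e, G_le (by omega), G_apex]
    have : ((i : ℝ) + 2) ≤ m := by exact_mod_cast him
    push_cast; linarith
  · rw [e]
    obtain ⟨a1, a2⟩ := D_apex (m := m) (i := i) (j := i + 1) (by omega) (by omega)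
    obtain ⟨b1, b2⟩ := D_apex (m := m) (i := i) (j := i + 2) (by omega) (by omega)
    have hp : Even (i + 1) := by rw [Nat.even_add_one]; exact hi
    exact Or.inl ⟨a1 hi hp, b2 (Or.inr (by
      rw [show i + 2 = (i + 1) + 1 from rfl, Nat.even_add_one]; simpa using hp))⟩

theorem gcount (k : ℕ) : (k + 1) ^ 2 / 2 ≤ numMixed (k + 4) (G (k + 2)) := by
  classical
  let T1 : Finset (ℕ × ℕ) := ((Finset.range (k + 1)).sigma (fun s => Finset.range s)).image
    (fun x : (_ : ℕ) × ℕ => (x.2, x.1 + 2))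
  let T2 : Finset (ℕ × ℕ) := (Finset.range ((k + 1) / 2)).image (fun q : ℕ => (2 * q + 1, k + 3))
  have c1 : T1.card * 2 = (k + 1) * k := by
    have : T1.card = ((Finset.range (k + 1)).sigma (fun s => Finset.range s)).card := by
      apply Finset.card_image_of_injective
      rintro ⟨a, b⟩ ⟨c, d⟩ he
      simp only [Prod.mk.injEq] at he
      obtain ⟨h1, h2⟩ := he
      have h3 : a = c := by omega
      subst h3
      subst h1
      rfl
    rw [this, Finset.card_sigma]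
    simp only [Finset.card_range]
    rw [Finset.sum_range_id_mul_two]
    simp
  have c2 : T2.card = (k + 1) / 2 := by
    rw [Finset.card_image_of_injective, Finset.card_range]
    intro a b he
    simp only [Prod.mk.injEq] at he
    omega
  have hdisj : Disjoint T1 T2 := by
    rw [Finset.disjoint_left]
    intro z hz hz'
    simp only [T1, T2, Finset.mem_image, Finset.mem_sigma, Finset.mem_range] at hz hz'
    obtain ⟨x, ⟨hx1, hx2⟩, rfl⟩ := hz
    obtain ⟨q, hq, he⟩ := hz'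
    simp only [Prod.mk.injEq] at he
    omega
  have hfin : {p : ℕ × ℕ | IsDiagonal (k + 4) p.1 p.2 ∧
      Mixed (k + 4) (G (k + 2)) p.1 p.2}.Finite := by
    apply Set.Finite.subset ((Finset.range (k + 4) ×ˢ Finset.range (k + 4)).finite_toSet)
    rintro ⟨a, b⟩ ⟨hd, -⟩
    unfold IsDiagonal at hd
    simp only [Finset.coe_product, Set.mem_prod, Finset.mem_coe, Finset.mem_range]
    simp only at hd
    omega
  have hsub : ((T1 ∪ T2 : Finset (ℕ × ℕ)) : Set (ℕ × ℕ)) ⊆
      {p : ℕ × ℕ | IsDiagonal (k + 4) p.1 p.2 ∧ Mixed (k + 4) (G (k + 2)) p.1 p.2} := by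
    intro z hz
    rw [Finset.mem_coe, Finset.mem_union] at hz
    rcases hz with hz | hz
    · simp only [T1, Finset.mem_image, Finset.mem_sigma, Finset.mem_range] at hz
      obtain ⟨x, ⟨hx1, hx2⟩, rfl⟩ := hz
      refine ⟨?_, gmixed_chain (m := k + 2) (by simp only; omega) (by simp only; omega)⟩
      unfold IsDiagonal
      simp only
      omega
    · simp only [T2, Finset.mem_image, Finset.mem_range] at hz
      obtain ⟨q, hq, rfl⟩ := hz
      refine ⟨?_, gmixed_apex (m := k + 2) (by simp only; rw [Nat.even_add_one]; simp) (by simp only; omega)⟩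
      unfold IsDiagonal
      simp only
      omega
  have hle : (T1 ∪ T2).card ≤ numMixed (k + 4) (G (k + 2)) := by
    unfold numMixed
    rw [← Set.ncard_coe_finset]
    exact Set.ncard_le_ncard hsub hfin
  rw [Finset.card_union_of_disjoint hdisj, c2] at hle
  refine le_trans ?_ hle
  have e1 : (k + 1) ^ 2 = (k + 1) * k + (k + 1) := by ring
  rw [e1, ← c1]
  omega

end Pool.Agent.KS6_78.DG
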